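import Pool.Agent.X320.DS.Pos

/-! Definitions for statements on traces of Frobenius elements: matrix representations, polynomials in the entries,
tensor constructions, densities. -/

set_option autoImplicit false
set_option linter.unusedSectionVars false

namespace Pool.Agent.X320.DS.St

open NumberField IsDedekindDomain Filter Matrix
open Pool.Agent.W401.Cheb (GK IsFrob dens)

/-- representations of the group `G` by `n × n` matrices over `F` -/
abbrev Rep (G F : Type) [Group G] [Field F] (n : ℕ) : Type := G →* GL (Fin n) F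

/-- polynomials in the `m ^ 2` entries of a matrix and the `m ^ 2` entries of its inverse -/
abbrev Poly (F : Type) [Field F] (m : ℕ) : Type := MvPolynomial ((Fin m × Fin m) ⊕ (Fin m × Fin m)) F

section

variable {G : Type} [Group G] {F : Type} [Field F] {n m : ℕ}

/-- the matrix of `g` -/
abbrev mat (ρ : Rep G F n) (g : G) : Matrix (Fin n) (Fin n) F := (ρ g : Matrix (Fin n) (Fin n) F)

/-- the subspace `W` is stable under `ρ` -/
def Stable (ρ : Rep G F n) (W : Submodule F (Fin n → F)) : Prop := ∀ g, ∀ w ∈ W, mat ρ g *ᵥ w ∈ W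

/-- `ρ` is semisimple: every stable subspace has a stable complement -/
def Semisimple (ρ : Rep G F n) : Prop := ∀ W, Stable ρ W → ∃ W', Stable ρ W' ∧ IsCompl W W'

/-- `ρ` is irreducible -/
def Irreducible (ρ : Rep G F n) : Prop := 0 < n ∧ ∀ W, Stable ρ W → W = ⊥ ∨ W = ⊤

/-- the value at `g` of a polynomial in the entries of `θ g` and of its inverse -/
noncomputable def value (θ : Rep G F m) (P : Poly F m) (g : G) : F :=
  MvPolynomial.eval (Sum.elim (fun s => mat θ g s.1 s.2) (fun s => mat θ g⁻¹ s.1 s.2)) P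

/-- the space `F[G/H] ⊗ W^{⊗ a} ⊗ (W^*)^{⊗ b}` for `W = F ^ m`, as the space of functions on
`(G ⧸ H) × {1, ..., m} ^ a × {1, ..., m} ^ b` -/
abbrev Tensors (F : Type) (H : Subgroup G) (m a b : ℕ) : Type :=
  (G ⧸ H) × (Fin a → Fin m) × (Fin b → Fin m) → F

/-- The action of `g` on the space `F[G/H] ⊗ W^{⊗ a} ⊗ (W^*)^{⊗ b}`, where `W = F ^ m` with the action `θ`. -/
noncomputable def tensorAction (θ : Rep G F m) {H : Subgroup G} {a b : ℕ} (g : G)
    (T : Tensors F H m a b) : Tensors F H m a b :=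
  fun p => ∑ i, ∑ j, (∏ k, mat θ g (p.2.1 k) (i k)) * (∏ l, mat θ g⁻¹ (j l) (p.2.2 l)) * T (g⁻¹ • p.1, i, j)

/-- the combination `c u + v` -/
def comb {G F : Type} [Group G] [Field F] {H : Subgroup G} {m a b : ℕ} (c : F) (u v : Tensors F H m a b) :
    Tensors F H m a b := fun p => c * u p + v p

/-- `ρ` is a subquotient of `F[G/H] ⊗ W^{⊗ a} ⊗ (W^*)^{⊗ b}`: there is a stable subspace `S` with an equivariant
linear surjection `π` to the space of `ρ`. -/
def IsSubquotient (ρ : Rep G F n) (θ : Rep G F m) (H : Subgroup G) (a b : ℕ) : Prop :=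
  ∃ (S : Set (Tensors F H m a b)) (π : Tensors F H m a b → (Fin n → F)),
    (∀ c, ∀ u ∈ S, ∀ v ∈ S, comb c u v ∈ S ∧ π (comb c u v) = c • π u + π v) ∧
    (∀ g, ∀ u ∈ S, tensorAction θ g u ∈ S ∧ π (tensorAction θ g u) = mat ρ g *ᵥ π u) ∧
    ∀ w, ∃ u ∈ S, π u = w

theorem isSubquotient_iff (ρ : Rep G F n) (θ : Rep G F m) (H : Subgroup G) (a b : ℕ)
    (h : ∃ (S : Submodule F (Tensors F H m a b)) (π : S →ₗ[F] (Fin n → F)), Function.Surjective π ∧
    ∀ g (u : S), ∃ h : tensorAction θ g u.1 ∈ S, π ⟨tensorAction θ g u.1, h⟩ = mat ρ g *ᵥ π u) :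
    IsSubquotient ρ θ H a b := by
  classical
  obtain ⟨S, π, hπ, hS⟩ := h
  have hcomb : ∀ (c : F) (u v : Tensors F H m a b), comb c u v = c • u + v := fun _ _ _ => rfl
  refine ⟨S, fun u => if hu : u ∈ S then π ⟨u, hu⟩ else 0, fun c u hu v hv => ?_, fun g u hu => ?_, fun w => ?_⟩
  · have h1 : comb c u v ∈ S := by
      rw [hcomb]
      exact S.add_mem (S.smul_mem c hu) hv
    refine ⟨h1, ?_⟩
    have hu' : u ∈ S := hu
    have hv' : v ∈ S := hv
    simp only [dif_pos h1, dif_pos hu', dif_pos hv']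
    rw [← map_smul, ← map_add]
    rfl
  · obtain ⟨h1, h2⟩ := hS g ⟨u, hu⟩
    refine ⟨h1, ?_⟩
    have hu' : u ∈ S := hu
    simp only [dif_pos hu']
    rw [← h2]
    exact dif_pos h1
  · obtain ⟨u, rfl⟩ := hπ w
    exact ⟨u.1, u.2, dif_pos u.2⟩

theorem aeval_eq_value (θ : Rep G F m) (P : Poly F m) :
    MvPolynomial.aeval (Pool.Agent.X320.DS.gens θ) P = value θ P := by
  funext g
  have h2 : (Pi.evalAlgHom F (fun _ : G => F) g) (MvPolynomial.aeval (Pool.Agent.X320.DS.gens θ) P) =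
      MvPolynomial.aeval (fun s => Pool.Agent.X320.DS.gens θ s g) P := by
    rw [← AlgHom.comp_apply, MvPolynomial.comp_aeval]
    rfl
  refine h2.trans ?_
  rw [MvPolynomial.aeval_eq_eval]
  unfold value
  congr 1
  congr 1
  funext s
  rcases s with s | s <;> rfl

theorem value_mem (θ : Rep G F m) (P : Poly F m) :
    value θ P ∈ Pool.Agent.X320.DS.algT θ := by
  rw [← aeval_eq_value, Pool.Agent.X320.DS.algT, Algebra.adjoin_range_eq_range_aeval]
  exact ⟨P, rfl⟩

theorem exists_value (θ : Rep G F m) {f : G → F} (hf : f ∈ Pool.Agent.X320.DS.algT θ) :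
    ∃ P, f = value θ P := by
  rw [Pool.Agent.X320.DS.algT, Algebra.adjoin_range_eq_range_aeval] at hf
  obtain ⟨P, rfl⟩ := hf
  exact ⟨P, aeval_eq_value θ P⟩

end

/-- the set of the places with property `P` has lower density at least `δ` -/
def LowerDensityGe {K : Type} [Field K] [NumberField K] (P : HeightOneSpectrum (𝓞 K) → Prop) (δ : ℝ) : Prop :=
  ∀ᶠ N in atTop, δ ≤ dens P N

theorem delta_ok {n : ℕ} (hn : 0 < n) {δ : ℝ} (hδ : 1 - 1 / (n : ℝ) ^ 2 < δ) : (1 - δ) * (n : ℝ) ^ 2 < 1 := by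
  have hn1 : (0 : ℝ) < (n : ℝ) ^ 2 := by
    have : (0 : ℝ) < (n : ℝ) := by exact_mod_cast hn
    positivity
  have h1 : 1 - δ < 1 / (n : ℝ) ^ 2 := by linarith
  calc (1 - δ) * (n : ℝ) ^ 2 < 1 / (n : ℝ) ^ 2 * (n : ℝ) ^ 2 := mul_lt_mul_of_pos_right h1 hn1
    _ = 1 := by field_simp

/-- For a set of places `v` of lower density at least `δ` the traces of `ρ (σ⁻¹)` for all Frobenius elements `σ`
at `v` are in the sets `A (σ⁻¹)`. -/
def FrobeniusTraces {K : Type} [Field K] [NumberField K] {F : Type} [Field F] {n : ℕ} (ρ : Rep (GK K) F n)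
    (A : GK K → Set F) (δ : ℝ) : Prop :=
  LowerDensityGe (fun v : HeightOneSpectrum (𝓞 K) => ∀ σ, IsFrob v σ → (mat ρ σ⁻¹).trace ∈ A σ⁻¹) δ

/-- the values at `g` of the polynomials in `X` in the entries of `θ (g)` and of its inverse -/
def polynomialValues {G F : Type} [Group G] [Field F] {m : ℕ} (θ : Rep G F m) (X : Finset (Poly F m)) (g : G) :
    Set F := {t | ∃ P ∈ X, t = value θ P g}

/-- the numbers `c χ (g) ^ e`, for the pairs `(c, e)` in `X` -/
def powerValues {G F : Type} [Group G] [Field F] (χ : G →* Fˣ) (X : Finset (F × ℤ)) (g : G) : Set F :=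
  {t | ∃ x ∈ X, t = x.1 * ((χ g ^ x.2 : Fˣ) : F)}

/-- on an open normal subgroup the entries of `ρ` are polynomials in the entries of `θ` and its inverse -/
def PotentiallyPolynomial {K F : Type} [Field K] [Field F] {n m : ℕ} (ρ : Rep (GK K) F n)
    (θ : Rep (GK K) F m) : Prop :=
  ∃ H : Subgroup (GK K), H.Normal ∧ IsOpen (H : Set (GK K)) ∧
    ∃ Q : Matrix (Fin n) (Fin n) (Poly F m), ∀ g ∈ H, mat ρ g = Q.map fun P => value θ P g

/-- `ρ` is a subquotient of `F[G_K/H] ⊗ W^{⊗ a} ⊗ (W^*)^{⊗ b}` for some open normal subgroup `H` and some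
`a`, `b` -/
def InTensorCategory {K F : Type} [Field K] [Field F] {n m : ℕ} (ρ : Rep (GK K) F n)
    (θ : Rep (GK K) F m) : Prop :=
  ∃ H : Subgroup (GK K), H.Normal ∧ IsOpen (H : Set (GK K)) ∧ ∃ a b, IsSubquotient ρ θ H a b

/-- for some integer `e` the twist `ρ ⊗ χ ^ (-e)` is trivial on an open normal subgroup -/
def PotentiallyPower {K F : Type} [Field K] [Field F] {n : ℕ} (ρ : Rep (GK K) F n) (χ : GK K →* Fˣ) : Prop :=
  ∃ (e : ℤ) (H : Subgroup (GK K)), H.Normal ∧ IsOpen (H : Set (GK K)) ∧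
    ∀ g ∈ H, mat ρ g = Matrix.scalar (Fin n) ((χ g ^ e : Fˣ) : F)


/-- For a set of places `v` of upper density at least `δ` the traces of `ρ (σ⁻¹)` for all Frobenius elements `σ`
at `v` are in the sets `A (σ⁻¹)`. -/
def FrobeniusTracesUpper {K : Type} [Field K] [NumberField K] {F : Type} [Field F] {n : ℕ} (ρ : Rep (GK K) F n)
    (A : GK K → Set F) (δ : ℝ) : Prop :=
  ∃ᶠ N in atTop, δ ≤
    dens (fun v : HeightOneSpectrum (𝓞 K) => ∀ σ, IsFrob v σ → (mat ρ σ⁻¹).trace ∈ A σ⁻¹) N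

/-- `ρ` is strongly irreducible: on every open subgroup `H` the matrices `ρ (h)` span the space of all matrices (by
Burnside's theorem: the restriction of `ρ` to every open subgroup is absolutely irreducible) -/
def StronglyIrreducible {K F : Type} [Field K] [Field F] {n : ℕ} (ρ : Rep (GK K) F n) : Prop :=
  0 < n ∧ ∀ H : Subgroup (GK K), IsOpen (H : Set (GK K)) → Submodule.span F (mat ρ '' (H : Set (GK K))) = ⊤

/-- the span of the matrices `ρ (h)`, `h` in an open subgroup `H`, is the same for all `H` -/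
def SpanStable {K F : Type} [Field K] [Field F] {n : ℕ} (ρ : Rep (GK K) F n) : Prop :=
  ∀ H : Subgroup (GK K), IsOpen (H : Set (GK K)) → ∀ x, mat ρ x ∈ Submodule.span F (mat ρ '' (H : Set (GK K)))

section

variable {K F : Type} [Field K] [NumberField K] [Field F] {n m : ℕ}

theorem StronglyIrreducible.spanStable {ρ : Rep (GK K) F n} (h : StronglyIrreducible ρ) : SpanStable ρ :=
  fun H hH x => by rw [h.2 H hH]; trivial

theorem StronglyIrreducible.irreducible {ρ : Rep (GK K) F n} (h : StronglyIrreducible ρ) : Irreducible ρ := by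
  refine ⟨h.1, fun W hW => ?_⟩
  have h1 := h.2 ⊤ isOpen_univ
  by_cases hb : W = ⊥
  · exact Or.inl hb
  · right
    obtain ⟨w, hw, hw0⟩ := (Submodule.ne_bot_iff _).1 hb
    have hall : ∀ M : Matrix (Fin n) (Fin n) F, ∀ w ∈ W, M *ᵥ w ∈ W := by
      intro M
      have hM : M ∈ Submodule.span F (mat ρ '' ((⊤ : Subgroup (GK K)) : Set (GK K))) := by rw [h1]; trivial
      refine Submodule.span_induction (p := fun M _ => ∀ w ∈ W, M *ᵥ w ∈ W) ?_ ?_ ?_ ?_ hM
      · rintro _ ⟨g, _, rfl⟩ w hw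
        exact hW g w hw
      · intro w _
        rw [Matrix.zero_mulVec]
        exact W.zero_mem
      · intro M M' _ _ h h' w hw
        rw [Matrix.add_mulVec]
        exact W.add_mem (h w hw) (h' w hw)
      · intro c M _ h w hw
        rw [Matrix.smul_mulVec]
        exact W.smul_mem c (h w hw)
    obtain ⟨j, hj⟩ : ∃ j, w j ≠ 0 := by
      by_contra hcon
      push Not at hcon
      exact hw0 (funext hcon)
    rw [eq_top_iff]
    intro u _
    have h2 := hall (Matrix.of fun i l => if l = j then u i / w j else 0) w hw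
    have e : (Matrix.of fun i l => if l = j then u i / w j else 0) *ᵥ w = u := by
      funext i
      show ∑ l, (if l = j then u i / w j else 0) * w l = u i
      rw [Finset.sum_eq_single j]
      · rw [if_pos rfl, div_mul_cancel₀ _ hj]
      · intro l _ hl
        rw [if_neg hl, zero_mul]
      · simp
    rwa [e] at h2

theorem Irreducible.semisimple {G : Type} [Group G] {ρ : Rep G F n} (hρ : Irreducible ρ) : Semisimple ρ :=
  fun W hW => by
    rcases hρ.2 W hW with rfl | rfl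
    · exact ⟨⊤, fun _ _ _ => Submodule.mem_top, isCompl_bot_top⟩
    · refine ⟨⊥, fun g w hw => ?_, isCompl_top_bot⟩
      rw [Submodule.mem_bot] at hw ⊢
      rw [hw, Matrix.mulVec_zero]

end

section

variable {K F : Type} [Field K] [NumberField K] [Field F] [CharZero F] [TopologicalSpace F]
  [IsTopologicalRing F] [T2Space F] {n m : ℕ}

/-- polynomial dependence on an open subgroup, positive upper density -/
theorem dependence_upper {ρ : Rep (GK K) F n} (hρc : Continuous ρ) (hρ : Semisimple ρ) (hs : SpanStable ρ)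
    {θ : Rep (GK K) F m} (hθ : Continuous θ) (X : Finset (Poly F m)) {δ : ℝ} (hδ : 0 < δ)
    (h : FrobeniusTracesUpper ρ (polynomialValues θ X) δ) :
    ∃ H : Subgroup (GK K), H.Normal ∧ IsOpen (H : Set (GK K)) ∧
      ∃ φ : Fin n → Fin n → GK K → F, (∀ s t, φ s t ∈ Pool.Agent.X320.DS.algT θ) ∧
        ∀ g ∈ H, ∀ s t, (ρ g : Matrix (Fin n) (Fin n) F) s t = φ s t g := by
  obtain ⟨H0, hH0, φ, hφ1, hφ2⟩ := Pool.Agent.X320.DS.pos_alg hρc hρ
    (Nat.cast_ne_zero.2 (Nat.factorial_ne_zero n)) hs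
    hθ (fun P : X => value θ P.1) (fun P => value_mem θ P.1) hδ _ h (fun v hv σ hσ => by
      obtain ⟨P, hP, h1⟩ := hv σ hσ
      exact ⟨⟨P, hP⟩, h1⟩)
  obtain ⟨U, hU⟩ := ProfiniteGrp.exist_openNormalSubgroup_sub_open_nhds_of_one hH0 H0.one_mem
  exact ⟨U.toSubgroup, U.isNormal', U.isOpen', φ, hφ1, fun g hg => hφ2 g (hU hg)⟩

theorem potentiallyPolynomial_of {ρ : Rep (GK K) F n} {θ : Rep (GK K) F m}
    (h : ∃ H : Subgroup (GK K), H.Normal ∧ IsOpen (H : Set (GK K)) ∧
      ∃ φ : Fin n → Fin n → GK K → F, (∀ s t, φ s t ∈ Pool.Agent.X320.DS.algT θ) ∧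
        ∀ g ∈ H, ∀ s t, (ρ g : Matrix (Fin n) (Fin n) F) s t = φ s t g) : PotentiallyPolynomial ρ θ := by
  obtain ⟨H, hHn, hHo, φ, hφ1, hφ2⟩ := h
  choose Q hQ using fun s t => exists_value θ (hφ1 s t)
  refine ⟨H, hHn, hHo, Matrix.of Q, fun g hg => ?_⟩
  ext s t
  refine (hφ2 g hg s t).trans ?_
  rw [hQ]
  rfl

theorem inTensorCategory_of {ρ : Rep (GK K) F n} (hρ : Irreducible ρ) {θ : Rep (GK K) F m}
    (h : ∃ H : Subgroup (GK K), H.Normal ∧ IsOpen (H : Set (GK K)) ∧
      ∃ φ : Fin n → Fin n → GK K → F, (∀ s t, φ s t ∈ Pool.Agent.X320.DS.algT θ) ∧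
        ∀ g ∈ H, ∀ s t, (ρ g : Matrix (Fin n) (Fin n) F) s t = φ s t g) : InTensorCategory ρ θ := by
  obtain ⟨H, hHn, hHo, φ, hφ1, hφ2⟩ := h
  have : Finite (GK K ⧸ H) := Subgroup.quotient_finite_of_isOpen _ hHo
  obtain ⟨a, b, S, π, hπ, hS⟩ := Pool.Agent.X320.DS.tannaka hρ.1 ρ hρ.2 θ H φ hφ1 hφ2
  exact ⟨H, hHn, hHo, a, b, isSubquotient_iff _ _ _ _ _ ⟨S, π, hπ, hS⟩⟩

end

end Pool.Agent.X320.DS.St
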