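import Pool.Agent.X320.DS.AlgDep

/-! Positive upper density suffices for representations whose span does not change on open subgroups. -/

set_option autoImplicit false
set_option linter.all false

namespace Pool.Agent.X320.DS

open MeasureTheory Topology Filter NumberField IsDedekindDomain Matrix Module
open Pool.Agent.W401.Cheb
open Pool.Agent.W528.Ord (dens_mono dens_nonneg chebK measure_union measure_U)
open scoped Pointwise

/-! ### The dual basis in a subgroup -/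

section dual

variable {Γ : Type*} [Group Γ] {k : Type*} [Field k] {n : ℕ}

theorem exists_dual_in {ρ : Γ →* GL (Fin n) k} (hρ : Semisimple ρ) (hn : ((n.factorial : ℕ) : k) ≠ 0)
    (H : Set Γ) (hH : ∀ x, (ρ x : Matrix (Fin n) (Fin n) k) ∈
      Submodule.span k ((fun h => (ρ h : Matrix (Fin n) (Fin n) k)) '' H)) :
    ∃ (r : ℕ) (g : Fin r → Γ) (B : Fin r → Matrix (Fin n) (Fin n) k), r ≤ n ^ 2 ∧ (∀ i, g i ∈ H) ∧ ∀ x : Γ,
      (ρ x : Matrix (Fin n) (Fin n) k) = ∑ i, (ρ (g i * x) : Matrix (Fin n) (Fin n) k).trace • B i := by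
  classical
  have hH' : Submodule.span k (toEnd ρ '' H) = Submodule.span k (Set.range (toEnd ρ)) := by
    apply le_antisymm (Submodule.span_mono (Set.image_subset_range _ _))
    rw [Submodule.span_le]
    rintro _ ⟨x, rfl⟩
    have h1 := Submodule.mem_map_of_mem (f := (Matrix.toLin' (R := k) (m := Fin n) (n := Fin n)).toLinearMap) (hH x)
    rw [Submodule.map_span, ← Set.image_comp] at h1
    exact h1
  obtain ⟨f, hf1, hf2, hf3⟩ := Submodule.exists_fun_fin_finrank_span_eq k (toEnd ρ '' H)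
  choose g hgH hg using hf1
  let T : Subalgebra.toSubmodule (alg ρ) →ₗ[k] (Fin (finrank k (Submodule.span k (toEnd ρ '' H))) → k) :=
    { toFun := fun a i => LinearMap.trace k (Fin n → k) (f i * a.1)
      map_add' := fun a b => by
        funext i
        show LinearMap.trace k (Fin n → k) (f i * (a.1 + b.1)) = _
        rw [mul_add, map_add]
        rfl
      map_smul' := fun c a => by
        funext i
        show LinearMap.trace k (Fin n → k) (f i * (c • a.1)) = _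
        rw [mul_smul_comm, map_smul]
        rfl }
  have hT : LinearMap.ker T = ⊥ := by
    rw [LinearMap.ker_eq_bot']
    intro x hx
    apply Subtype.ext
    refine trace_nondeg hρ hn x.2 fun a ha => ?_
    have ha' : a ∈ Submodule.span k (Set.range f) := by
      rw [hf2, hH', ← alg_eq_span]
      exact ha
    refine Submodule.span_induction (p := fun a _ => LinearMap.trace k (Fin n → k) (a * x.1) = 0) ?_ ?_ ?_ ?_ ha'
    · rintro _ ⟨i, rfl⟩
      exact congrFun hx i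
    · simp
    · intro a b _ _ ha hb
      rw [add_mul, map_add, ha, hb, add_zero]
    · intro c a _ ha
      rw [smul_mul_assoc, map_smul, ha, smul_zero]
  obtain ⟨L, hL⟩ : ∃ L : (Fin (finrank k (Submodule.span k (toEnd ρ '' H))) → k) →ₗ[k]
      Subalgebra.toSubmodule (alg ρ), L.comp T = LinearMap.id := by
    exact @LinearMap.exists_leftInverse_of_injective k (Subalgebra.toSubmodule (alg ρ))
      (Fin (finrank k (Submodule.span k (toEnd ρ '' H))) → k) _ _ _ _ _ T hT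
  refine ⟨_, g, fun i => LinearMap.toMatrix' (L (Pi.single i 1)).1, ?_, hgH, fun x => ?_⟩
  · have h1 := Submodule.finrank_le (Submodule.span k (toEnd ρ '' H))
    have h2 : finrank k (Module.End k (Fin n → k)) = n ^ 2 := by
      rw [Module.finrank_linearMap, Module.finrank_fin_fun, sq]
    rwa [h2] at h1
  have hx : toEnd ρ x ∈ Subalgebra.toSubmodule (alg ρ) := Algebra.subset_adjoin ⟨x, rfl⟩
  have h1 : L (T ⟨toEnd ρ x, hx⟩) = ⟨toEnd ρ x, hx⟩ := LinearMap.congr_fun hL _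
  have h2 : T ⟨toEnd ρ x, hx⟩ = ∑ i, (ρ (g i * x) : Matrix (Fin n) (Fin n) k).trace •
      (Pi.single i 1 : Fin (finrank k (Submodule.span k (toEnd ρ '' H))) → k) := by
    funext j
    rw [Finset.sum_apply]
    simp only [Pi.smul_apply, smul_eq_mul, Pi.single_apply, mul_ite, mul_one, mul_zero, Finset.sum_ite_eq,
      Finset.mem_univ, if_true]
    show LinearMap.trace k (Fin n → k) (f j * toEnd ρ x) = _
    rw [← hg j, ← map_mul]
    exact Matrix.trace_toLin'_eq _
  rw [h2, map_sum] at h1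
  simp only [map_smul] at h1
  have h3 := congrArg (fun a : Subalgebra.toSubmodule (alg ρ) => LinearMap.toMatrix' a.1) h1
  simp only [Submodule.coe_sum, Submodule.coe_smul, map_sum, map_smul] at h3
  rw [h3]
  exact (LinearMap.toMatrix'_toLin' _).symm

end dual

/-! ### Chebotarev for the upper density -/

section cheb

variable {K : Type} [Field K] [NumberField K]

theorem cheb_count_freq (Good : HeightOneSpectrum (𝓞 K) → Prop) {δ : ℝ}
    (hG : ∃ᶠ N in atTop, δ ≤ dens Good N) (U : Subgroup (GK K)) [U.Normal] (hU : IsOpen (U : Set (GK K)))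
    (H : Set (GK K)) (hH : ∀ σ ∈ H, ∀ τ : GK K, τ * σ * τ⁻¹ ∈ H)
    (hX : ∀ v, Good v → ∀ σ, IsFrob v σ → σ⁻¹ ∈ H) :
    δ * (Nat.card (GK K ⧸ U) : ℝ) ≤ (((QuotientGroup.mk : GK K → GK K ⧸ U) '' H).ncard : ℝ) := by
  classical
  -- replace `Good` by the set of all places whose Frobenius elements are in `H` modulo `U`
  have hfin : Finite (GK K ⧸ U) := Subgroup.quotient_finite_of_isOpen _ hU
  set m : GK K → GK K ⧸ U := QuotientGroup.mk with hm
  set C : Set (GK K) := {σ | m σ⁻¹ ∈ m '' H} with hC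
  have key := chebK K U hU C ?_ ?_
  · have hle : ∃ᶠ N in atTop, δ ≤ dens (fun v : HeightOneSpectrum (𝓞 K) => ∃ σ ∈ C, IsFrob v σ) N := by
      refine hG.mono fun N hN => hN.trans (dens_mono (fun v hv => ?_) N)
      obtain ⟨σ, hσ⟩ := Pool.Agent.W401.Frob.exists_frob v
      exact ⟨σ, ⟨σ⁻¹, hX v hv σ hσ, rfl⟩, hσ⟩
    have h2 : δ ≤ (((m '' C).ncard : ℝ) / (Nat.card (GK K ⧸ U) : ℝ)) := by
      by_contra hlt
      push Not at hlt
      have h3 := key.eventually (gt_mem_nhds hlt)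
      obtain ⟨N, hN1, hN2⟩ := (hle.and_eventually h3).exists
      linarith
    have hinv : (m '' C).ncard = (m '' H).ncard := by
      have e : m '' C = (fun q : GK K ⧸ U => q⁻¹) '' (m '' H) := by
        ext q
        constructor
        · rintro ⟨σ, hσ, rfl⟩
          exact ⟨m σ⁻¹, hσ, by rw [hm]; simp⟩
        · rintro ⟨q', ⟨τ, hτ, rfl⟩, rfl⟩
          refine ⟨τ⁻¹, ?_, rfl⟩
          show m (τ⁻¹)⁻¹ ∈ m '' H
          rw [inv_inv]
          exact ⟨τ, hτ, rfl⟩
      rw [e, Set.ncard_image_of_injective _ inv_injective]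
    rw [hinv] at h2
    have hpos : (0 : ℝ) < (Nat.card (GK K ⧸ U) : ℝ) := by exact_mod_cast Nat.card_pos
    rwa [le_div_iff₀ hpos] at h2
  · rintro σ ⟨h, hh, hhσ⟩ τ
    refine ⟨τ * h * τ⁻¹, hH h hh τ, ?_⟩
    have e1 : m (τ * h * τ⁻¹) = m τ * m h * (m τ)⁻¹ := rfl
    have e2 : m (τ * σ * τ⁻¹)⁻¹ = m τ * m σ⁻¹ * (m τ)⁻¹ := by
      have : (τ * σ * τ⁻¹)⁻¹ = τ * σ⁻¹ * τ⁻¹ := by group
      rw [this]
      rfl
    rw [e1, hhσ, e2]
  · rintro σ ⟨h, hh, hhσ⟩ u hu
    refine ⟨h, hh, ?_⟩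
    rw [hhσ]
    have e : (σ * u)⁻¹ = u⁻¹ * σ⁻¹ := by group
    have e2 : m (u⁻¹ * σ⁻¹) = m u⁻¹ * m σ⁻¹ := rfl
    have e3 : m u⁻¹ = 1 := (QuotientGroup.eq_one_iff _).2 (U.inv_mem hu)
    rw [e, e2, e3, one_mul]

theorem measure_ge_freq [MeasurableSpace (GK K)] [BorelSpace (GK K)] (μ : Measure (GK K))
    [IsProbabilityMeasure μ] [μ.IsMulLeftInvariant] [μ.Regular]
    {δ : ℝ} (Good : HeightOneSpectrum (𝓞 K) → Prop)
    (hG : ∃ᶠ N in atTop, δ ≤ dens Good N) (H : Set (GK K)) (hH : IsClosed H)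
    (hX : ∀ v, Good v → ∀ σ, IsFrob v σ → σ⁻¹ ∈ H) : ENNReal.ofReal δ ≤ μ H := by
  set H' : Set (GK K) := {g | ∀ τ : GK K, τ * g * τ⁻¹ ∈ H} with hH'
  have hsub : H' ⊆ H := fun g hg => by
    have := hg 1
    rwa [one_mul, inv_one, mul_one] at this
  have hcl : IsClosed H' := by
    have e : H' = ⋂ τ : GK K, (fun g => τ * g * τ⁻¹) ⁻¹' H := by
      ext g
      simp [hH']
    rw [e]
    exact isClosed_iInter fun τ => hH.preimage (by fun_prop)
  refine le_trans (measure_closed μ H' hcl δ fun U hUn hU => ?_) (measure_mono hsub)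
  haveI := hUn
  refine cheb_count_freq Good hG U hU H' (fun σ hσ τ => ?_) fun v hv σ hσ => ?_
  · intro τ'
    have h1 := hσ (τ' * τ)
    have e : τ' * (τ * σ * τ⁻¹) * τ'⁻¹ = τ' * τ * σ * (τ' * τ)⁻¹ := by group
    rw [e]
    exact h1
  · intro τ
    have h1 := hX v hv _ (isFrob_conj hσ τ)
    have e : (τ * σ * τ⁻¹)⁻¹ = τ * σ⁻¹ * τ⁻¹ := by group
    rwa [e] at h1

end cheb

/-! ### Small translations -/

section small

variable {G : Type*} [Group G] [TopologicalSpace G] [IsTopologicalGroup G] [CompactSpace G]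
  [T2Space G] [TotallyDisconnectedSpace G] [MeasurableSpace G] [BorelSpace G]

theorem small_translation (μ : Measure G) [IsProbabilityMeasure μ] [μ.IsMulLeftInvariant] [μ.Regular]
    (Z : Set G) (hZ : IsClosed Z) {ε : ENNReal} (hε : ε ≠ 0) :
    ∃ U : Subgroup G, IsOpen (U : Set G) ∧ ∀ g ∈ U, μ {x | x ∈ Z ∧ g * x ∉ Z} ≤ ε := by
  obtain ⟨O, hZO, hO, hμO⟩ := Z.exists_isOpen_lt_add (μ := μ) (measure_ne_top _ _) hε
  obtain ⟨V, hV, hVZ⟩ := compact_open_separated_mul_left hZ.isCompact hO hZO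
  obtain ⟨W, hWV, hW, hW1⟩ := mem_nhds_iff.mp hV
  obtain ⟨U, hU⟩ := ProfiniteGrp.exist_openNormalSubgroup_sub_open_nhds_of_one hW hW1
  refine ⟨U.toSubgroup, U.isOpen', fun g hg => ?_⟩
  have h1 : {x | x ∈ Z ∧ g * x ∉ Z} = (fun x => g * x) ⁻¹' {y | g⁻¹ * y ∈ Z ∧ y ∉ Z} := by
    ext x
    simp [inv_mul_cancel_left]
  rw [h1, measure_preimage_mul]
  have h2 : {y | g⁻¹ * y ∈ Z ∧ y ∉ Z} ⊆ O \ Z := by
    rintro y ⟨hy1, hy2⟩
    refine ⟨hVZ ?_, hy2⟩
    exact Set.mem_mul.2 ⟨g, hWV (hU hg), g⁻¹ * y, hy1, by group⟩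
  refine (measure_mono h2).trans ?_
  rw [measure_diff hZO hZ.measurableSet.nullMeasurableSet (measure_ne_top _ _)]
  exact tsub_le_iff_left.2 hμO.le

/-- the set of the `x` in `Z` such that all `g_i x` are in `Z` -/
theorem inter_pos (μ : Measure G) [IsProbabilityMeasure μ] [μ.IsMulLeftInvariant] [μ.Regular]
    (Z : Set G) (hZ : IsClosed Z) (h0 : μ Z ≠ 0) (R : ℕ) :
    ∃ U : Subgroup G, IsOpen (U : Set G) ∧ ∀ (r : ℕ), r ≤ R → ∀ g : Fin r → G, (∀ i, g i ∈ U) →
      μ {x | ∀ i, g i * x ∈ Z} ≠ 0 := by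
  have hε : μ Z / (2 * (R + 1 : ℕ)) ≠ 0 := by
    refine (ENNReal.div_ne_zero).2 ⟨h0, ?_⟩
    exact ENNReal.mul_ne_top (by norm_num) (ENNReal.natCast_ne_top _)
  obtain ⟨U, hU, hUg⟩ := small_translation μ Z hZ hε
  refine ⟨U, hU, fun r hr g hg h => ?_⟩
  have hcov : Z ⊆ {x | ∀ i, g i * x ∈ Z} ∪ ⋃ i, {x | x ∈ Z ∧ g i * x ∉ Z} := by
    intro x hx
    by_cases h1 : ∀ i, g i * x ∈ Z
    · exact Or.inl h1
    · push Not at h1
      obtain ⟨i, hi⟩ := h1
      exact Or.inr (Set.mem_iUnion.2 ⟨i, hx, hi⟩)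
  have h1 : μ Z ≤ (r : ENNReal) * (μ Z / (2 * (R + 1 : ℕ))) := by
    refine (measure_mono hcov).trans ((measure_union_le _ _).trans ?_)
    rw [h, zero_add]
    refine (measure_iUnion_fintype_le _ _).trans ?_
    refine (Finset.sum_le_sum fun i _ => hUg (g i) (hg i)).trans ?_
    rw [Finset.sum_const, Finset.card_univ, Fintype.card_fin, nsmul_eq_mul]
  have h2 := (ENNReal.toReal_le_toReal (measure_ne_top _ _) (ENNReal.mul_ne_top (ENNReal.natCast_ne_top _)
    (ENNReal.div_ne_top (measure_ne_top _ _) (by simp)))).2 h1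
  rw [ENNReal.toReal_mul, ENNReal.toReal_div, ENNReal.toReal_mul, ENNReal.toReal_natCast,
    ENNReal.toReal_natCast] at h2
  have hpos : 0 < (μ Z).toReal := ENNReal.toReal_pos h0 (measure_ne_top _ _)
  have hr' : (r : ℝ) ≤ R := by exact_mod_cast hr
  have h3 : (r : ℝ) * ((μ Z).toReal / ((2 : ENNReal).toReal * ((R + 1 : ℕ) : ℝ))) < (μ Z).toReal := by
    have e : (2 : ENNReal).toReal = 2 := by norm_num
    rw [e]
    push_cast
    have hR : (0 : ℝ) ≤ R := Nat.cast_nonneg _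
    rw [← mul_div_assoc, div_lt_iff₀ (by positivity)]
    nlinarith
  linarith

end small

/-! ### The main theorems -/

section main

variable {K : Type} [Field K] [NumberField K]

/-- the span of the image does not change on open subgroups -/
def SpanStable {k : Type*} [Field k] {n : ℕ} (ρ : GK K →* GL (Fin n) k) : Prop :=
  ∀ H : Subgroup (GK K), IsOpen (H : Set (GK K)) → ∀ x, (ρ x : Matrix (Fin n) (Fin n) k) ∈
    Submodule.span k ((fun h => (ρ h : Matrix (Fin n) (Fin n) k)) '' (H : Set (GK K)))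

theorem exists_closed {ι : Type*} [Fintype ι] [MeasurableSpace (GK K)] [BorelSpace (GK K)]
    (μ : Measure (GK K)) [IsProbabilityMeasure μ] [μ.IsMulLeftInvariant] [μ.Regular]
    (Z : ι → Set (GK K)) (hZ : ∀ j, IsClosed (Z j)) {δ : ℝ} (hδ : 0 < δ)
    (Good : HeightOneSpectrum (𝓞 K) → Prop) (hG : ∃ᶠ M in atTop, δ ≤ dens Good M)
    (hX : ∀ v, Good v → ∀ σ, IsFrob v σ → ∃ j, σ⁻¹ ∈ Z j) : ∃ j, μ (Z j) ≠ 0 := by
  have h1 := measure_ge_freq μ Good hG (⋃ j, Z j) (isClosed_iUnion_of_finite hZ)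
    (fun v hv σ hσ => Set.mem_iUnion.2 (hX v hv σ hσ))
  by_contra h
  push Not at h
  rw [measure_iUnion_null h] at h1
  exact absurd h1 (not_le.2 (ENNReal.ofReal_pos.2 hδ))

/-- **Positive density, topological version.** -/
theorem pos_top {k : Type*} [Field k] {n : ℕ} {ρ : GK K →* GL (Fin n) k} (hρ : Semisimple ρ)
    (hn : ((n.factorial : ℕ) : k) ≠ 0) (hs : SpanStable ρ) {ι : Type*} [Fintype ι] (c : ι → GK K → k)
    (hcl : ∀ j, IsClosed {g | (ρ g : Matrix (Fin n) (Fin n) k).trace = c j g})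
    (N : Subgroup (GK K)) [N.Normal] (hN : ∀ j x, ∀ ν ∈ N, c j (x * ν) = c j x)
    {δ : ℝ} (hδ : 0 < δ) (Good : HeightOneSpectrum (𝓞 K) → Prop)
    (hG : ∃ᶠ M in atTop, δ ≤ dens Good M)
    (hX : ∀ v, Good v → ∀ σ, IsFrob v σ → ∃ j, (ρ σ⁻¹ : Matrix (Fin n) (Fin n) k).trace = c j σ⁻¹) :
    (ρ '' (N : Set (GK K))).Finite := by
  classical
  letI : MeasurableSpace (GK K) := borel _
  haveI : BorelSpace (GK K) := ⟨rfl⟩
  set μ : Measure (GK K) := Measure.haarMeasure (⊤ : TopologicalSpace.PositiveCompacts (GK K)) with hμ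
  haveI : IsProbabilityMeasure μ := ⟨by
    have := Measure.haarMeasure_self (K₀ := (⊤ : TopologicalSpace.PositiveCompacts (GK K)))
    rw [hμ]
    rwa [TopologicalSpace.PositiveCompacts.coe_top] at this⟩
  obtain ⟨j, hj⟩ := exists_closed μ (fun j => {g | (ρ g : Matrix (Fin n) (Fin n) k).trace = c j g}) hcl hδ
    Good hG hX
  set Z : Set (GK K) := {g | (ρ g : Matrix (Fin n) (Fin n) k).trace = c j g} with hZ
  obtain ⟨U, hU, hUg⟩ := inter_pos μ Z (hcl j) hj (n ^ 2)
  obtain ⟨r, g, B, hr, hg, hB⟩ := exists_dual_in hρ hn (U : Set (GK K)) (hs U hU)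
  have hZ'0 := hUg r hr g hg
  set Z' : Set (GK K) := {x | ∀ i, g i * x ∈ Z} with hZ'
  have hZ'cl : IsClosed Z' := by
    have e : Z' = ⋂ i, (fun x => g i * x) ⁻¹' Z := by
      ext x
      simp [hZ']
    rw [e]
    exact isClosed_iInter fun i => (hcl j).preimage (continuous_const_mul _)
  by_contra hinf
  obtain ⟨b, hb⟩ := ENNReal.exists_nat_mul_gt (a := μ Z') (b := 1) hZ'0 ENNReal.one_ne_top
  obtain ⟨W, hW, hWc⟩ := Set.Infinite.exists_subset_card_eq hinf b
  have h1 : ∀ w : W, ∃ ν ∈ N, ρ ν = w.1 := fun w => hW w.2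
  choose f hf1 hf2 using h1
  have h2 := sum_measure_le μ (fun w : W => (fun x => f w * x) ⁻¹' Z')
    (fun w => (hZ'cl.preimage (continuous_const_mul _)).measurableSet) 1 (fun x => ?_)
  · rw [Finset.sum_congr rfl fun w _ => measure_preimage_mul μ (f w) Z', Finset.sum_const, nsmul_eq_mul,
      Finset.card_univ, Fintype.card_coe, hWc, Nat.cast_one] at h2
    exact absurd h2 (not_le.2 hb)
  · rw [Set.ncard_le_one_iff]
    intro w w' hw hw'
    apply Subtype.ext
    rw [← hf2 w, ← hf2 w']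
    have key : ∀ w : W, x ∈ (fun x => f w * x) ⁻¹' Z' → ∀ i,
        (ρ (g i * (f w * x)) : Matrix (Fin n) (Fin n) k).trace = c j (g i * x) := by
      intro w hw i
      have h3 : (ρ (g i * (f w * x)) : Matrix (Fin n) (Fin n) k).trace = c j (g i * (f w * x)) := hw i
      rw [h3]
      have e : g i * (f w * x) = (g i * x) * (x⁻¹ * f w * x) := by group
      rw [e]
      refine hN _ _ _ ?_
      have := ‹N.Normal›.conj_mem (f w) (hf1 w) x⁻¹
      rwa [inv_inv] at this
    have h4 : ρ (f w * x) = ρ (f w' * x) := by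
      apply Units.ext
      rw [hB, hB]
      refine Finset.sum_congr rfl fun i _ => ?_
      rw [key w hw i, key w' hw' i]
    rw [map_mul, map_mul] at h4
    exact mul_right_cancel h4

/-- **Positive density, algebraic version.** -/
theorem pos_alg {F : Type*} [Field F] [TopologicalSpace F] [IsTopologicalRing F] [T2Space F] {n m : ℕ}
    {ρ : GK K →* GL (Fin n) F} (hρc : Continuous ρ) (hρ : Semisimple ρ)
    (hn : ((n.factorial : ℕ) : F) ≠ 0) (hs : SpanStable ρ) {θ : GK K →* GL (Fin m) F} (hθ : Continuous θ)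
    {ι : Type*} [Fintype ι] (c : ι → GK K → F) (hc : ∀ j, c j ∈ algT θ)
    {δ : ℝ} (hδ : 0 < δ) (Good : HeightOneSpectrum (𝓞 K) → Prop)
    (hG : ∃ᶠ M in atTop, δ ≤ dens Good M)
    (hX : ∀ v, Good v → ∀ σ, IsFrob v σ → ∃ j, (ρ σ⁻¹ : Matrix (Fin n) (Fin n) F).trace = c j σ⁻¹) :
    ∃ H : Subgroup (GK K), IsOpen (H : Set (GK K)) ∧ ∃ φ : Fin n → Fin n → GK K → F, (∀ s t, φ s t ∈ algT θ) ∧
      ∀ g ∈ H, ∀ s t, (ρ g : Matrix (Fin n) (Fin n) F) s t = φ s t g := by
  classical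
  letI : MeasurableSpace (GK K) := borel _
  haveI : BorelSpace (GK K) := ⟨rfl⟩
  set μ : Measure (GK K) := Measure.haarMeasure (⊤ : TopologicalSpace.PositiveCompacts (GK K)) with hμ
  haveI : IsProbabilityMeasure μ := ⟨by
    have := Measure.haarMeasure_self (K₀ := (⊤ : TopologicalSpace.PositiveCompacts (GK K)))
    rw [hμ]
    rwa [TopologicalSpace.PositiveCompacts.coe_top] at this⟩
  set A : Subalgebra F (GK K → F) := algT ρ ⊔ algT θ with hA
  have hρA : algT ρ ≤ A := le_sup_left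
  have hθA : algT θ ≤ A := le_sup_right
  have hAc : A ≤ contAlg (GK K) F := sup_le (algT_cont hρc) (algT_cont hθ)
  haveI hAN : IsNoetherianRing A := by
    have h1 : A.FG := (algT_fg ρ).sup (algT_fg θ)
    haveI : Algebra.FiniteType F A := A.fg_iff_finiteType.1 h1
    exact Algebra.FiniteType.isNoetherianRing F A
  have hcl : ∀ f ∈ A, IsClosed {x | f x = 0} := fun f hf => isClosed_singleton.preimage (hAc hf)
  have htr : ∀ g : GK K, ∀ f ∈ A, (fun x => f (g * x)) ∈ A := by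
    intro g f hf
    have h1 : A ≤ A.comap (compHom fun x => g * x) :=
      sup_le (fun f hf => hρA (left_mem ρ g hf)) (fun f hf => hθA (left_mem θ g hf))
    exact h1 hf
  let d : ι → GK K → F := fun j x => (ρ x : Matrix (Fin n) (Fin n) F).trace - c j x
  have hd : ∀ j, d j ∈ A := fun j => A.sub_mem (hρA (trace_mem ρ)) (hθA (hc j))
  obtain ⟨j, hj⟩ := exists_closed μ (fun j => {g | d j g = 0}) (fun j => hcl _ (hd j)) hδ
    Good hG (fun v hv σ hσ => by
      obtain ⟨j, hj⟩ := hX v hv σ hσ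
      exact ⟨j, sub_eq_zero.2 hj⟩)
  obtain ⟨H0, hH0, x0, hx0⟩ := exists_coset μ A hcl htr {d j} (fun f hf => by
    rw [Set.mem_singleton_iff] at hf
    rw [hf]
    exact hd j) (by
    have e : {x | ∀ f ∈ ({d j} : Set (GK K → F)), f x = 0} = {g | d j g = 0} := by
      ext x
      simp
    rwa [e])
  obtain ⟨r, g, B, hr, hg, hB⟩ := exists_dual_in hρ hn (H0 : Set (GK K)) (hs H0 hH0)
  refine ⟨H0, hH0, fun s t x => ∑ i, ∑ l, c j (g i * (x * x0)) * (B i s l * (ρ x0⁻¹ : Matrix (Fin n) (Fin n) F) l t),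
    fun s t => ?_, fun x hx s t => ?_⟩
  · refine sum_fun_mem _ fun i => sum_fun_mem _ fun l => ?_
    simp only [mul_comm _ (B i s l * (ρ x0⁻¹ : Matrix (Fin n) (Fin n) F) l t)]
    refine smul_fun_mem _ ?_
    exact right_mem θ x0 (f := fun x => c j (g i * x)) (left_mem θ (g i) (hc j))
  · have h1 : (ρ x : Matrix (Fin n) (Fin n) F) = (ρ (x * x0) : Matrix (Fin n) (Fin n) F) * ρ x0⁻¹ := by
      rw [← Units.val_mul, ← map_mul, mul_inv_cancel_right]
    rw [h1, hB (x * x0), Finset.sum_mul, Matrix.sum_apply]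
    refine Finset.sum_congr rfl fun i _ => ?_
    rw [Matrix.smul_mul, Matrix.smul_apply, Matrix.mul_apply, smul_eq_mul, Finset.mul_sum]
    refine Finset.sum_congr rfl fun l _ => ?_
    have h2 := hx0 (g i * x) (H0.mul_mem (hg i) hx) _ rfl
    have h3 : (ρ (g i * x * x0) : Matrix (Fin n) (Fin n) F).trace = c j (g i * x * x0) := sub_eq_zero.1 h2
    rw [← mul_assoc (g i) x x0, h3]

end main

end Pool.Agent.X320.DS
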