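import Pool.Agent.X320.DS.Haar

/-! Existence of Frobenius elements, and sets of places of positive lower density. -/

set_option autoImplicit false
set_option linter.all false

namespace Pool.Agent.X320.DS

open Topology Filter NumberField IsDedekindDomain
open Pool.Agent.W401.Cheb
open Pool.Agent.W528.Ord (dens_mono dens_nonneg dens_or)

variable {K : Type} [Field K] [NumberField K]

/-- a finite set of places has density zero -/
theorem dens_finite (T : Set (HeightOneSpectrum (𝓞 K))) (hT : T.Finite) :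
    Tendsto (dens fun v : HeightOneSpectrum (𝓞 K) => v ∈ T) atTop (𝓝 0) := by
  have h1 : Tendsto (fun N : ℕ => (T.ncard : ℝ) / (Nat.primeCounting N : ℝ)) atTop (𝓝 0) :=
    tendsto_const_nhds.div_atTop (tendsto_natCast_atTop_atTop.comp Nat.tendsto_primeCounting)
  refine squeeze_zero (fun N => dens_nonneg _ _) (fun N => ?_) h1
  unfold dens
  apply div_le_div_of_nonneg_right _ (Nat.cast_nonneg _)
  have h2 : {v : HeightOneSpectrum (𝓞 K) | Ideal.absNorm v.asIdeal ≤ N ∧ v ∈ T} ⊆ T := fun v hv => hv.2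
  exact_mod_cast Set.ncard_le_ncard h2 hT

/-- removing finitely many places does not change the lower density -/
theorem dens_remove {P Q : HeightOneSpectrum (𝓞 K) → Prop} (T : Set (HeightOneSpectrum (𝓞 K)))
    (hT : T.Finite) (h : ∀ v, P v → v ∉ T → Q v) {δ δ' : ℝ} (hδ : δ' < δ)
    (hP : ∀ᶠ N in atTop, δ ≤ dens P N) : ∀ᶠ N in atTop, δ' ≤ dens Q N := by
  have h1 := (dens_finite T hT).eventually (gt_mem_nhds (show (0 : ℝ) < δ - δ' by linarith))
  filter_upwards [hP, h1] with N h2 h3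
  have h4 : dens P N ≤ dens (fun v => Q v ∨ v ∈ T) N := by
    refine dens_mono (fun v hv => ?_) N
    by_cases hvT : v ∈ T
    · exact Or.inr hvT
    · exact Or.inl (h v hv hvT)
  have h5 := dens_or Q (fun v => v ∈ T) N
  linarith

/-- every coset of an open normal subgroup contains the inverse of a Frobenius element at a place outside
a given finite set -/
theorem exists_frob_coset (U : Subgroup (GK K)) [U.Normal] (hU : IsOpen (U : Set (GK K))) (g : GK K)
    (T : Set (HeightOneSpectrum (𝓞 K))) (hT : T.Finite) :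
    ∃ v ∉ T, ∃ σ, IsFrob v σ ∧ (QuotientGroup.mk σ⁻¹ : GK K ⧸ U) = QuotientGroup.mk g := by
  classical
  by_contra hcon
  push Not at hcon
  have hfin : Finite (GK K ⧸ U) := Subgroup.quotient_finite_of_isOpen _ hU
  set m : GK K → GK K ⧸ U := QuotientGroup.mk with hm
  set H : Set (GK K) := {x | ∀ τ : GK K, m (τ * x * τ⁻¹) ≠ m g} with hH
  have hcard : (0 : ℝ) < (Nat.card (GK K ⧸ U) : ℝ) := by exact_mod_cast Nat.card_pos
  set δ : ℝ := 1 - 1 / (2 * (Nat.card (GK K ⧸ U) : ℝ)) with hδ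
  have hδ1 : δ < 1 := by
    rw [hδ]
    have : 0 < 1 / (2 * (Nat.card (GK K ⧸ U) : ℝ)) := by positivity
    linarith
  have hG : ∀ᶠ N in atTop, δ ≤ dens (fun v : HeightOneSpectrum (𝓞 K) => v ∉ T) N := by
    refine dens_remove (P := fun _ : HeightOneSpectrum (𝓞 K) => True) T hT (fun v _ hv => hv)
      (δ := (δ + 1) / 2) (by linarith) ?_
    filter_upwards [(dens_all (K := K)).eventually (lt_mem_nhds (show (δ + 1) / 2 < 1 by linarith))]
      with N hN using hN.le
  have key := cheb_count (fun v : HeightOneSpectrum (𝓞 K) => v ∉ T) hG U hU H ?_ ?_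
  · have h1 : m '' H ⊆ {m g}ᶜ := by
      rintro _ ⟨x, hx, rfl⟩ h
      have h2 := hx 1
      rw [one_mul, inv_one, mul_one] at h2
      exact h2 h
    have h2 := Set.ncard_le_ncard h1 (Set.toFinite _)
    have h3 : ({m g} : Set (GK K ⧸ U)).ncard + ({m g}ᶜ : Set (GK K ⧸ U)).ncard = Nat.card (GK K ⧸ U) :=
      Set.ncard_add_ncard_compl _
    rw [Set.ncard_singleton] at h3
    have h4 : ((m '' H).ncard : ℝ) + 1 ≤ (Nat.card (GK K ⧸ U) : ℝ) := by
      have : (m '' H).ncard + 1 ≤ Nat.card (GK K ⧸ U) := by omega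
      exact_mod_cast this
    have h5 : δ * (Nat.card (GK K ⧸ U) : ℝ) = (Nat.card (GK K ⧸ U) : ℝ) - 1 / 2 := by
      rw [hδ]
      field_simp
    linarith
  · intro σ hσ τ ρ
    have h := hσ (ρ * τ)
    have e : ρ * τ * σ * (ρ * τ)⁻¹ = ρ * (τ * σ * τ⁻¹) * ρ⁻¹ := by group
    rwa [e] at h
  · intro v hv σ hσ τ
    have h1 : IsFrob v (τ * σ * τ⁻¹) := (Pool.Agent.W401.Frob.main K).2.2 v σ τ hσ
    have h2 := hcon v hv _ h1
    have e : (τ * σ * τ⁻¹)⁻¹ = τ * σ⁻¹ * τ⁻¹ := by group
    rwa [e] at h2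

end Pool.Agent.X320.DS
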