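import Pool.Agent.X320.DS.Trace

/-! The dual basis: a semisimple representation is a linear combination of its traces. -/

set_option autoImplicit false
set_option linter.all false

namespace Pool.Agent.X320.DS

open Matrix Module

variable {Γ : Type*} [Group Γ] {k : Type*} [Field k] {n : ℕ}

/-- There are `r ≤ n ^ 2` elements `g_i` and matrices `B_i` such that `ρ x` is the sum of the
`tr (ρ (g_i x)) B_i`. -/
theorem exists_dual {ρ : Γ →* GL (Fin n) k} (hρ : Semisimple ρ) (hn : ((n.factorial : ℕ) : k) ≠ 0) :
    ∃ (r : ℕ) (g : Fin r → Γ) (B : Fin r → Matrix (Fin n) (Fin n) k), r ≤ n ^ 2 ∧ ∀ x : Γ,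
      (ρ x : Matrix (Fin n) (Fin n) k) = ∑ i, (ρ (g i * x) : Matrix (Fin n) (Fin n) k).trace • B i := by
  classical
  obtain ⟨f, hf1, hf2, hf3⟩ := Submodule.exists_fun_fin_finrank_span_eq k (Set.range (toEnd ρ))
  choose g hg using hf1
  let T : Subalgebra.toSubmodule (alg ρ) →ₗ[k] (Fin (finrank k (Submodule.span k (Set.range (toEnd ρ)))) → k) :=
    { toFun := fun a i => LinearMap.trace k (Fin n → k) (f i * a.1)
      map_add' := fun a b => by
        funext i
        show LinearMap.trace k (Fin n → k) (f i * (a.1 + b.1)) = _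
        rw [mul_add, map_add]
        rfl
      map_smul' := fun c a => by
        funext i
        show LinearMap.trace k (Fin n → k) (f i * (c • a.1)) = _
        rw [mul_smul_comm, map_smul]
        rfl }
  have hT : LinearMap.ker T = ⊥ := by
    rw [LinearMap.ker_eq_bot']
    intro x hx
    apply Subtype.ext
    refine trace_nondeg hρ hn x.2 fun a ha => ?_
    have ha' : a ∈ Submodule.span k (Set.range f) := by
      rw [hf2, ← alg_eq_span]
      exact ha
    refine Submodule.span_induction (p := fun a _ => LinearMap.trace k (Fin n → k) (a * x.1) = 0) ?_ ?_ ?_ ?_ ha'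
    · rintro _ ⟨i, rfl⟩
      exact congrFun hx i
    · simp
    · intro a b _ _ ha hb
      rw [add_mul, map_add, ha, hb, add_zero]
    · intro c a _ ha
      rw [smul_mul_assoc, map_smul, ha, smul_zero]
  obtain ⟨L, hL⟩ : ∃ L : (Fin (finrank k (Submodule.span k (Set.range (toEnd ρ)))) → k) →ₗ[k]
      Subalgebra.toSubmodule (alg ρ), L.comp T = LinearMap.id := by
    exact @LinearMap.exists_leftInverse_of_injective k (Subalgebra.toSubmodule (alg ρ))
      (Fin (finrank k (Submodule.span k (Set.range (toEnd ρ)))) → k) _ _ _ _ _ T hT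
  refine ⟨_, g, fun i => LinearMap.toMatrix' (L (Pi.single i 1)).1, ?_, fun x => ?_⟩
  · have h1 := Submodule.finrank_le (Submodule.span k (Set.range (toEnd ρ)))
    have h2 : finrank k (Module.End k (Fin n → k)) = n ^ 2 := by
      rw [Module.finrank_linearMap, Module.finrank_fin_fun, sq]
    rwa [h2] at h1
  · have hx : toEnd ρ x ∈ Subalgebra.toSubmodule (alg ρ) := Algebra.subset_adjoin ⟨x, rfl⟩
    have h1 : L (T ⟨toEnd ρ x, hx⟩) = ⟨toEnd ρ x, hx⟩ := LinearMap.congr_fun hL _
    have h2 : T ⟨toEnd ρ x, hx⟩ = ∑ i, (ρ (g i * x) : Matrix (Fin n) (Fin n) k).trace •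
        (Pi.single i 1 : Fin (finrank k (Submodule.span k (Set.range (toEnd ρ)))) → k) := by
      funext j
      rw [Finset.sum_apply]
      simp only [Pi.smul_apply, smul_eq_mul, Pi.single_apply, mul_ite, mul_one, mul_zero, Finset.sum_ite_eq,
        Finset.mem_univ, if_true]
      show LinearMap.trace k (Fin n → k) (f j * toEnd ρ x) = _
      rw [← hg j, ← map_mul]
      exact Matrix.trace_toLin'_eq _
    rw [h2, map_sum] at h1
    simp only [map_smul] at h1
    have h3 := congrArg (fun a : Subalgebra.toSubmodule (alg ρ) => LinearMap.toMatrix' a.1) h1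
    simp only [Submodule.coe_sum, Submodule.coe_smul, map_sum, map_smul] at h3
    rw [h3]
    exact (LinearMap.toMatrix'_toLin' _).symm

end Pool.Agent.X320.DS
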