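import Pool.Agent.X320.DS.Haar
import Pool.Agent.X320.DS.Dual

/-! Relative version of the theorem on few traces. -/

set_option autoImplicit false
set_option linter.all false

namespace Pool.Agent.X320.DS

open MeasureTheory Topology Filter NumberField IsDedekindDomain
open Pool.Agent.W401.Cheb
open Pool.Agent.W528.Ord (dens_mono dens_nonneg chebK measure_union measure_U)
open Pool.Agent.W401.Frob (tr tr_max tr_comap frob_conj)
open scoped Pointwise

variable {K : Type} [Field K] [NumberField K]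

theorem isFrob_conj {v : HeightOneSpectrum (𝓞 K)} {σ : GK K} (h : IsFrob v σ) (τ : GK K) :
    IsFrob v (τ * σ * τ⁻¹) := by
  obtain ⟨Q, h1, h2, h3⟩ := h
  exact ⟨tr τ Q, tr_max τ Q h1, (tr_comap τ Q).trans h2, frob_conj v σ τ Q h3⟩

section meas

variable [MeasurableSpace (GK K)] [BorelSpace (GK K)]

/-- a closed set which contains the inverses of all Frobenius elements at a set of places of lower density at
least `δ` has measure at least `δ` -/
theorem measure_ge (μ : Measure (GK K)) [IsProbabilityMeasure μ] [μ.IsMulLeftInvariant] [μ.Regular]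
    {δ : ℝ} (Good : HeightOneSpectrum (𝓞 K) → Prop)
    (hG : ∀ᶠ N in atTop, δ ≤ dens Good N) (H : Set (GK K)) (hH : IsClosed H)
    (hX : ∀ v, Good v → ∀ σ, IsFrob v σ → σ⁻¹ ∈ H) : ENNReal.ofReal δ ≤ μ H := by
  set H' : Set (GK K) := {g | ∀ τ : GK K, τ * g * τ⁻¹ ∈ H} with hH'
  have hsub : H' ⊆ H := fun g hg => by
    have := hg 1
    rwa [one_mul, inv_one, mul_one] at this
  have hcl : IsClosed H' := by
    have e : H' = ⋂ τ : GK K, (fun g => τ * g * τ⁻¹) ⁻¹' H := by
      ext g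
      simp [hH']
    rw [e]
    exact isClosed_iInter fun τ => hH.preimage (by fun_prop)
  refine le_trans (measure_closed μ H' hcl δ fun U hUn hU => ?_) (measure_mono hsub)
  haveI := hUn
  refine cheb_count Good hG U hU H' (fun σ hσ τ => ?_) fun v hv σ hσ => ?_
  · intro τ'
    have h1 := hσ (τ' * τ)
    have e : τ' * (τ * σ * τ⁻¹) * τ'⁻¹ = τ' * τ * σ * (τ' * τ)⁻¹ := by group
    rw [e]
    exact h1
  · intro τ
    have h1 := hX v hv _ (isFrob_conj hσ τ)
    have e : (τ * σ * τ⁻¹)⁻¹ = τ * σ⁻¹ * τ⁻¹ := by group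
    rwa [e] at h1

theorem delta_le_one {δ : ℝ} {Good : HeightOneSpectrum (𝓞 K) → Prop}
    (hG : ∀ᶠ N in atTop, δ ≤ dens Good N) : δ ≤ 1 := by
  refine le_of_tendsto_of_tendsto tendsto_const_nhds (dens_all (K := K)) (hG.mono fun N hN => hN.trans ?_)
  exact dens_mono (P := Good) (Q := fun _ : HeightOneSpectrum (𝓞 K) => True) (fun _ _ => trivial) N

/-- the set of the `x` such that all `g_i x` are in `H` is large -/
theorem measure_inter (μ : Measure (GK K)) [IsProbabilityMeasure μ] [μ.IsMulLeftInvariant] [μ.Regular]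
    {δ : ℝ} (hδ0 : 0 ≤ δ) (Good : HeightOneSpectrum (𝓞 K) → Prop)
    (hG : ∀ᶠ N in atTop, δ ≤ dens Good N) (H : Set (GK K)) (hH : IsClosed H)
    (hX : ∀ v, Good v → ∀ σ, IsFrob v σ → σ⁻¹ ∈ H) {r : ℕ} (g : Fin r → GK K) :
    IsClosed (⋂ i, (fun x => g i * x) ⁻¹' H) ∧
      1 - (1 - δ) * r ≤ (μ (⋂ i, (fun x => g i * x) ⁻¹' H)).toReal := by
  have hδ1 : δ ≤ 1 := delta_le_one hG
  have hHμ := measure_ge μ Good hG H hH hX
  have hZcl : IsClosed (⋂ i, (fun x => g i * x) ⁻¹' H) :=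
    isClosed_iInter fun i => hH.preimage (continuous_const_mul _)
  refine ⟨hZcl, ?_⟩
  set Z : Set (GK K) := ⋂ i, (fun x => g i * x) ⁻¹' H with hZ
  have hZc : μ Zᶜ ≤ r * ENNReal.ofReal (1 - δ) := by
    have e : Zᶜ = ⋃ i, ((fun x => g i * x) ⁻¹' H)ᶜ := by rw [hZ, Set.compl_iInter]
    rw [e]
    refine (measure_iUnion_fintype_le _ _).trans ?_
    have h1 : ∀ i, μ ((fun x => g i * x) ⁻¹' H)ᶜ ≤ ENNReal.ofReal (1 - δ) := by
      intro i
      rw [← Set.preimage_compl, measure_preimage_mul, prob_compl_eq_one_sub hH.measurableSet,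
        ENNReal.ofReal_sub _ hδ0, ENNReal.ofReal_one]
      exact tsub_le_tsub_left hHμ 1
    refine (Finset.sum_le_sum fun i _ => h1 i).trans ?_
    rw [Finset.sum_const, Finset.card_univ, Fintype.card_fin, nsmul_eq_mul]
  have h1 := (ENNReal.toReal_le_toReal (measure_ne_top _ _) (ENNReal.mul_ne_top (ENNReal.natCast_ne_top _)
    ENNReal.ofReal_ne_top)).2 hZc
  rw [prob_compl_eq_one_sub hZcl.measurableSet, ENNReal.toReal_sub_of_le prob_le_one ENNReal.one_ne_top,
    ENNReal.toReal_mul, ENNReal.toReal_natCast, ENNReal.toReal_ofReal (by linarith), ENNReal.toReal_one] at h1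
  linarith

end meas

/-- counting with multiplicities -/
theorem sum_measure_le {X : Type*} [MeasurableSpace X] (μ : Measure X) [IsProbabilityMeasure μ] {s : Type*}
    [Fintype s] (Z : s → Set X) (hZ : ∀ k, MeasurableSet (Z k)) (A : ℕ)
    (h : ∀ x, {k | x ∈ Z k}.ncard ≤ A) : ∑ k, μ (Z k) ≤ (A : ENNReal) := by
  classical
  have h1 : ∀ k, μ (Z k) = ∫⁻ x, (Z k).indicator (fun _ => (1 : ENNReal)) x ∂μ := fun k => by
    rw [lintegral_indicator (hZ k)]
    simp
  rw [Finset.sum_congr rfl fun k _ => h1 k, ← lintegral_finsetSum _ (fun k _ =>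
    (measurable_const.indicator (hZ k)))]
  calc ∫⁻ x, ∑ k, (Z k).indicator (fun _ => (1 : ENNReal)) x ∂μ ≤ ∫⁻ _, (A : ENNReal) ∂μ := by
        refine lintegral_mono fun x => ?_
        have h2 : ∑ k, (Z k).indicator (fun _ => (1 : ENNReal)) x = (({k | x ∈ Z k}.ncard : ℕ) : ENNReal) := by
          rw [Set.ncard_eq_toFinset_card']
          simp only [Set.indicator_apply]
          rw [Finset.sum_boole]
          congr 2
          ext k
          simp
        rw [h2]
        exact Nat.cast_le.2 (h x)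
    _ = A := by simp

variable {k : Type*} [Field k] {n : ℕ}

/-- **Few traces, relative version.** -/
theorem rel {ρ : GK K →* Matrix.GeneralLinearGroup (Fin n) k} (hρ : Semisimple ρ)
    (hn : ((n.factorial : ℕ) : k) ≠ 0) {ι : Type*} [Fintype ι] (c : ι → GK K → k)
    (hcl : ∀ j, IsClosed {g | (ρ g : Matrix (Fin n) (Fin n) k).trace = c j g})
    (N : Subgroup (GK K)) [N.Normal] (hN : ∀ j x, ∀ ν ∈ N, c j (x * ν) = c j x)
    {δ : ℝ} (hδ : (1 - δ) * n ^ 2 < 1) (Good : HeightOneSpectrum (𝓞 K) → Prop)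
    (hG : ∀ᶠ M in atTop, δ ≤ dens Good M)
    (hX : ∀ v, Good v → ∀ σ, IsFrob v σ → ∃ j, (ρ σ⁻¹ : Matrix (Fin n) (Fin n) k).trace = c j σ⁻¹) :
    (ρ '' (N : Set (GK K))).Finite ∧
      (((ρ '' (N : Set (GK K))).ncard : ℝ) * (1 - (1 - δ) * n ^ 2) ≤ (Fintype.card ι : ℝ) ^ (n ^ 2)) := by
  classical
  letI : MeasurableSpace (GK K) := borel _
  haveI : BorelSpace (GK K) := ⟨rfl⟩
  set μ : Measure (GK K) := Measure.haarMeasure (⊤ : TopologicalSpace.PositiveCompacts (GK K)) with hμ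
  haveI : IsProbabilityMeasure μ := ⟨by
    have := Measure.haarMeasure_self (K₀ := (⊤ : TopologicalSpace.PositiveCompacts (GK K)))
    rw [hμ]
    rwa [TopologicalSpace.PositiveCompacts.coe_top] at this⟩
  rcases Nat.eq_zero_or_pos n with hn0 | hn0
  · subst hn0
    have h1 : (ρ '' (N : Set (GK K))) ⊆ {1} := by
      rintro _ ⟨x, _, rfl⟩
      exact Subsingleton.elim _ _
    have h2 := Set.ncard_le_ncard h1 (Set.finite_singleton _)
    rw [Set.ncard_singleton] at h2
    refine ⟨(Set.finite_singleton _).subset h1, ?_⟩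
    have h3 : ((ρ '' (N : Set (GK K))).ncard : ℝ) ≤ 1 := by exact_mod_cast h2
    simpa using h3
  have hn1 : (1 : ℝ) ≤ (n : ℝ) := by exact_mod_cast hn0
  have hn2 : (1 : ℝ) ≤ (n : ℝ) ^ 2 := by nlinarith
  have hδ1 : δ ≤ 1 := delta_le_one hG
  have hδ0 : 0 < δ := by nlinarith
  set H : Set (GK K) := {g | ∃ j, (ρ g : Matrix (Fin n) (Fin n) k).trace = c j g} with hH
  have hHcl : IsClosed H := by
    have e : H = ⋃ j, {g | (ρ g : Matrix (Fin n) (Fin n) k).trace = c j g} := by
      ext g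
      simp [hH]
    rw [e]
    exact isClosed_iUnion_of_finite hcl
  have hHμ := measure_ge μ Good hG H hHcl hX
  have hι : 1 ≤ Fintype.card ι := by
    rw [Nat.one_le_iff_ne_zero]
    intro h0
    have := Fintype.card_eq_zero_iff.1 h0
    have e : H = ∅ := by
      ext g
      simp [hH]
    rw [e, measure_empty] at hHμ
    have := ENNReal.ofReal_pos.2 hδ0
    exact absurd hHμ (not_le.2 this)
  obtain ⟨r, g, hr, hg⟩ := exists_basis hρ hn
  obtain ⟨hZcl, hZμ⟩ := measure_inter μ hδ0.le Good hG H hHcl hX g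
  set Z : Set (GK K) := ⋂ i, (fun x => g i * x) ⁻¹' H with hZ
  have hrn : (r : ℝ) ≤ (n : ℝ) ^ 2 := by exact_mod_cast hr
  have hη : 1 - (1 - δ) * n ^ 2 ≤ (μ Z).toReal := by nlinarith
  -- the main estimate
  have key : ∀ T : Finset (GK K), (∀ ν ∈ T, ν ∈ N) → (∀ ν ∈ T, ∀ ν' ∈ T, ρ ν = ρ ν' → ν = ν') →
      (T.card : ℝ) * (1 - (1 - δ) * n ^ 2) ≤ (Fintype.card ι : ℝ) ^ (n ^ 2) := by
    intro T hTN hTinj
    have h1 := sum_measure_le μ (fun ν : T => (fun x => ν.1 * x) ⁻¹' Z)
      (fun ν => (hZcl.preimage (continuous_const_mul _)).measurableSet) (Fintype.card ι ^ r) (fun x => ?_)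
    · have h2 : ∑ ν : T, μ ((fun x => ν.1 * x) ⁻¹' Z) = (T.card : ENNReal) * μ Z := by
        rw [Finset.sum_congr rfl fun ν _ => measure_preimage_mul μ ν.1 Z, Finset.sum_const, nsmul_eq_mul,
          Finset.card_univ, Fintype.card_coe]
      rw [h2] at h1
      have h3 := (ENNReal.toReal_le_toReal (ENNReal.mul_ne_top (ENNReal.natCast_ne_top _)
        (measure_ne_top _ _)) (ENNReal.natCast_ne_top _)).2 h1
      rw [ENNReal.toReal_mul, ENNReal.toReal_natCast, ENNReal.toReal_natCast] at h3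
      push_cast at h3
      calc (T.card : ℝ) * (1 - (1 - δ) * n ^ 2) ≤ (T.card : ℝ) * (μ Z).toReal :=
            mul_le_mul_of_nonneg_left hη (Nat.cast_nonneg _)
        _ ≤ (Fintype.card ι : ℝ) ^ r := h3
        _ ≤ (Fintype.card ι : ℝ) ^ (n ^ 2) := pow_le_pow_right₀ (by exact_mod_cast hι) hr
    · -- at most `card ι ^ r` of the elements `ν x` lie in `Z`
      have h4 : ∀ ν : T, x ∈ (fun x => ν.1 * x) ⁻¹' Z → ∃ y : Fin r → ι, ∀ i,
          (ρ (g i * (ν.1 * x)) : Matrix (Fin n) (Fin n) k).trace = c (y i) (g i * x) := by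
        intro ν hν
        rw [Set.mem_preimage, hZ, Set.mem_iInter] at hν
        choose y hy using hν
        refine ⟨y, fun i => (hy i).trans ?_⟩
        have e : g i * (ν.1 * x) = (g i * x) * (x⁻¹ * ν.1 * x) := by group
        show c (y i) (g i * (ν.1 * x)) = _
        rw [e]
        refine hN _ _ _ ?_
        have := ‹N.Normal›.conj_mem ν.1 (hTN _ ν.2) x⁻¹
        rwa [inv_inv] at this
      have hf : ∃ y : T → Fin r → ι, ∀ ν : T, x ∈ (fun x => ν.1 * x) ⁻¹' Z → ∀ i,
          (ρ (g i * (ν.1 * x)) : Matrix (Fin n) (Fin n) k).trace = c (y ν i) (g i * x) := by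
        have : ∀ ν : T, ∃ y : Fin r → ι, x ∈ (fun x => ν.1 * x) ⁻¹' Z → ∀ i,
            (ρ (g i * (ν.1 * x)) : Matrix (Fin n) (Fin n) k).trace = c (y i) (g i * x) := by
          intro ν
          by_cases h : x ∈ (fun x => ν.1 * x) ⁻¹' Z
          · obtain ⟨y, hy⟩ := h4 ν h
            exact ⟨y, fun _ => hy⟩
          · have : Nonempty ι := Fintype.card_pos_iff.1 hι
            exact ⟨fun _ => Classical.arbitrary ι, fun h' => absurd h' h⟩
        choose y hy using this
        exact ⟨y, hy⟩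
      obtain ⟨y, hy⟩ := hf
      have h5 : {ν : T | x ∈ (fun x => ν.1 * x) ⁻¹' Z}.ncard ≤ (Set.univ : Set (Fin r → ι)).ncard := by
        refine Set.ncard_le_ncard_of_injOn y (fun _ _ => Set.mem_univ _) ?_ (Set.toFinite _)
        intro ν hν ν' hν' h
        apply Subtype.ext
        refine hTinj _ ν.2 _ ν'.2 ?_
        have h6 := hg (ν.1 * x) (ν'.1 * x) fun i => by
          rw [hy ν hν i, hy ν' hν' i, h]
        rw [map_mul, map_mul] at h6
        exact mul_right_cancel h6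
      rwa [Set.ncard_univ, Nat.card_eq_fintype_card, Fintype.card_fun, Fintype.card_fin] at h5
  -- conclusion
  have hpos : 0 < 1 - (1 - δ) * n ^ 2 := by linarith
  have key2 : ∀ W : Finset (Matrix.GeneralLinearGroup (Fin n) k), (↑W ⊆ ρ '' (N : Set (GK K))) →
      (W.card : ℝ) * (1 - (1 - δ) * n ^ 2) ≤ (Fintype.card ι : ℝ) ^ (n ^ 2) := by
    intro W hW
    have h1 : ∀ w : W, ∃ ν ∈ N, ρ ν = w.1 := fun w => hW w.2
    choose f hf1 hf2 using h1
    have hinj : Function.Injective f := fun a b hab => by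
      apply Subtype.ext
      rw [← hf2, ← hf2, hab]
    have h2 := key (Finset.univ.map ⟨f, hinj⟩) (by
      intro ν hν
      obtain ⟨w, _, rfl⟩ := Finset.mem_map.1 hν
      exact hf1 w) (by
      intro ν hν ν' hν' h
      obtain ⟨w, _, rfl⟩ := Finset.mem_map.1 hν
      obtain ⟨w', _, rfl⟩ := Finset.mem_map.1 hν'
      have h3 : w = w' := Subtype.ext (by rw [← hf2 w, ← hf2 w']; exact h)
      rw [h3])
    rwa [Finset.card_map, Finset.card_univ, Fintype.card_coe] at h2
  have hfin : (ρ '' (N : Set (GK K))).Finite := by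
    by_contra hinf
    obtain ⟨B, hB⟩ := exists_nat_gt ((Fintype.card ι : ℝ) ^ (n ^ 2) / (1 - (1 - δ) * n ^ 2))
    obtain ⟨W, hW, hWc⟩ := Set.Infinite.exists_subset_card_eq hinf B
    have h1 := key2 W hW
    rw [hWc, ← le_div_iff₀ hpos] at h1
    linarith
  refine ⟨hfin, ?_⟩
  have h1 := key2 hfin.toFinset (by simp)
  rwa [← Set.ncard_eq_toFinset_card _ hfin] at h1

end Pool.Agent.X320.DS
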