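import Mathlib

/-! Algebraic number theory and matrices of finite order, for the theorem of Deligne and Serre. -/

set_option autoImplicit false
set_option linter.all false

namespace Pool.Agent.X320.DS

open NumberField Polynomial

section

variable {E : Type} [Field E] [NumberField E]

/-- a nonzero algebraic integer stays nonzero modulo all large primes -/
theorem ne_zero_large {r : 𝓞 E} (hr : r ≠ 0) : ∃ L : ℕ, ∀ ℓ : ℕ, L < ℓ → ∀ (k : Type) [Field k] [CharP k ℓ]
    (φ : 𝓞 E →+* k), φ r ≠ 0 := by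
  refine ⟨Ideal.absNorm (Ideal.span {r}), fun ℓ hℓ k _ _ φ h => ?_⟩
  have h1 : ((Ideal.absNorm (Ideal.span {r}) : ℕ) : 𝓞 E) ∈ Ideal.span {r} := Ideal.absNorm_mem _
  obtain ⟨c, hc⟩ := Ideal.mem_span_singleton.1 h1
  have h2 : ((Ideal.absNorm (Ideal.span {r}) : ℕ) : k) = 0 := by
    rw [← map_natCast φ, hc, map_mul, h, zero_mul]
  have h3 := (CharP.cast_eq_zero_iff k ℓ _).1 h2
  have h4 : Ideal.absNorm (Ideal.span {r}) ≠ 0 := by
    rw [Ne, Ideal.absNorm_eq_zero_iff, Ideal.span_singleton_eq_bot]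
    exact hr
  have := Nat.le_of_dvd (Nat.pos_of_ne_zero h4) h3
  omega

/-- polynomials in a finite set are not congruent modulo large primes -/
theorem injective_large (Y : Set (𝓞 E)[X]) (hY : Y.Finite) : ∃ L : ℕ, ∀ ℓ : ℕ, L < ℓ → ∀ (k : Type) [Field k]
    [CharP k ℓ] (φ : 𝓞 E →+* k), ∀ P ∈ Y, ∀ Q ∈ Y, P.map φ = Q.map φ → P = Q := by
  classical
  have h : ∀ x : (𝓞 E)[X] × (𝓞 E)[X], ∃ L : ℕ, ∀ ℓ : ℕ, L < ℓ → ∀ (k : Type) [Field k] [CharP k ℓ]
      (φ : 𝓞 E →+* k), x.1.map φ = x.2.map φ → x.1 = x.2 := by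
    intro x
    by_cases hx : x.1 = x.2
    · exact ⟨0, fun _ _ _ _ _ _ _ => hx⟩
    · obtain ⟨i, hi⟩ : ∃ i, (x.1 - x.2).coeff i ≠ 0 := by
        by_contra h
        push Not at h
        exact hx (sub_eq_zero.1 (Polynomial.ext (by simpa using h)))
      obtain ⟨L, hL⟩ := ne_zero_large hi
      refine ⟨L, fun ℓ hℓ k _ _ φ h => ?_⟩
      exfalso
      apply hL ℓ hℓ k φ
      have h2 := congrArg (fun p => p.coeff i) h
      simp only [coeff_map] at h2
      rw [coeff_sub, map_sub, h2, sub_self]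
  choose L hL using h
  obtain ⟨B, hB⟩ := ((hY.prod hY).image L).bddAbove
  refine ⟨B, fun ℓ hℓ k _ _ φ P hP Q hQ hPQ => ?_⟩
  refine hL (P, Q) ℓ (lt_of_le_of_lt (hB ⟨(P, Q), ⟨hP, hQ⟩, rfl⟩) hℓ) k φ hPQ

/-- the monic divisors of a polynomial -/
theorem finite_divisors {D : (𝓞 E)[X]} (hD : D ≠ 0) : {P : (𝓞 E)[X] | P.Monic ∧ P ∣ D}.Finite := by
  classical
  let f : 𝓞 E →+* AlgebraicClosure E := (algebraMap E (AlgebraicClosure E)).comp (algebraMap (𝓞 E) E)
  have hf : Function.Injective f :=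
    (algebraMap E (AlgebraicClosure E)).injective.comp RingOfIntegers.coe_injective
  have hinj : Function.Injective (Polynomial.map f) := Polynomial.map_injective f hf
  refine Set.Finite.of_finite_image (f := Polynomial.map f) ?_ hinj.injOn
  refine ((Set.finite_Iic (D.map f).roots).image
    (fun s => (s.map fun a => X - C a).prod)).subset ?_
  rintro _ ⟨P, ⟨hP, hPD⟩, rfl⟩
  refine ⟨(P.map f).roots, ?_, ?_⟩
  · exact Multiset.le_iff_exists_add.2 (by
      obtain ⟨Q, hQ⟩ := hPD
      have h1 : D.map f ≠ 0 := by rwa [Ne, Polynomial.map_eq_zero_iff hf]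
      rw [hQ, Polynomial.map_mul] at h1 ⊢
      rw [Polynomial.roots_mul h1]
      exact ⟨_, rfl⟩)
  · exact (IsAlgClosed.splits (P.map f)).eq_prod_roots_of_monic (hP.map f) |>.symm

/-- if `P` divides `D` modulo infinitely many primes then it divides `D` -/
theorem dvd_of_infinite {P D : (𝓞 E)[X]} (hP : P.Monic)
    (h : ∀ L : ℕ, ∃ ℓ : ℕ, L < ℓ ∧ ∃ (k : Type) (_ : Field k) (_ : CharP k ℓ) (φ : 𝓞 E →+* k),
      P.map φ ∣ D.map φ) : P ∣ D := by
  rw [← modByMonic_eq_zero_iff_dvd hP]
  by_contra hne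
  obtain ⟨i, hi⟩ : ∃ i, (D %ₘ P).coeff i ≠ 0 := by
    by_contra h
    push Not at h
    exact hne (Polynomial.ext (by simpa using h))
  obtain ⟨L, hL⟩ := ne_zero_large hi
  obtain ⟨ℓ, hℓ, k, _, _, φ, hd⟩ := h L
  apply hL ℓ hℓ k φ
  rw [← coeff_map, map_modByMonic _ hP, (modByMonic_eq_zero_iff_dvd (hP.map φ)).2 hd, coeff_zero]

end

section

variable {k : Type*} [Field k] {n : ℕ}

/-- the characteristic polynomial of a matrix of finite order -/
theorem charpoly_dvd {M : Matrix (Fin n) (Fin n) k} {m : ℕ} (hM : M ^ m = 1) :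
    M.charpoly ∣ (X ^ m - 1) ^ n := by
  classical
  let f := algebraMap k (AlgebraicClosure k)
  rw [← Polynomial.map_dvd_map' f, ← Matrix.charpoly_map]
  set M' := M.map f with hM'
  have hM2 : M' ^ m = 1 := by
    rw [hM', ← RingHom.mapMatrix_apply, ← map_pow, hM, map_one]
  have hsp := (IsAlgClosed.splits M'.charpoly).eq_prod_roots_of_monic (Matrix.charpoly_monic M')
  have hcard : Multiset.card M'.charpoly.roots = n := by
    rw [← Splits.natDegree_eq_card_roots (IsAlgClosed.splits M'.charpoly), Matrix.charpoly_natDegree_eq_dim,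
      Fintype.card_fin]
  have hroot : ∀ a ∈ M'.charpoly.roots, X - C a ∣ ((X ^ m - 1 : k[X]).map f) := by
    intro a ha
    have h1 : IsRoot M'.charpoly a := (Polynomial.mem_roots'.1 ha).2
    rcases n.eq_zero_or_pos with hn | hn
    · subst hn
      rw [Multiset.card_eq_zero] at hcard
      rw [hcard] at ha
      exact absurd ha (Multiset.notMem_zero _)
    haveI : Nonempty (Fin n) := ⟨⟨0, hn⟩⟩
    have h2 : a ∈ spectrum (AlgebraicClosure k) M' := Matrix.mem_spectrum_iff_isRoot_charpoly.2 h1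
    have h3 := spectrum.pow_mem_pow M' m h2
    rw [hM2, spectrum.one_eq] at h3
    rw [Polynomial.dvd_iff_isRoot]
    simp only [Polynomial.map_sub, Polynomial.map_pow, Polynomial.map_X, Polynomial.map_one, IsRoot.def,
      eval_sub, eval_pow, eval_X, eval_one]
    rw [Set.mem_singleton_iff] at h3
    rw [h3, sub_self]
  rw [hsp, Polynomial.map_pow]
  have h4 : ∀ s : Multiset (AlgebraicClosure k), (∀ a ∈ s, X - C a ∣ ((X ^ m - 1 : k[X]).map f)) →
      (s.map fun a => X - C a).prod ∣ ((X ^ m - 1 : k[X]).map f) ^ Multiset.card s := by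
    intro s
    induction s using Multiset.induction_on with
    | empty => simp
    | cons a s ih =>
      intro h
      rw [Multiset.map_cons, Multiset.prod_cons, Multiset.card_cons, pow_succ']
      exact mul_dvd_mul (h a (Multiset.mem_cons_self a s)) (ih fun b hb => h b (Multiset.mem_cons_of_mem hb))
  have h5 := h4 _ hroot
  rwa [hcard] at h5

/-- a unipotent matrix whose order is not divisible by the characteristic is the identity -/
theorem eq_one_of_unipotent {M : Matrix (Fin n) (Fin n) k} {m : ℕ} (hM : M ^ m = 1) (hm : (m : k) ≠ 0)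
    (hc : M.charpoly = (X - 1) ^ n) : M = 1 := by
  have h1 : (M - 1) ^ n = 0 := by
    have := Matrix.aeval_self_charpoly M
    rwa [hc, map_pow, map_sub, aeval_X, map_one] at this
  have hnil : IsNilpotent (M - 1) := ⟨n, h1⟩
  -- `M ^ m - 1 = (M - 1) (1 + M + ... )`
  have h2 : (∑ i ∈ Finset.range m, M ^ i) * (M - 1) = 0 := by
    rw [geom_sum_mul, hM, sub_self]
  have h3 : IsUnit (∑ i ∈ Finset.range m, M ^ i) := by
    have h4 : ∑ i ∈ Finset.range m, M ^ i = (m : Matrix (Fin n) (Fin n) k) +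
        ∑ i ∈ Finset.range m, (M ^ i - 1) := by
      rw [Finset.sum_sub_distrib, Finset.sum_const, Finset.card_range, nsmul_one]
      abel
    have h5 : IsUnit (m : Matrix (Fin n) (Fin n) k) := by
      have h6 : (m : Matrix (Fin n) (Fin n) k) = algebraMap k _ (m : k) := by
        rw [map_natCast]
      rw [h6]
      exact (isUnit_iff_ne_zero.2 hm).map _
    have h6 : ∑ i ∈ Finset.range m, (M ^ i - 1) =
        (∑ i ∈ Finset.range m, ∑ j ∈ Finset.range i, M ^ j) * (M - 1) := by
      rw [Finset.sum_mul]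
      exact Finset.sum_congr rfl fun i _ => (geom_sum_mul M i).symm
    have hcomm : Commute (∑ i ∈ Finset.range m, ∑ j ∈ Finset.range i, M ^ j) (M - 1) := by
      refine Commute.sum_left _ _ _ fun i _ => Commute.sum_left _ _ _ fun j _ => ?_
      exact (Commute.pow_self M j).sub_right (Commute.one_right _)
    have h7 : IsNilpotent (∑ i ∈ Finset.range m, (M ^ i - 1)) := by
      rw [h6]
      exact hcomm.isNilpotent_mul_left hnil
    rw [h4]
    exact h7.isUnit_add_left_of_commute h5 (Nat.cast_commute m _).symm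
  have h8 := h3.mul_right_eq_zero.1 h2
  exact sub_eq_zero.1 h8

end

end Pool.Agent.X320.DS
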