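import Mathlib

/-! Products of fields modulo a maximal ideal, and transfer of representations of finite groups between
fields. -/

set_option autoImplicit false
set_option linter.all false

namespace Pool.Agent.X320.DS

open Polynomial

section transfer

variable {E F Ω : Type*} [Field E] [Field F] [Algebra E F] [Field Ω] [Algebra E Ω] [IsAlgClosed Ω]

theorem exists_hom_field (L : Type*) [Field L] [Algebra E L] [Algebra.FiniteType E L] :
    Nonempty (L →ₐ[E] Ω) := by
  haveI : Module.Finite E L := finite_of_finite_type_of_isJacobsonRing E L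
  haveI : Algebra.IsAlgebraic E L := Algebra.IsAlgebraic.of_finite E _
  exact ⟨IsAlgClosed.lift⟩

theorem exists_hom (s : Finset F) : Nonempty (Algebra.adjoin E (s : Set F) →ₐ[E] Ω) := by
  have hft : Algebra.FiniteType E (Algebra.adjoin E (s : Set F)) :=
    (Subalgebra.fg_iff_finiteType _).1 (Subalgebra.fg_adjoin_finset s)
  obtain ⟨m, hm⟩ := Ideal.exists_maximal (Algebra.adjoin E (s : Set F))
  letI : Field (Algebra.adjoin E (s : Set F) ⧸ m) := Ideal.Quotient.field m
  have hft2 : Algebra.FiniteType E (Algebra.adjoin E (s : Set F) ⧸ m) :=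
    Algebra.FiniteType.of_surjective (Ideal.Quotient.mkₐ E m) (Ideal.Quotient.mkₐ_surjective E m)
  haveI := hft2
  obtain ⟨f⟩ := exists_hom_field (E := E) (Ω := Ω) (Algebra.adjoin E (s : Set F) ⧸ m)
  exact ⟨f.comp (Ideal.Quotient.mkₐ E m)⟩

/-- transfer of a representation with finite image to an algebraically closed field -/
theorem transfer {Γ : Type*} [Group Γ] {n : ℕ} (M : Γ →* Matrix (Fin n) (Fin n) F)
    (hM : (Set.range M).Finite) : ∃ M' : Γ →* Matrix (Fin n) (Fin n) Ω,
      (∀ g, M g = 1 → M' g = 1) ∧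
      ∀ (g : Γ) (P : E[X]), (M g).charpoly = P.map (algebraMap E F) →
        (M' g).charpoly = P.map (algebraMap E Ω) := by
  classical
  let s : Finset F := hM.toFinset.biUnion fun A => Finset.univ.image fun x : Fin n × Fin n => A x.1 x.2
  obtain ⟨θ⟩ := exists_hom (E := E) (Ω := Ω) s
  have hmem : ∀ g i j, M g i j ∈ Algebra.adjoin E (s : Set F) := by
    intro g i j
    refine Algebra.subset_adjoin (Finset.mem_coe.2 (Finset.mem_biUnion.2 ⟨M g, ?_, ?_⟩))
    · exact hM.mem_toFinset.2 ⟨g, rfl⟩
    · exact Finset.mem_image.2 ⟨(i, j), Finset.mem_univ _, rfl⟩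
  set B := Algebra.adjoin E (s : Set F) with hB
  let N : Γ → Matrix (Fin n) (Fin n) B := fun g i j => ⟨M g i j, hmem g i j⟩
  have hN : ∀ g, (N g).map (algebraMap B F) = M g := fun g => by ext i j; rfl
  have hinj : Function.Injective (fun A : Matrix (Fin n) (Fin n) B => A.map (algebraMap B F)) :=
    Matrix.map_injective Subtype.val_injective
  have hN1 : N 1 = 1 := by
    apply hinj
    show (N 1).map (algebraMap B F) = (1 : Matrix (Fin n) (Fin n) B).map (algebraMap B F)
    rw [hN, map_one, Matrix.map_one _ (map_zero _) (map_one _)]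
  have hNm : ∀ g h, N (g * h) = N g * N h := by
    intro g h
    apply hinj
    show (N (g * h)).map (algebraMap B F) = (N g * N h).map (algebraMap B F)
    rw [hN, map_mul, Matrix.map_mul, hN, hN]
  refine ⟨{ toFun := fun g => (N g).map θ
            map_one' := by rw [hN1, Matrix.map_one _ (map_zero _) (map_one _)]
            map_mul' := fun g h => by rw [hNm, Matrix.map_mul] }, ?_, ?_⟩
  · intro g hg
    show (N g).map θ = 1
    have h1 : N g = 1 := by
      apply hinj
      show (N g).map (algebraMap B F) = (1 : Matrix (Fin n) (Fin n) B).map (algebraMap B F)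
      rw [hN, hg, Matrix.map_one _ (map_zero _) (map_one _)]
    rw [h1, Matrix.map_one _ (map_zero _) (map_one _)]
  · intro g P hP
    show ((N g).map θ).charpoly = P.map (algebraMap E Ω)
    have h1 : (N g).charpoly = P.map (algebraMap E B) := by
      apply Polynomial.map_injective (algebraMap B F) Subtype.val_injective
      rw [← Matrix.charpoly_map, hN, hP, Polynomial.map_map]
      rfl
    have h2 : (N g).map θ = (N g).map (θ : B →+* Ω) := rfl
    rw [h2, Matrix.charpoly_map, h1, Polynomial.map_map]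
    congr 1
    exact θ.comp_algebraMap

end transfer

section ultra

variable {ι : Type} [Infinite ι] (k : ι → Type) [∀ i, Field (k i)]

theorem exists_max : ∃ m : Ideal (∀ i, k i), m.IsMaximal ∧
    ∀ f : ∀ i, k i, {i | f i ≠ 0}.Finite → f ∈ m := by
  classical
  let I : Ideal (∀ i, k i) :=
    { carrier := {f | {i | f i ≠ 0}.Finite}
      add_mem' := by
        intro f g hf hg
        refine (hf.union hg).subset fun i hi => ?_
        by_contra h
        simp only [Set.mem_union, Set.mem_ofPred_eq, not_or, not_not] at h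
        exact hi (by rw [Pi.add_apply, h.1, h.2, add_zero])
      zero_mem' := by simp
      smul_mem' := by
        intro c f hf
        refine hf.subset fun i hi hfi => hi ?_
        rw [smul_eq_mul, Pi.mul_apply, hfi, mul_zero] }
  have hI : I ≠ ⊤ := by
    intro h
    have h1 : (1 : ∀ i, k i) ∈ I := by rw [h]; trivial
    have h2 : {i | (1 : ∀ i, k i) i ≠ 0}.Finite := h1
    have h3 : {i | (1 : ∀ i, k i) i ≠ 0} = Set.univ := by
      ext i
      simp
    rw [h3] at h2
    exact Set.infinite_univ h2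
  obtain ⟨m, hm, hIm⟩ := Ideal.exists_le_maximal I hI
  exact ⟨m, hm, fun f hf => hIm hf⟩

variable {k}

theorem notMem_of_finite {m : Ideal (∀ i, k i)} (hm : m.IsMaximal)
    (hfin : ∀ f : ∀ i, k i, {i | f i ≠ 0}.Finite → f ∈ m) {f : ∀ i, k i} (hf : {i | f i = 0}.Finite) :
    f ∉ m := by
  intro h
  have h1 : f * (fun i => (f i)⁻¹) - 1 ∈ m := by
    refine hfin _ (hf.subset fun i hi => ?_)
    by_contra h2
    apply hi
    show f i * (f i)⁻¹ - 1 = 0
    rw [mul_inv_cancel₀ h2, sub_self]
  have h2 : (1 : ∀ i, k i) ∈ m := by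
    have h3 := m.sub_mem (m.mul_mem_right (fun i => (f i)⁻¹) h) h1
    rwa [sub_sub_cancel] at h3
  exact hm.ne_top ((Ideal.eq_top_iff_one m).2 h2)

theorem exists_limit (k : ι → Type) [∀ i, Field (k i)] : ∃ (F : Type) (_ : Field F) (q : (∀ i, k i) →+* F),
    (∀ f : ∀ i, k i, {i | f i ≠ 0}.Finite → q f = 0) ∧ ∀ f : ∀ i, k i, {i | f i = 0}.Finite → q f ≠ 0 := by
  obtain ⟨m, hm, hfin⟩ := exists_max k
  refine ⟨(∀ i, k i) ⧸ m, Ideal.Quotient.field m, Ideal.Quotient.mk m, fun f hf => ?_, fun f hf h => ?_⟩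
  · exact Ideal.Quotient.eq_zero_iff_mem.2 (hfin f hf)
  · exact notMem_of_finite hm hfin hf (Ideal.Quotient.eq_zero_iff_mem.1 h)

/-- the matrices over the product of the fields -/
def piMat {Γ : Type*} [Group Γ] {n : ℕ} (ρ : ∀ i, Γ →* Matrix.GeneralLinearGroup (Fin n) (k i)) :
    Γ →* Matrix (Fin n) (Fin n) (∀ i, k i) where
  toFun g := Matrix.of fun a b i => (ρ i g : Matrix (Fin n) (Fin n) (k i)) a b
  map_one' := by
    ext a b i
    show (ρ i 1 : Matrix (Fin n) (Fin n) (k i)) a b = (1 : Matrix (Fin n) (Fin n) (∀ i, k i)) a b i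
    rw [map_one, Units.val_one]
    by_cases hab : a = b
    · subst hab
      rw [Matrix.one_apply_eq, Matrix.one_apply_eq]
      rfl
    · rw [Matrix.one_apply_ne hab, Matrix.one_apply_ne hab]
      rfl
  map_mul' g h := by
    ext a b i
    show (ρ i (g * h) : Matrix (Fin n) (Fin n) (k i)) a b =
      (∑ j, (fun i => (ρ i g : Matrix (Fin n) (Fin n) (k i)) a j) *
        (fun i => (ρ i h : Matrix (Fin n) (Fin n) (k i)) j b) : ∀ i, k i) i
    rw [Finset.sum_apply, map_mul, Units.val_mul, Matrix.mul_apply]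
    rfl

theorem piMat_apply {Γ : Type*} [Group Γ] {n : ℕ} (ρ : ∀ i, Γ →* Matrix.GeneralLinearGroup (Fin n) (k i))
    (g : Γ) (i : ι) : (piMat ρ g).map (Pi.evalRingHom k i) = (ρ i g : Matrix (Fin n) (Fin n) (k i)) := by
  ext a b
  rfl

theorem piMat_eq_one {Γ : Type*} [Group Γ] {n : ℕ} (ρ : ∀ i, Γ →* Matrix.GeneralLinearGroup (Fin n) (k i))
    {g : Γ} (h : ∀ i, ρ i g = 1) : piMat ρ g = 1 := by
  rw [← map_one (piMat ρ)]
  ext a b i
  show (ρ i g : Matrix (Fin n) (Fin n) (k i)) a b = (ρ i 1 : Matrix (Fin n) (Fin n) (k i)) a b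
  rw [h i, map_one]

end ultra

end Pool.Agent.X320.DS
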