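import Pool.Agent.X320.DS.Frob
import Pool.Agent.X320.DS.NT
import Pool.Agent.X320.DS.Transfer

/-! Deligne-Serre: from residual representations to an Artin representation. -/

set_option autoImplicit false
set_option linter.all false

namespace Pool.Agent.X320.DS

open Topology Filter NumberField IsDedekindDomain Polynomial
open Pool.Agent.W401.Cheb
open Pool.Agent.W528.Ord (dens_mono dens_nonneg dens_or)
open Matrix

section maschke

variable {Γ : Type*} [Group Γ] {k : Type*} [Field k] [CharZero k] {n : ℕ}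

/-- Maschke -/
theorem semisimple_of_finite {ρ : Γ →* GL (Fin n) k} (h : (Set.range ρ).Finite) : Semisimple ρ := by
  classical
  intro W hW
  haveI : Finite ρ.range := Set.finite_coe_iff.2 h
  letI : Fintype ρ.range := Fintype.ofFinite _
  obtain ⟨W', hW'⟩ := Submodule.exists_isCompl W
  let p : Module.End k (Fin n → k) := W.subtype.comp (Submodule.projectionOnto W W' hW')
  have hp1 : ∀ x, p x ∈ W := fun x => (Submodule.projectionOnto W W' hW' x).2
  have hp2 : ∀ x ∈ W, p x = x := fun x hx => by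
    show ((Submodule.projectionOnto W W' hW' x : W) : Fin n → k) = x
    rw [Submodule.projectionOnto_apply_left hW' ⟨x, hx⟩]
  let a : ρ.range → Module.End k (Fin n → k) := fun A => Matrix.toLin' (A.1 : Matrix (Fin n) (Fin n) k)
  have ha : ∀ A B, a (A * B) = a A * a B := fun A B => by
    show Matrix.toLin' _ = _
    rw [Subgroup.coe_mul, Units.val_mul, Matrix.toLin'_mul]
    rfl
  have ha1 : a 1 = 1 := by
    show Matrix.toLin' _ = _
    rw [Subgroup.coe_one, Units.val_one, Matrix.toLin'_one]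
    rfl
  have haW : ∀ A, ∀ w ∈ W, a A w ∈ W := by
    rintro ⟨_, g, rfl⟩ w hw
    show Matrix.toLin' _ w ∈ W
    rw [Matrix.toLin'_apply]
    exact hW g w hw
  have hc : (Fintype.card ρ.range : k) ≠ 0 := by exact_mod_cast Fintype.card_ne_zero
  let q : Module.End k (Fin n → k) := (Fintype.card ρ.range : k)⁻¹ • ∑ A, a A * p * a A⁻¹
  have hq : ∀ x, q x = (Fintype.card ρ.range : k)⁻¹ • ∑ A, a A (p (a A⁻¹ x)) := by
    intro x
    simp [q, LinearMap.sum_apply]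
  have hq1 : ∀ x, q x ∈ W := fun x => by
    rw [hq]
    exact W.smul_mem _ (W.sum_mem fun A _ => haW A _ (hp1 _))
  have hq2 : ∀ x ∈ W, q x = x := fun x hx => by
    rw [hq]
    have : ∀ A ∈ (Finset.univ : Finset ρ.range), a A (p (a A⁻¹ x)) = x := fun A _ => by
      rw [hp2 _ (haW _ _ hx)]
      show (a A * a A⁻¹) x = x
      rw [← ha, mul_inv_cancel, ha1]
      rfl
    rw [Finset.sum_congr rfl this, Finset.sum_const, Finset.card_univ, ← Nat.cast_smul_eq_nsmul k, smul_smul,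
      inv_mul_cancel₀ hc, one_smul]
  have hproj : LinearMap.IsProj W q := ⟨hq1, hq2⟩
  refine ⟨LinearMap.ker q, ?_, hproj.isCompl⟩
  intro g w hw
  rw [LinearMap.mem_ker] at hw ⊢
  let B : ρ.range := ⟨ρ g, g, rfl⟩
  have h1 : (ρ g : Matrix (Fin n) (Fin n) k) *ᵥ w = a B w := (Matrix.toLin'_apply _ _).symm
  have h2 : q (a B w) = a B (q w) := by
    rw [hq, hq, map_smul, map_sum]
    congr 1
    refine Fintype.sum_equiv (Equiv.mulLeft B⁻¹) _ _ fun A => ?_
    show a A (p (a A⁻¹ (a B w))) = a B (a (B⁻¹ * A) (p (a (B⁻¹ * A)⁻¹ w)))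
    have e1 : a A⁻¹ (a B w) = a (B⁻¹ * A)⁻¹ w := by
      show (a A⁻¹ * a B) w = _
      rw [← ha, _root_.mul_inv_rev, inv_inv]
    have e2 : ∀ y, a B (a (B⁻¹ * A) y) = a A y := fun y => by
      show (a B * a (B⁻¹ * A)) y = _
      rw [← ha, mul_inv_cancel_left]
    rw [e1, e2]
  rw [h1, h2, hw, map_zero]

end maschke

section

variable {K : Type} [Field K] [NumberField K] {E : Type} [Field E] [NumberField E]

/-- There is a field `k` of characteristic `ℓ`, a homomorphism from the ring of integers of `E` to `k`, and a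
semisimple representation of the absolute Galois group of `K` over `k` with open kernel, which at all places
outside `S` that do not divide `ℓ` is unramified, the geometric Frobenius elements having the characteristic
polynomial `P v` modulo `ℓ`. -/
def HasResidual (n : ℕ) (P : HeightOneSpectrum (𝓞 K) → (𝓞 E)[X]) (S : Set (HeightOneSpectrum (𝓞 K)))
    (ℓ : ℕ) : Prop :=
  ∃ (k : Type) (_ : Field k) (_ : CharP k ℓ) (φ : 𝓞 E →+* k) (ρ : GK K →* GL (Fin n) k),
    IsOpen (ρ.ker : Set (GK K)) ∧ Semisimple ρ ∧ ∀ v, v ∉ S → (ℓ : 𝓞 K) ∉ v.asIdeal →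
      (∀ τ, IsInert v τ → ρ τ = 1) ∧
        ∀ σ, IsFrob v σ → (ρ σ⁻¹ : Matrix (Fin n) (Fin n) k).charpoly = (P v).map φ

theorem notMem_of_lt {ℓ : ℕ} (hℓ : ℓ.Prime) (v : HeightOneSpectrum (𝓞 K)) (h : Ideal.absNorm v.asIdeal < ℓ) :
    (ℓ : 𝓞 K) ∉ v.asIdeal := by
  intro hv
  have h0 : Ideal.absNorm v.asIdeal ≠ 0 := by
    rw [Ne, Ideal.absNorm_eq_zero_iff]
    exact v.ne_bot
  have hcop : Nat.Coprime ℓ (Ideal.absNorm v.asIdeal) :=
    (Nat.Prime.coprime_iff_not_dvd hℓ).2 fun hd => by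
      have := Nat.le_of_dvd (Nat.pos_of_ne_zero h0) hd
      omega
  have h1 : IsCoprime (ℓ : 𝓞 K) ((Ideal.absNorm v.asIdeal : ℕ) : 𝓞 K) := by
    have := (Nat.isCoprime_iff_coprime.2 hcop).map (Int.castRingHom (𝓞 K))
    simpa using this
  obtain ⟨a, b, hab⟩ := h1
  apply v.isPrime.ne_top
  rw [Ideal.eq_top_iff_one, ← hab]
  exact v.asIdeal.add_mem (v.asIdeal.mul_mem_left a hv) (v.asIdeal.mul_mem_left b (Ideal.absNorm_mem _))

theorem finite_above {ℓ : ℕ} (hℓ : ℓ ≠ 0) : {v : HeightOneSpectrum (𝓞 K) | (ℓ : 𝓞 K) ∈ v.asIdeal}.Finite := by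
  have h := Ideal.finite_factors (R := 𝓞 K) (I := Ideal.span {(ℓ : 𝓞 K)}) (by
    rw [Ne, Ideal.zero_eq_bot, Ideal.span_singleton_eq_bot]
    exact_mod_cast hℓ)
  refine h.subset fun v hv => ?_
  show v.asIdeal ∣ Ideal.span {(ℓ : 𝓞 K)}
  rw [Ideal.dvd_span_singleton]
  exact hv

theorem isClosed_of_ker {k : Type*} [Field k] {n : ℕ} {ρ : GK K →* GL (Fin n) k}
    (hρ : IsOpen (ρ.ker : Set (GK K))) (C : Set (GL (Fin n) k)) : IsClosed {g | ρ g ∈ C} := by
  rw [← isOpen_compl_iff, isOpen_iff_forall_mem_open]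
  intro x hx
  refine ⟨(fun y => x⁻¹ * y) ⁻¹' (ρ.ker : Set (GK K)), ?_, hρ.preimage (continuous_const_mul _), ?_⟩
  · intro y hy hyC
    have h1 : ρ (x⁻¹ * y) = 1 := hy
    rw [map_mul, map_inv, inv_mul_eq_one] at h1
    apply hx
    show ρ x ∈ C
    rw [h1]
    exact hyC
  · show ρ (x⁻¹ * x) = 1
    rw [inv_mul_cancel, map_one]

/-- the image of a residual representation is small -/
theorem small {n : ℕ} (hn : 0 < n) {P : HeightOneSpectrum (𝓞 K) → (𝓞 E)[X]}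
    {S : Set (HeightOneSpectrum (𝓞 K))} (X : Finset (𝓞 E)) {δ δ' : ℝ} (hδδ : δ' < δ)
    (hδ : (1 - δ') * n ^ 2 < 1) (hG : ∀ᶠ N in atTop, δ ≤ dens (fun v => v ∉ S ∧ (P v).coeff (n - 1) ∈ X) N)
    {ℓ : ℕ} (hℓ : ℓ.Prime) (hnℓ : n < ℓ) {k : Type} [Field k] [CharP k ℓ] (φ : 𝓞 E →+* k)
    (ρ : GK K →* GL (Fin n) k) (hker : IsOpen (ρ.ker : Set (GK K))) (hss : Semisimple ρ)
    (hP : ∀ v, v ∉ S → (ℓ : 𝓞 K) ∉ v.asIdeal → (∀ τ, IsInert v τ → ρ τ = 1) ∧
        ∀ σ, IsFrob v σ → (ρ σ⁻¹ : Matrix (Fin n) (Fin n) k).charpoly = (P v).map φ) :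
    (Set.range ρ).Finite ∧
      (((Set.range ρ).ncard : ℝ) * (1 - (1 - δ') * n ^ 2) ≤ ((X.card : ℝ) + 1) ^ (n ^ 2)) := by
  classical
  haveI : Nonempty (Fin n) := ⟨⟨0, hn⟩⟩
  have hfac : ((n.factorial : ℕ) : k) ≠ 0 := by
    intro h
    have h1 := (CharP.cast_eq_zero_iff k ℓ _).1 h
    have := (hℓ.dvd_factorial).1 h1
    omega
  have h1 := main1 hss hfac (fun c => isClosed_of_ker hker {A | (A : Matrix (Fin n) (Fin n) k).trace = c})
    (X.image fun a => φ (-a)) hδ (fun v => (v ∉ S ∧ (P v).coeff (n - 1) ∈ X) ∧ (ℓ : 𝓞 K) ∉ v.asIdeal)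
    (dens_remove {v | (ℓ : 𝓞 K) ∈ v.asIdeal} (finite_above hℓ.ne_zero) (fun v hv hv' => ⟨hv, hv'⟩) hδδ hG) ?_
  · refine ⟨h1.1, h1.2.trans ?_⟩
    have h2 : (((X.image fun a => φ (-a)).card : ℕ) : ℝ) ≤ (X.card : ℝ) := by
      exact_mod_cast Finset.card_image_le
    gcongr
  · rintro v ⟨⟨hvS, hvX⟩, hvℓ⟩ σ hσ
    refine Finset.mem_image.2 ⟨_, hvX, ?_⟩
    rw [Matrix.trace_eq_neg_charpoly_coeff, (hP v hvS hvℓ).2 σ hσ, Fintype.card_fin, coeff_map, map_neg]

theorem pow_factorial {Γ H : Type*} [Group Γ] [Group H] {ρ : Γ →* H} (hfin : (Set.range ρ).Finite) {A : ℕ}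
    (hA : (Set.range ρ).ncard ≤ A) (g : Γ) : ρ g ^ A.factorial = 1 := by
  haveI : Finite ρ.range := Set.finite_coe_iff.2 hfin
  have h1 : Nat.card ρ.range = (Set.range ρ).ncard := rfl
  have h2 : (⟨ρ g, g, rfl⟩ : ρ.range) ^ Nat.card ρ.range = 1 := pow_card_eq_one'
  have h3 : ρ g ^ Nat.card ρ.range = 1 := by
    have := congrArg Subtype.val h2
    simpa using this
  have h4 : 0 < Nat.card ρ.range := Nat.card_pos
  obtain ⟨c, hc⟩ := Nat.dvd_factorial h4 (h1 ▸ hA)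
  rw [hc, pow_mul, h3, one_pow]

end

end Pool.Agent.X320.DS
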