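import Mathlib

/-! Burnside's trick: the trace form of a semisimple matrix group is nondegenerate, and an element of the
group is determined by at most `n ^ 2` traces. -/

set_option autoImplicit false

namespace Pool.Agent.X320.DS

open Matrix Module

section

variable {Γ : Type*} [Group Γ] {k : Type*} [Field k] {n : ℕ}

/-- the subspace `W` is stable under the representation `ρ` -/
def Stable (ρ : Γ →* GL (Fin n) k) (W : Submodule k (Fin n → k)) : Prop :=
  ∀ g, ∀ w ∈ W, (ρ g : Matrix (Fin n) (Fin n) k) *ᵥ w ∈ W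

/-- the representation `ρ` is semisimple: every stable subspace has a stable complement -/
def Semisimple (ρ : Γ →* GL (Fin n) k) : Prop :=
  ∀ W, Stable ρ W → ∃ W', Stable ρ W' ∧ IsCompl W W'

/-- the representation by endomorphisms -/
noncomputable def toEnd (ρ : Γ →* GL (Fin n) k) : Γ →* Module.End k (Fin n → k) where
  toFun g := Matrix.toLin' (ρ g : Matrix (Fin n) (Fin n) k)
  map_one' := by simp [Matrix.toLin'_one]; rfl
  map_mul' g h := by
    rw [map_mul, Units.val_mul, Matrix.toLin'_mul]
    rfl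

theorem toEnd_apply (ρ : Γ →* GL (Fin n) k) (g : Γ) (w : Fin n → k) :
    toEnd ρ g w = (ρ g : Matrix (Fin n) (Fin n) k) *ᵥ w := Matrix.toLin'_apply _ _

/-- the algebra generated by the image -/
noncomputable def alg (ρ : Γ →* GL (Fin n) k) : Subalgebra k (Module.End k (Fin n → k)) :=
  Algebra.adjoin k (Set.range (toEnd ρ))

theorem stable_alg {ρ : Γ →* GL (Fin n) k} {W : Submodule k (Fin n → k)} (hW : Stable ρ W)
    {a : Module.End k (Fin n → k)} (ha : a ∈ alg ρ) : ∀ w ∈ W, a w ∈ W := by
  refine Algebra.adjoin_induction (p := fun a _ => ∀ w ∈ W, a w ∈ W) ?_ ?_ ?_ ?_ ha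
  · rintro _ ⟨g, rfl⟩ w hw
    rw [toEnd_apply]
    exact hW g w hw
  · intro c w hw
    rw [Module.algebraMap_end_apply]
    exact W.smul_mem c hw
  · intro x y _ _ hx hy w hw
    exact W.add_mem (hx w hw) (hy w hw)
  · intro x y _ _ hx hy w hw
    exact hx _ (hy w hw)

theorem semisimple_module {ρ : Γ →* GL (Fin n) k} (hρ : Semisimple ρ) :
    IsSemisimpleModule (alg ρ) (Fin n → k) := by
  rw [isSemisimpleModule_iff]
  refine ⟨fun W => ?_⟩
  have hWs : Stable ρ (W.restrictScalars k) := by
    intro g w hw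
    have h := W.smul_mem ⟨toEnd ρ g, Algebra.subset_adjoin ⟨g, rfl⟩⟩ hw
    rw [← toEnd_apply]
    exact h
  obtain ⟨W', hW', hc⟩ := hρ _ hWs
  let V' : Submodule (alg ρ) (Fin n → k) :=
    { carrier := W'
      add_mem' := fun h1 h2 => W'.add_mem h1 h2
      zero_mem' := W'.zero_mem
      smul_mem' := fun a w hw => stable_alg hW' a.2 w hw }
  refine ⟨V', ?_, ?_⟩
  · rw [Submodule.disjoint_def]
    intro x hx hx'
    exact (Submodule.disjoint_def.1 hc.disjoint) x hx hx'
  · rw [codisjoint_iff, eq_top_iff]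
    intro x _
    have hx : x ∈ (W.restrictScalars k) ⊔ W' := by rw [hc.sup_eq_top]; trivial
    obtain ⟨y, hy, z, hz, rfl⟩ := Submodule.mem_sup.1 hx
    exact Submodule.mem_sup.2 ⟨y, hy, z, hz, rfl⟩

theorem semisimple_ring {ρ : Γ →* GL (Fin n) k} (hρ : Semisimple ρ) : IsSemisimpleRing (alg ρ) := by
  have := semisimple_module hρ
  let f : alg ρ →ₗ[alg ρ] (Fin n → (Fin n → k)) :=
    { toFun := fun a i => a • (Pi.single i 1 : Fin n → k)
      map_add' := fun a b => by funext i; exact add_smul a b _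
      map_smul' := fun a b => by funext i; exact mul_smul a b _ }
  refine IsSemisimpleModule.of_injective f ?_
  intro a b hab
  apply Subtype.ext
  refine LinearMap.pi_ext' fun i => ?_
  ext
  exact congrFun (congrFun hab i) _

theorem natCast_ne {m : ℕ} (hn : ((n.factorial : ℕ) : k) ≠ 0) (hm0 : m ≠ 0) (hm : m ≤ n) : (m : k) ≠ 0 := by
  intro h
  apply hn
  obtain ⟨c, hc⟩ := Nat.dvd_factorial (Nat.pos_of_ne_zero hm0) hm
  rw [hc, Nat.cast_mul, h, zero_mul]

/-- the trace form of the algebra is nondegenerate -/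
theorem trace_nondeg {ρ : Γ →* GL (Fin n) k} (hρ : Semisimple ρ) (hn : ((n.factorial : ℕ) : k) ≠ 0)
    {x : Module.End k (Fin n → k)} (hx : x ∈ alg ρ)
    (h : ∀ a ∈ alg ρ, LinearMap.trace k (Fin n → k) (a * x) = 0) : x = 0 := by
  have := semisimple_ring hρ
  let I : Ideal (alg ρ) :=
    { carrier := {y | ∀ a ∈ alg ρ, LinearMap.trace k (Fin n → k) (a * y.1) = 0}
      add_mem' := by
        intro y z hy hz a ha
        have e : a * (y + z : alg ρ).1 = a * y.1 + a * z.1 := mul_add _ _ _
        rw [e, map_add, hy a ha, hz a ha, add_zero]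
      zero_mem' := by
        intro a _
        have e : a * (0 : alg ρ).1 = 0 := mul_zero _
        rw [e, map_zero]
      smul_mem' := by
        intro b y hy a ha
        have e : a * (b • y : alg ρ).1 = (a * b.1) * y.1 := (mul_assoc _ _ _).symm
        rw [e]
        exact hy _ ((alg ρ).mul_mem ha b.2) }
  obtain ⟨e, he, hI⟩ := @IsSemisimpleRing.ideal_eq_span_idempotent (alg ρ) (alg ρ).toRing _ I
  have heI : e ∈ I := by rw [hI]; exact Ideal.subset_span rfl
  have he' : IsIdempotentElem e.1 := congrArg Subtype.val he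
  have h1 : LinearMap.trace k (Fin n → k) e.1 = 0 := by
    have := heI 1 (alg ρ).one_mem
    rwa [one_mul] at this
  have h2 := (LinearMap.IsIdempotentElem.isProj_range e.1 he').trace
  rw [h1] at h2
  have h3 : finrank k (LinearMap.range e.1) ≤ n := by
    have := Submodule.finrank_le (LinearMap.range e.1)
    rwa [Module.finrank_fin_fun] at this
  have h4 : finrank k (LinearMap.range e.1) = 0 := by
    by_contra h5
    exact natCast_ne hn h5 h3 h2.symm
  have h5 : e = 0 := by
    apply Subtype.ext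
    have h6 : e.1 = 0 := LinearMap.range_eq_bot.1 (Submodule.finrank_eq_zero.1 h4)
    exact h6
  have h6 : (⟨x, hx⟩ : alg ρ) ∈ I := fun a ha => h a ha
  rw [hI, h5] at h6
  have h7 : (⟨x, hx⟩ : alg ρ) = 0 := by simpa using h6
  exact congrArg Subtype.val h7

theorem alg_eq_span (ρ : Γ →* GL (Fin n) k) :
    Subalgebra.toSubmodule (alg ρ) = Submodule.span k (Set.range (toEnd ρ)) := by
  rw [alg, Algebra.adjoin_eq_span]
  congr 1
  have h : Submonoid.closure (Set.range (toEnd ρ)) = MonoidHom.mrange (toEnd ρ) := by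
    rw [← MonoidHom.coe_mrange, Submonoid.closure_eq]
  rw [h]
  rfl

/-- **Burnside's trick.** There are `r ≤ n ^ 2` elements `g_i` such that `ρ x` is determined by the traces of
the elements `ρ (g_i x)`. -/
theorem exists_basis {ρ : Γ →* GL (Fin n) k} (hρ : Semisimple ρ) (hn : ((n.factorial : ℕ) : k) ≠ 0) :
    ∃ (r : ℕ) (g : Fin r → Γ), r ≤ n ^ 2 ∧ ∀ x y : Γ,
      (∀ i, (ρ (g i * x) : Matrix (Fin n) (Fin n) k).trace = (ρ (g i * y) : Matrix (Fin n) (Fin n) k).trace) →
        ρ x = ρ y := by
  classical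
  obtain ⟨f, hf1, hf2, hf3⟩ := Submodule.exists_fun_fin_finrank_span_eq k (Set.range (toEnd ρ))
  choose g hg using hf1
  refine ⟨_, g, ?_, fun x y hxy => ?_⟩
  · have h1 := Submodule.finrank_le (Submodule.span k (Set.range (toEnd ρ)))
    have h2 : finrank k (Module.End k (Fin n → k)) = n ^ 2 := by
      rw [Module.finrank_linearMap, Module.finrank_fin_fun, sq]
    rwa [h2] at h1
  · have hx : toEnd ρ x - toEnd ρ y ∈ alg ρ :=
      (alg ρ).sub_mem (Algebra.subset_adjoin ⟨x, rfl⟩) (Algebra.subset_adjoin ⟨y, rfl⟩)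
    have hz := trace_nondeg hρ hn hx ?_
    · have h1 : toEnd ρ x = toEnd ρ y := sub_eq_zero.1 hz
      apply Units.ext
      exact Matrix.toLin'.injective h1
    · intro a ha
      have ha' : a ∈ Submodule.span k (Set.range f) := by
        rw [hf2, ← alg_eq_span]
        exact ha
      refine Submodule.span_induction (p := fun a _ =>
        LinearMap.trace k (Fin n → k) (a * (toEnd ρ x - toEnd ρ y)) = 0) ?_ ?_ ?_ ?_ ha'
      · rintro _ ⟨i, rfl⟩
        rw [← hg i, mul_sub, map_sub, ← map_mul, ← map_mul]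
        have h1 := hxy i
        have h2 : ∀ z, LinearMap.trace k (Fin n → k) (toEnd ρ z) = (ρ z : Matrix (Fin n) (Fin n) k).trace :=
          fun z => Matrix.trace_toLin'_eq _
        rw [h2, h2, h1, sub_self]
      · simp
      · intro a b _ _ ha hb
        rw [add_mul, map_add, ha, hb, add_zero]
      · intro c a _ ha
        rw [smul_mul_assoc, map_smul, ha, smul_zero]

end

end Pool.Agent.X320.DS
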