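import Pool.Agent.X320.DS.Subq
import Pool.Agent.X320.DS.Trace

/-! Representations whose matrix entries are polynomials in the entries of another representation are
subquotients of tensor constructions. -/

set_option autoImplicit false
set_option linter.all false

namespace Pool.Agent.X320.DS

open Matrix

variable {G : Type*} [Group G] {F : Type*} [Field F] {m : ℕ}

/-- the matrix of the action on `a`-fold tensors -/
noncomputable def matA (θ : G →* GL (Fin m) F) (a : ℕ) (g : G) : Matrix (Fin a → Fin m) (Fin a → Fin m) F :=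
  fun i i' => ∏ k, (θ g : Matrix (Fin m) (Fin m) F) (i k) (i' k)

/-- the matrix of the action on `b`-fold tensors of the dual space -/
noncomputable def matB (θ : G →* GL (Fin m) F) (b : ℕ) (g : G) : Matrix (Fin b → Fin m) (Fin b → Fin m) F :=
  fun j j' => ∏ l, (θ g⁻¹ : Matrix (Fin m) (Fin m) F) (j' l) (j l)

theorem matA_mul (θ : G →* GL (Fin m) F) (a : ℕ) (g h : G) : matA θ a (g * h) = matA θ a g * matA θ a h := by
  ext i i'
  rw [Matrix.mul_apply]
  unfold matA
  simp only [map_mul, Units.val_mul, Matrix.mul_apply, ← Finset.prod_mul_distrib]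
  rw [Finset.prod_univ_sum, Fintype.piFinset_univ]

theorem matB_mul (θ : G →* GL (Fin m) F) (b : ℕ) (g h : G) : matB θ b (g * h) = matB θ b g * matB θ b h := by
  ext j j'
  rw [Matrix.mul_apply]
  unfold matB
  simp only [_root_.mul_inv_rev, map_mul, Units.val_mul, Matrix.mul_apply, ← Finset.prod_mul_distrib]
  rw [Finset.prod_univ_sum, Fintype.piFinset_univ]
  refine Finset.sum_congr rfl fun x _ => Finset.prod_congr rfl fun l _ => mul_comm _ _

theorem sum_two {I J : Type*} [Fintype I] [Fintype J] (A : Matrix I I F) (B : Matrix J J F)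
    (T : Matrix I J F) (i : I) (j : J) :
    ∑ i', ∑ j', A i i' * B j j' * T i' j' = (A * T * Bᵀ) i j := by
  simp only [Matrix.mul_apply, Matrix.transpose_apply, Finset.sum_mul]
  rw [Finset.sum_comm]
  refine Finset.sum_congr rfl fun x _ => Finset.sum_congr rfl fun y _ => by ring

/-- The action of `g` on the space `F[G/H] ⊗ W^{⊗ a} ⊗ (W^*)^{⊗ b}` of functions on
`(G ⧸ H) × {1, ..., m} ^ a × {1, ..., m} ^ b`, where `W = F ^ m` with the action `θ`. -/
noncomputable def tact (θ : G →* GL (Fin m) F) (H : Subgroup G) (a b : ℕ) (g : G) :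
    ((G ⧸ H) × (Fin a → Fin m) × (Fin b → Fin m) → F) →ₗ[F] ((G ⧸ H) × (Fin a → Fin m) × (Fin b → Fin m) → F) where
  toFun T := fun p => ∑ i : Fin a → Fin m, ∑ j : Fin b → Fin m,
    (∏ k, (θ g : Matrix (Fin m) (Fin m) F) (p.2.1 k) (i k)) *
      (∏ l, (θ g⁻¹ : Matrix (Fin m) (Fin m) F) (j l) (p.2.2 l)) * T (g⁻¹ • p.1, i, j)
  map_add' T T' := by
    funext p
    simp only [Pi.add_apply, mul_add, Finset.sum_add_distrib]
  map_smul' c T := by
    funext p
    simp only [Pi.smul_apply, smul_eq_mul, RingHom.id_apply, Finset.mul_sum]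
    refine Finset.sum_congr rfl fun i _ => Finset.sum_congr rfl fun j _ => ?_
    ring

theorem tact_apply (θ : G →* GL (Fin m) F) (H : Subgroup G) (a b : ℕ) (g : G)
    (T : (G ⧸ H) × (Fin a → Fin m) × (Fin b → Fin m) → F) (q : G ⧸ H) (i : Fin a → Fin m) (j : Fin b → Fin m) :
    tact θ H a b g T (q, i, j) = ∑ i', ∑ j', matA θ a g i i' * matB θ b g j j' * T (g⁻¹ • q, i', j') := rfl

theorem tact_mul (θ : G →* GL (Fin m) F) (H : Subgroup G) (a b : ℕ) (g h : G)
    (T : (G ⧸ H) × (Fin a → Fin m) × (Fin b → Fin m) → F) :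
    tact θ H a b (g * h) T = tact θ H a b g (tact θ H a b h T) := by
  funext ⟨q, i, j⟩
  rw [tact_apply, tact_apply, matA_mul, matB_mul]
  let T1 : Matrix (Fin a → Fin m) (Fin b → Fin m) F := fun i' j' => T ((g * h)⁻¹ • q, i', j')
  let T2 : Matrix (Fin a → Fin m) (Fin b → Fin m) F := fun i' j' => tact θ H a b h T (g⁻¹ • q, i', j')
  have h1 := sum_two (matA θ a g * matA θ a h) (matB θ b g * matB θ b h) T1 i j
  have h2 := sum_two (matA θ a g) (matB θ b g) T2 i j
  refine h1.trans (Eq.trans ?_ h2.symm)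
  have h3 : T2 = matA θ a h * T1 * (matB θ b h)ᵀ := by
    ext i' j'
    show tact θ H a b h T (g⁻¹ • q, i', j') = _
    rw [tact_apply, ← sum_two]
    refine Finset.sum_congr rfl fun x _ => Finset.sum_congr rfl fun y _ => ?_
    show _ = _ * T ((g * h)⁻¹ • q, x, y)
    rw [_root_.mul_inv_rev, mul_smul]
  rw [h3, Matrix.transpose_mul]
  simp only [Matrix.mul_assoc]

/-- the functions `x ↦ θ (x) i j` and `x ↦ θ (x⁻¹) i j` -/
def gens (θ : G →* GL (Fin m) F) : (Fin m × Fin m) ⊕ (Fin m × Fin m) → (G → F) :=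
  Sum.elim (fun s x => (θ x : Matrix (Fin m) (Fin m) F) s.1 s.2)
    (fun s x => (θ x⁻¹ : Matrix (Fin m) (Fin m) F) s.1 s.2)

/-- the algebra of functions generated by these functions -/
noncomputable def algT (θ : G →* GL (Fin m) F) : Subalgebra F (G → F) := Algebra.adjoin F (Set.range (gens θ))

theorem ent_mem (θ : G →* GL (Fin m) F) (i j : Fin m) :
    (fun x => (θ x : Matrix (Fin m) (Fin m) F) i j) ∈ algT θ :=
  Algebra.subset_adjoin ⟨Sum.inl (i, j), rfl⟩

theorem ent_inv_mem (θ : G →* GL (Fin m) F) (i j : Fin m) :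
    (fun x => (θ x⁻¹ : Matrix (Fin m) (Fin m) F) i j) ∈ algT θ :=
  Algebra.subset_adjoin ⟨Sum.inr (i, j), rfl⟩

/-- composition with a map `G → G`, as an algebra homomorphism -/
def compHom (φ : G → G) : (G → F) →ₐ[F] (G → F) where
  toFun f := fun x => f (φ x)
  map_one' := rfl
  map_mul' _ _ := rfl
  map_zero' := rfl
  map_add' _ _ := rfl
  commutes' _ := rfl

theorem comp_mem (θ : G →* GL (Fin m) F) (φ : G → G)
    (h1 : ∀ i j, (fun x => (θ (φ x) : Matrix (Fin m) (Fin m) F) i j) ∈ algT θ)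
    (h2 : ∀ i j, (fun x => (θ (φ x)⁻¹ : Matrix (Fin m) (Fin m) F) i j) ∈ algT θ) {f : G → F} (hf : f ∈ algT θ) :
    (fun x => f (φ x)) ∈ algT θ := by
  have h3 : algT θ ≤ (algT θ).comap (compHom φ) := by
    conv_lhs => rw [algT]
    rw [Algebra.adjoin_le_iff]
    rintro _ ⟨s | s, rfl⟩
    · exact h1 s.1 s.2
    · exact h2 s.1 s.2
  exact h3 hf

theorem sum_fun_mem {A : Subalgebra F (G → F)} {s : Type*} [Fintype s] (f : s → G → F) (h : ∀ i, f i ∈ A) :
    (fun x => ∑ i, f i x) ∈ A := by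
  have h1 : (∑ i, f i) ∈ A := A.sum_mem fun i _ => h i
  have e : (∑ i, f i) = fun x => ∑ i, f i x := by
    funext x
    rw [Finset.sum_apply]
  rwa [e] at h1

theorem smul_fun_mem {A : Subalgebra F (G → F)} (c : F) {f : G → F} (h : f ∈ A) :
    (fun x => c * f x) ∈ A := A.smul_mem h c

theorem left_mem (θ : G →* GL (Fin m) F) (g : G) {f : G → F} (hf : f ∈ algT θ) :
    (fun x => f (g * x)) ∈ algT θ := by
  refine comp_mem θ _ (fun i j => ?_) (fun i j => ?_) hf
  · simp only [map_mul, Units.val_mul, Matrix.mul_apply]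
    exact sum_fun_mem _ fun l => smul_fun_mem _ (ent_mem θ l j)
  · simp only [_root_.mul_inv_rev, map_mul, Units.val_mul, Matrix.mul_apply]
    refine sum_fun_mem _ fun l => ?_
    simp only [mul_comm _ ((θ g⁻¹ : Matrix (Fin m) (Fin m) F) l j)]
    exact smul_fun_mem _ (ent_inv_mem θ i l)

theorem right_mem (θ : G →* GL (Fin m) F) (g : G) {f : G → F} (hf : f ∈ algT θ) :
    (fun x => f (x * g)) ∈ algT θ := by
  refine comp_mem θ _ (fun i j => ?_) (fun i j => ?_) hf
  · simp only [map_mul, Units.val_mul, Matrix.mul_apply]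
    refine sum_fun_mem _ fun l => ?_
    simp only [mul_comm _ ((θ g : Matrix (Fin m) (Fin m) F) l j)]
    exact smul_fun_mem _ (ent_mem θ i l)
  · simp only [_root_.mul_inv_rev, map_mul, Units.val_mul, Matrix.mul_apply]
    exact sum_fun_mem _ fun l => smul_fun_mem _ (ent_inv_mem θ l j)

theorem inv_mem (θ : G →* GL (Fin m) F) {f : G → F} (hf : f ∈ algT θ) : (fun x => f x⁻¹) ∈ algT θ := by
  refine comp_mem θ _ (fun i j => ent_inv_mem θ i j) (fun i j => ?_) hf
  simp only [inv_inv]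
  exact ent_mem θ i j

/-- the maps to the space of functions -/
noncomputable def psi (θ : G →* GL (Fin m) F) (H : Subgroup G)
    (c : (a : ℕ) × (b : ℕ) × (Fin a → Fin m) × (Fin b → Fin m)) :
    ((G ⧸ H) × (Fin c.1 → Fin m) × (Fin c.2.1 → Fin m) → F) →ₗ[F] (G → F) where
  toFun T := fun x => tact θ H c.1 c.2.1 x⁻¹ T (((1 : G) : G ⧸ H), c.2.2.1, c.2.2.2)
  map_add' T T' := by
    funext x
    rw [map_add]
    rfl
  map_smul' a T := by
    funext x
    rw [map_smul]
    rfl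

/-- monomials are of a standard form -/
theorem monomial_form (θ : G →* GL (Fin m) F) {f : G → F} (hf : f ∈ Submonoid.closure (Set.range (gens θ))) :
    ∃ (a b : ℕ) (i0 i : Fin a → Fin m) (j0 j : Fin b → Fin m), ∀ x,
      f x = (∏ k, (θ x⁻¹ : Matrix (Fin m) (Fin m) F) (i0 k) (i k)) *
        ∏ l, (θ x : Matrix (Fin m) (Fin m) F) (j l) (j0 l) := by
  induction hf using Submonoid.closure_induction with
  | mem f hf =>
    obtain ⟨s | s, rfl⟩ := hf
    · exact ⟨0, 1, Fin.elim0, Fin.elim0, fun _ => s.2, fun _ => s.1, fun x => by simp [gens]⟩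
    · exact ⟨1, 0, fun _ => s.1, fun _ => s.2, Fin.elim0, Fin.elim0, fun x => by simp [gens]⟩
  | one => exact ⟨0, 0, Fin.elim0, Fin.elim0, Fin.elim0, Fin.elim0, fun x => by simp⟩
  | mul f f' _ _ h h' =>
    obtain ⟨a, b, i0, i, j0, j, h⟩ := h
    obtain ⟨a', b', i0', i', j0', j', h'⟩ := h'
    refine ⟨a + a', b + b', Fin.append i0 i0', Fin.append i i', Fin.append j0 j0', Fin.append j j', fun x => ?_⟩
    rw [Pi.mul_apply, h, h', Fin.prod_univ_add, Fin.prod_univ_add]
    simp only [Fin.append_left, Fin.append_right]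
    ring

theorem mem_iSup_psi (θ : G →* GL (Fin m) F) (H : Subgroup G) (q : G ⧸ H) {f : G → F} (hf : f ∈ algT θ) :
    (open Classical in fun x : G => if (x : G ⧸ H) = q then f x else 0) ∈ ⨆ c, LinearMap.range (psi θ H c) := by
  classical
  have hf' : f ∈ Submodule.span F (Submonoid.closure (Set.range (gens θ)) : Set (G → F)) := by
    rw [← Algebra.adjoin_eq_span]
    exact hf
  refine Submodule.span_induction (p := fun f _ => (fun x : G => if (x : G ⧸ H) = q then f x else 0) ∈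
    ⨆ c, LinearMap.range (psi θ H c)) ?_ ?_ ?_ ?_ hf'
  · intro f hf
    obtain ⟨a, b, i0, i, j0, j, h⟩ := monomial_form θ hf
    refine Submodule.mem_iSup_of_mem ⟨a, b, i0, j0⟩ ⟨Pi.single (q, i, j) 1, ?_⟩
    funext x
    show tact θ H a b x⁻¹ (Pi.single (q, i, j) 1) (((1 : G) : G ⧸ H), i0, j0) = _
    rw [tact_apply, Finset.sum_eq_single i, Finset.sum_eq_single j]
    · have e : ((x⁻¹)⁻¹ • ((1 : G) : G ⧸ H)) = (x : G ⧸ H) := by
        rw [inv_inv]
        show ((x * 1 : G) : G ⧸ H) = _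
        rw [mul_one]
      rw [e]
      by_cases hx : (x : G ⧸ H) = q
      · rw [if_pos hx, hx, Pi.single_eq_same, mul_one, h]
        unfold matA matB
        rw [inv_inv]
      · rw [if_neg hx, Pi.single_eq_of_ne (fun h => hx (congrArg Prod.fst h)), mul_zero]
    · intro j' _ hj'
      rw [Pi.single_eq_of_ne (fun h => hj' (congrArg (fun p => p.2.2) h)), mul_zero]
    · simp
    · intro i' _ hi'
      refine Finset.sum_eq_zero fun j' _ => ?_
      rw [Pi.single_eq_of_ne (fun h => hi' (congrArg (fun p => p.2.1) h)), mul_zero]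
    · simp
  · have e : (fun x : G => if (x : G ⧸ H) = q then (0 : G → F) x else 0) = 0 := by
      funext x
      simp
    rw [e]
    exact Submodule.zero_mem _
  · intro f f' _ _ h h'
    have h1 := Submodule.add_mem _ h h'
    have e : (fun x : G => if (x : G ⧸ H) = q then (f + f') x else 0) =
        (fun x : G => if (x : G ⧸ H) = q then f x else 0) + (fun x : G => if (x : G ⧸ H) = q then f' x else 0) := by
      funext x
      by_cases hx : (x : G ⧸ H) = q <;> simp [hx]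
    rwa [e]
  · intro c f _ h
    have h1 := Submodule.smul_mem _ c h
    have e : (fun x : G => if (x : G ⧸ H) = q then (c • f) x else 0) =
        c • (fun x : G => if (x : G ⧸ H) = q then f x else 0) := by
      funext x
      by_cases hx : (x : G ⧸ H) = q <;> simp [hx]
    rwa [e]

/-- **Polynomial representations are subquotients of tensor constructions.** -/
theorem tannaka {n : ℕ} (hn : 0 < n) (ρ : G →* GL (Fin n) F) (hρ : ∀ W, Stable ρ W → W = ⊥ ∨ W = ⊤)
    (θ : G →* GL (Fin m) F) (H : Subgroup G) [Finite (G ⧸ H)] (φ : Fin n → Fin n → G → F)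
    (hφ : ∀ s t, φ s t ∈ algT θ) (h : ∀ g ∈ H, ∀ s t, (ρ g : Matrix (Fin n) (Fin n) F) s t = φ s t g) :
    ∃ (a b : ℕ) (S : Submodule F ((G ⧸ H) × (Fin a → Fin m) × (Fin b → Fin m) → F))
      (π : S →ₗ[F] (Fin n → F)), Function.Surjective π ∧
      ∀ g (u : S), ∃ h : tact θ H a b g u ∈ S, π ⟨tact θ H a b g u, h⟩ =
        (ρ g : Matrix (Fin n) (Fin n) F) *ᵥ π u := by
  classical
  have := Fintype.ofFinite (G ⧸ H)
  let iV : (Fin n → F) →ₗ[F] (G → F) :=
    { toFun := fun v x => ((ρ x⁻¹ : Matrix (Fin n) (Fin n) F) *ᵥ v) ⟨0, hn⟩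
      map_add' := fun v w => by
        funext x
        rw [Matrix.mulVec_add]
        rfl
      map_smul' := fun c v => by
        funext x
        rw [Matrix.mulVec_smul]
        rfl }
  suffices key : (∀ g v, iV (toEnd ρ g v) = (compHom (F := F) (fun x => g⁻¹ * x)).toLinearMap (iV v)) ∧
      (∀ c g u, psi θ H c (tact θ H c.1 c.2.1 g u) =
        (compHom (F := F) (fun x => g⁻¹ * x)).toLinearMap (psi θ H c u)) ∧
      iV (Pi.single ⟨0, hn⟩ 1) ≠ 0 ∧ iV (Pi.single ⟨0, hn⟩ 1) ∈ ⨆ c, LinearMap.range (psi θ H c) by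
    obtain ⟨k1, k2, k3, k4⟩ := key
    obtain ⟨c, S, π, hπ, hS⟩ := subquot' (C := (a : ℕ) × (b : ℕ) × (Fin a → Fin m) × (Fin b → Fin m))
      (U := fun c => (G ⧸ H) × (Fin c.1 → Fin m) × (Fin c.2.1 → Fin m) → F)
      (V := Fin n → F) (E := G → F)
      (fun g => toEnd ρ g) (fun g => (compHom (F := F) (fun x => g⁻¹ * x)).toLinearMap)
      (fun c g => tact θ H c.1 c.2.1 g)
      (fun W hW => hρ W fun g w hw => by rw [← toEnd_apply]; exact hW g w hw)
      iV k1 (psi θ H) k2 (Pi.single ⟨0, hn⟩ 1) k3 k4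
    refine ⟨c.1, c.2.1, S, π, hπ, fun g u => ?_⟩
    obtain ⟨h1, h2⟩ := hS g u
    exact ⟨h1, by rw [h2, toEnd_apply]⟩
  refine ⟨?_, ?_, ?_, ?_⟩
  · intro g v
    funext x
    show ((ρ x⁻¹ : Matrix (Fin n) (Fin n) F) *ᵥ (toEnd ρ g v)) ⟨0, hn⟩ =
      ((ρ (g⁻¹ * x)⁻¹ : Matrix (Fin n) (Fin n) F) *ᵥ v) ⟨0, hn⟩
    rw [toEnd_apply, Matrix.mulVec_mulVec, _root_.mul_inv_rev, inv_inv, map_mul, Units.val_mul]
  · intro c g u
    funext x
    show tact θ H c.1 c.2.1 x⁻¹ (tact θ H c.1 c.2.1 g u) _ = tact θ H c.1 c.2.1 (g⁻¹ * x)⁻¹ u _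
    rw [← tact_mul, _root_.mul_inv_rev, inv_inv]
  · intro h0
    have h1 := congrFun h0 1
    have h2 : ((ρ (1 : G)⁻¹ : Matrix (Fin n) (Fin n) F) *ᵥ (Pi.single ⟨0, hn⟩ 1)) ⟨0, hn⟩ = 0 := h1
    rw [inv_one, map_one, Units.val_one, Matrix.one_mulVec, Pi.single_eq_same] at h2
    exact one_ne_zero h2
  · have e : (fun x : G => ((ρ x⁻¹ : Matrix (Fin n) (Fin n) F) *ᵥ (Pi.single ⟨0, hn⟩ 1)) ⟨0, hn⟩) =
        ∑ q : G ⧸ H, fun x : G => if (x : G ⧸ H) = q then
          (∑ t, φ ⟨0, hn⟩ t (x⁻¹ * q.out) * ((ρ q.out⁻¹ : Matrix (Fin n) (Fin n) F) *ᵥ (Pi.single ⟨0, hn⟩ 1)) t)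
          else 0 := by
      funext x
      rw [Finset.sum_apply, Finset.sum_eq_single (x : G ⧸ H)]
      · rw [if_pos rfl]
        have hx : x⁻¹ * (x : G ⧸ H).out ∈ H := by
          rw [← QuotientGroup.eq, QuotientGroup.out_eq']
        have e1 : x⁻¹ = (x⁻¹ * (x : G ⧸ H).out) * (x : G ⧸ H).out⁻¹ := by group
        conv_lhs => rw [e1, map_mul, Units.val_mul, ← Matrix.mulVec_mulVec]
        show ∑ t, (ρ (x⁻¹ * (x : G ⧸ H).out) : Matrix (Fin n) (Fin n) F) ⟨0, hn⟩ t *
          ((ρ (x : G ⧸ H).out⁻¹ : Matrix (Fin n) (Fin n) F) *ᵥ (Pi.single ⟨0, hn⟩ 1)) t = _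
        refine Finset.sum_congr rfl fun t _ => ?_
        rw [h _ hx]
      · intro q _ hq
        exact if_neg (Ne.symm hq)
      · simp
    show (fun x : G => ((ρ x⁻¹ : Matrix (Fin n) (Fin n) F) *ᵥ (Pi.single ⟨0, hn⟩ 1)) ⟨0, hn⟩) ∈ _
    rw [e]
    refine Submodule.sum_mem _ fun q _ => mem_iSup_psi θ H q ?_
    refine sum_fun_mem _ fun t => ?_
    simp only [mul_comm _ (((ρ q.out⁻¹ : Matrix (Fin n) (Fin n) F) *ᵥ (Pi.single ⟨0, hn⟩ 1)) t)]
    refine smul_fun_mem _ ?_
    exact inv_mem θ (f := fun x => φ ⟨0, hn⟩ t (x * q.out)) (right_mem θ _ (hφ _ _))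

end Pool.Agent.X320.DS
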