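import Pool.Agent.X320.DS.Noeth
import Pool.Agent.X320.DS.Tens

/-! Algebraic dependence of traces implies algebraic dependence of the representations. -/

set_option autoImplicit false
set_option linter.all false

namespace Pool.Agent.X320.DS

open MeasureTheory Topology Filter NumberField IsDedekindDomain Matrix
open Pool.Agent.W401.Cheb

section

variable {G : Type*} [Group G] [TopologicalSpace G] [IsTopologicalGroup G] {F : Type*} [Field F]
  [TopologicalSpace F] [IsTopologicalRing F] {m : ℕ}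

/-- continuous functions -/
def contAlg (G F : Type*) [TopologicalSpace G] [Field F] [TopologicalSpace F] [IsTopologicalRing F] :
    Subalgebra F (G → F) where
  carrier := {f | Continuous f}
  mul_mem' h1 h2 := Continuous.mul h1 h2
  add_mem' h1 h2 := Continuous.add h1 h2
  algebraMap_mem' c := continuous_const

theorem algT_cont {θ : G →* GL (Fin m) F} (hθ : Continuous θ) : algT θ ≤ contAlg G F := by
  have h1 : ∀ i j, Continuous fun x => (θ x : Matrix (Fin m) (Fin m) F) i j := fun i j =>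
    (Units.continuous_val.comp hθ).matrix_elem i j
  rw [algT, Algebra.adjoin_le_iff]
  rintro _ ⟨s | s, rfl⟩
  · exact h1 s.1 s.2
  · exact (h1 s.1 s.2).comp continuous_inv

theorem algT_fg (θ : G →* GL (Fin m) F) : (algT θ).FG :=
  ⟨(Set.finite_range (gens θ)).toFinset, by rw [Set.Finite.coe_toFinset]; rfl⟩

theorem trace_mem (θ : G →* GL (Fin m) F) : (fun x => (θ x : Matrix (Fin m) (Fin m) F).trace) ∈ algT θ :=
  sum_fun_mem _ fun i => ent_mem θ i i

end

variable {K : Type} [Field K] [NumberField K] {F : Type*} [Field F] [TopologicalSpace F] [IsTopologicalRing F]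
  [T2Space F] {n m : ℕ}

/-- If the traces of Frobenius elements under `ρ` are given by finitely many polynomials in the entries of `θ`, on
a set of places of lower density `> 1 - 1/n²`, then `ρ` is polynomial in `θ` on an open subgroup. -/
theorem alg_dep {ρ : GK K →* GL (Fin n) F} (hρc : Continuous ρ) (hρ : Semisimple ρ)
    (hn : ((n.factorial : ℕ) : F) ≠ 0) {θ : GK K →* GL (Fin m) F} (hθ : Continuous θ) {ι : Type*} [Fintype ι]
    (c : ι → GK K → F) (hc : ∀ j, c j ∈ algT θ)
    {δ : ℝ} (hδ : (1 - δ) * n ^ 2 < 1) (Good : HeightOneSpectrum (𝓞 K) → Prop)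
    (hG : ∀ᶠ M in atTop, δ ≤ dens Good M)
    (hX : ∀ v, Good v → ∀ σ, IsFrob v σ → ∃ j, (ρ σ⁻¹ : Matrix (Fin n) (Fin n) F).trace = c j σ⁻¹) :
    ∃ H : Subgroup (GK K), IsOpen (H : Set (GK K)) ∧ ∃ φ : Fin n → Fin n → GK K → F, (∀ s t, φ s t ∈ algT θ) ∧
      ∀ g ∈ H, ∀ s t, (ρ g : Matrix (Fin n) (Fin n) F) s t = φ s t g := by
  classical
  letI : MeasurableSpace (GK K) := borel _
  haveI : BorelSpace (GK K) := ⟨rfl⟩
  set μ : Measure (GK K) := Measure.haarMeasure (⊤ : TopologicalSpace.PositiveCompacts (GK K)) with hμ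
  haveI : IsProbabilityMeasure μ := ⟨by
    have := Measure.haarMeasure_self (K₀ := (⊤ : TopologicalSpace.PositiveCompacts (GK K)))
    rw [hμ]
    rwa [TopologicalSpace.PositiveCompacts.coe_top] at this⟩
  set A : Subalgebra F (GK K → F) := algT ρ ⊔ algT θ with hA
  have hρA : algT ρ ≤ A := le_sup_left
  have hθA : algT θ ≤ A := le_sup_right
  have hAc : A ≤ contAlg (GK K) F := sup_le (algT_cont hρc) (algT_cont hθ)
  haveI hAN : IsNoetherianRing A := by
    have h1 : A.FG := (algT_fg ρ).sup (algT_fg θ)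
    haveI : Algebra.FiniteType F A := A.fg_iff_finiteType.1 h1
    exact Algebra.FiniteType.isNoetherianRing F A
  have hcl : ∀ f ∈ A, IsClosed {x | f x = 0} := fun f hf => isClosed_singleton.preimage (hAc hf)
  have htr : ∀ g : GK K, ∀ f ∈ A, (fun x => f (g * x)) ∈ A := by
    intro g f hf
    have h1 : A ≤ A.comap (compHom fun x => g * x) :=
      sup_le (fun f hf => hρA (left_mem ρ g hf)) (fun f hf => hθA (left_mem θ g hf))
    exact h1 hf
  obtain ⟨r, g, B, hr, hB⟩ := exists_dual hρ hn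
  set H : Set (GK K) := {g | ∃ j, (ρ g : Matrix (Fin n) (Fin n) F).trace = c j g} with hH
  have hHcl : IsClosed H := by
    have e : H = ⋃ j, {g | (ρ g : Matrix (Fin n) (Fin n) F).trace - c j g = 0} := by
      ext g
      simp [hH, sub_eq_zero]
    rw [e]
    exact isClosed_iUnion_of_finite fun j => hcl _ (A.sub_mem (hρA (trace_mem ρ)) (hθA (hc j)))
  have hδ1 : δ ≤ 1 := delta_le_one hG
  rcases Nat.eq_zero_or_pos r with hr0 | hr0
  · -- no elements: `ρ` is zero
    subst hr0
    refine ⟨⊤, isOpen_univ, fun _ _ => 0, fun _ _ => (algT θ).zero_mem, fun x _ s t => ?_⟩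
    rw [hB x]
    simp
  have hr1 : (1 : ℝ) ≤ (r : ℝ) := by exact_mod_cast hr0
  have hrn : (r : ℝ) ≤ (n : ℝ) ^ 2 := by exact_mod_cast hr
  have hδ0 : 0 < δ := by nlinarith
  obtain ⟨hZcl, hZμ⟩ := measure_inter μ hδ0.le Good hG H hHcl hX g
  set Z : Set (GK K) := ⋂ i, (fun x => g i * x) ⁻¹' H with hZ
  have hZpos : 0 < (μ Z).toReal := by nlinarith
  have hZ0 : μ Z ≠ 0 := fun h => by
    rw [h, ENNReal.toReal_zero] at hZpos
    exact lt_irrefl _ hZpos
  -- one of the finitely many systems of equations has positive measure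
  let S : (Fin r → ι) → Set (GK K → F) := fun y =>
    Set.range fun i => fun x => (ρ (g i * x) : Matrix (Fin n) (Fin n) F).trace - c (y i) (g i * x)
  have hSA : ∀ y, ∀ f ∈ S y, f ∈ A := by
    rintro y _ ⟨i, rfl⟩
    exact A.sub_mem (hρA (left_mem ρ (g i) (trace_mem ρ))) (hθA (left_mem θ (g i) (hc (y i))))
  have hcov : Z ⊆ ⋃ y, {x | ∀ f ∈ S y, f x = 0} := by
    intro x hx
    rw [hZ, Set.mem_iInter] at hx
    choose y hy using hx
    refine Set.mem_iUnion.2 ⟨y, ?_⟩
    rintro _ ⟨i, rfl⟩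
    exact sub_eq_zero.2 (hy i)
  obtain ⟨y, hy⟩ : ∃ y, μ {x | ∀ f ∈ S y, f x = 0} ≠ 0 := by
    by_contra h
    push Not at h
    apply hZ0
    exact le_antisymm ((measure_mono hcov).trans (le_of_eq (measure_iUnion_null h))) zero_le
  obtain ⟨H0, hH0, x0, hx0⟩ := exists_coset μ A hcl htr (S y) (hSA y) hy
  refine ⟨H0, hH0, fun s t x => ∑ i, ∑ l, c (y i) (g i * (x * x0)) * (B i s l * (ρ x0⁻¹ : Matrix (Fin n) (Fin n) F) l t),
    fun s t => ?_, fun x hx s t => ?_⟩
  · refine sum_fun_mem _ fun i => sum_fun_mem _ fun l => ?_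
    simp only [mul_comm _ (B i s l * (ρ x0⁻¹ : Matrix (Fin n) (Fin n) F) l t)]
    refine smul_fun_mem _ ?_
    exact right_mem θ x0 (f := fun x => c (y i) (g i * x)) (left_mem θ (g i) (hc (y i)))
  · have h1 : (ρ x : Matrix (Fin n) (Fin n) F) = (ρ (x * x0) : Matrix (Fin n) (Fin n) F) * ρ x0⁻¹ := by
      rw [← Units.val_mul, ← map_mul, mul_inv_cancel_right]
    rw [h1, hB (x * x0), Finset.sum_mul, Matrix.sum_apply]
    refine Finset.sum_congr rfl fun i _ => ?_
    rw [Matrix.smul_mul, Matrix.smul_apply, Matrix.mul_apply, smul_eq_mul, Finset.mul_sum]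
    refine Finset.sum_congr rfl fun l _ => ?_
    have h2 := hx0 x hx _ ⟨i, rfl⟩
    rw [sub_eq_zero.1 h2]

end Pool.Agent.X320.DS
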