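import Pool.Agent.W528.Ord.Dens
import Pool.Agent.W401.Cheb.Frob
import Pool.Agent.X320.DS.Trace

/-! If the traces of Frobenius take few values on a set of primes of large lower density, then the image is
small. -/

set_option autoImplicit false
set_option linter.all false

namespace Pool.Agent.X320.DS

open MeasureTheory Topology Filter NumberField IsDedekindDomain
open Pool.Agent.W401.Cheb
open Pool.Agent.W528.Ord (dens_mono dens_nonneg chebK measure_union measure_U)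
open scoped Pointwise

section profinite

variable {G : Type*} [Group G] [TopologicalSpace G] [IsTopologicalGroup G] [CompactSpace G]
  [T2Space G] [TotallyDisconnectedSpace G] [MeasurableSpace G] [BorelSpace G]

/-- a closed set which is large modulo every open normal subgroup has large measure -/
theorem measure_closed (μ : Measure G) [IsProbabilityMeasure μ] [μ.IsMulLeftInvariant] [μ.Regular]
    (Z : Set G) (hZ : IsClosed Z) (δ : ℝ) (h : ∀ U : Subgroup G, U.Normal → IsOpen (U : Set G) →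
      δ * (Nat.card (G ⧸ U) : ℝ) ≤ (((QuotientGroup.mk : G → G ⧸ U) '' Z).ncard : ℝ)) :
    ENNReal.ofReal δ ≤ μ Z := by
  rw [Set.measure_eq_iInf_isOpen Z μ]
  refine le_iInf₂ fun O hZO => le_iInf fun hO => ?_
  obtain ⟨V, hV, hZV⟩ := compact_open_separated_mul_right hZ.isCompact hO hZO
  obtain ⟨W, hWV, hW, hW1⟩ := mem_nhds_iff.mp hV
  obtain ⟨U, hU⟩ := ProfiniteGrp.exist_openNormalSubgroup_sub_open_nhds_of_one hW hW1
  have hUo : IsOpen (U.toSubgroup : Set G) := U.isOpen'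
  have hfin : Finite (G ⧸ U.toSubgroup) := Subgroup.quotient_finite_of_isOpen _ hUo
  have h1 := measure_union μ U.toSubgroup hUo ((QuotientGroup.mk : G → G ⧸ U.toSubgroup) '' Z)
  have h2 := measure_U μ U.toSubgroup hUo
  have h3 : μ {x | (QuotientGroup.mk x : G ⧸ U.toSubgroup) ∈
      ((QuotientGroup.mk : G → G ⧸ U.toSubgroup) '' Z)} ≤ μ O := by
    refine measure_mono ?_
    rintro x ⟨z, hz, hzx⟩
    apply hZV
    rw [QuotientGroup.eq] at hzx
    refine Set.mem_mul.mpr ⟨z, hz, z⁻¹ * x, hWV (hU hzx), by group⟩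
  refine le_trans ?_ h3
  rw [h1]
  have h4 := h U.toSubgroup U.isNormal' hUo
  have h5 : ENNReal.ofReal δ * (Nat.card (G ⧸ U.toSubgroup) : ENNReal) ≤
      ((((QuotientGroup.mk : G → G ⧸ U.toSubgroup) '' Z).ncard : ℕ) : ENNReal) := by
    rw [← ENNReal.ofReal_natCast, ← ENNReal.ofReal_natCast, ← ENNReal.ofReal_mul' (Nat.cast_nonneg _)]
    exact ENNReal.ofReal_le_ofReal h4
  calc ENNReal.ofReal δ = ENNReal.ofReal δ * ((Nat.card (G ⧸ U.toSubgroup) : ENNReal) * μ U.toSubgroup) := by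
        rw [h2, mul_one]
    _ = ENNReal.ofReal δ * (Nat.card (G ⧸ U.toSubgroup) : ENNReal) * μ U.toSubgroup := by rw [mul_assoc]
    _ ≤ _ := mul_le_mul_left h5 _

/-- a subgroup of positive measure has finite index -/
theorem index_mul_le (μ : Measure G) [IsProbabilityMeasure μ] [μ.IsMulLeftInvariant]
    (N : Subgroup G) (hN : IsClosed (N : Set G)) (T : Finset (G ⧸ N)) : (T.card : ENNReal) * μ N ≤ 1 := by
  classical
  have h1 : ∀ q : G ⧸ N, μ {x | (QuotientGroup.mk x : G ⧸ N) = q} = μ N ∧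
      MeasurableSet {x | (QuotientGroup.mk x : G ⧸ N) = q} := by
    intro q
    obtain ⟨g, rfl⟩ := QuotientGroup.mk_surjective q
    have e : {x | (QuotientGroup.mk x : G ⧸ N) = QuotientGroup.mk g} = (fun x => g⁻¹ * x) ⁻¹' (N : Set G) := by
      ext x
      simp only [Set.mem_ofPred_eq, Set.mem_preimage, SetLike.mem_coe]
      rw [eq_comm, QuotientGroup.eq]
    rw [e]
    exact ⟨measure_preimage_mul _ _ _, (hN.preimage (continuous_const_mul g⁻¹)).measurableSet⟩
  have h2 : μ (⋃ q ∈ T, {x | (QuotientGroup.mk x : G ⧸ N) = q}) = ∑ q ∈ T, μ {x | (QuotientGroup.mk x : G ⧸ N) = q} := by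
    refine measure_biUnion_finset ?_ fun q _ => (h1 q).2
    intro q _ q' _ hqq
    rw [Function.onFun, Set.disjoint_left]
    intro x hx hx'
    exact hqq (hx.symm.trans hx')
  rw [Finset.sum_congr rfl (fun q _ => (h1 q).1), Finset.sum_const, nsmul_eq_mul] at h2
  rw [← h2]
  exact prob_le_one

end profinite

section field

variable {K : Type} [Field K] [NumberField K]

theorem dens_disj {P Q : HeightOneSpectrum (𝓞 K) → Prop} (h : ∀ v, P v → ¬ Q v) (N : ℕ) :
    dens P N + dens Q N ≤ dens (fun _ : HeightOneSpectrum (𝓞 K) => True) N := by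
  unfold dens
  rw [← add_div]
  apply div_le_div_of_nonneg_right _ (Nat.cast_nonneg _)
  have hf : {v : HeightOneSpectrum (𝓞 K) | Ideal.absNorm v.asIdeal ≤ N}.Finite :=
    Pool.Agent.W352.ChAbs.finite_le (K := K) N
  have hP : {v : HeightOneSpectrum (𝓞 K) | Ideal.absNorm v.asIdeal ≤ N ∧ P v}.Finite :=
    hf.subset fun v hv => hv.1
  have hQ : {v : HeightOneSpectrum (𝓞 K) | Ideal.absNorm v.asIdeal ≤ N ∧ Q v}.Finite :=
    hf.subset fun v hv => hv.1
  have hT : {v : HeightOneSpectrum (𝓞 K) | Ideal.absNorm v.asIdeal ≤ N ∧ True}.Finite :=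
    hf.subset fun v hv => hv.1
  have hd : Disjoint {v : HeightOneSpectrum (𝓞 K) | Ideal.absNorm v.asIdeal ≤ N ∧ P v}
      {v : HeightOneSpectrum (𝓞 K) | Ideal.absNorm v.asIdeal ≤ N ∧ Q v} := by
    rw [Set.disjoint_left]
    rintro v ⟨_, h1⟩ ⟨_, h2⟩
    exact h v h1 h2
  have h1 := Set.ncard_union_eq hd hP hQ
  have h2 := Set.ncard_le_ncard (s := {v : HeightOneSpectrum (𝓞 K) | Ideal.absNorm v.asIdeal ≤ N ∧ P v} ∪
      {v : HeightOneSpectrum (𝓞 K) | Ideal.absNorm v.asIdeal ≤ N ∧ Q v})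
      (t := {v : HeightOneSpectrum (𝓞 K) | Ideal.absNorm v.asIdeal ≤ N ∧ True})
      (by rintro v (hv | hv) <;> exact ⟨hv.1, trivial⟩) hT
  rw [h1] at h2
  exact_mod_cast h2

theorem dens_all : Tendsto (dens fun _ : HeightOneSpectrum (𝓞 K) => True) atTop (𝓝 1) := by
  have h := chebK K ⊤ isOpen_univ Set.univ (fun _ _ _ => Set.mem_univ _) (fun _ _ _ _ => Set.mem_univ _)
  have h1 : (((QuotientGroup.mk : GK K → GK K ⧸ (⊤ : Subgroup (GK K))) '' Set.univ).ncard : ℝ) /
      (Nat.card (GK K ⧸ (⊤ : Subgroup (GK K))) : ℝ) = 1 := by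
    rw [Set.image_univ, Set.range_eq_univ.2 QuotientGroup.mk_surjective, Set.ncard_univ]
    exact div_self (by exact_mod_cast Nat.card_pos.ne')
  rw [h1] at h
  have e : (fun v : HeightOneSpectrum (𝓞 K) => ∃ σ ∈ (Set.univ : Set (GK K)), IsFrob v σ) = fun _ => True := by
    funext v
    refine eq_true ?_
    obtain ⟨σ, hσ⟩ := Pool.Agent.W401.Frob.exists_frob v
    exact ⟨σ, Set.mem_univ _, hσ⟩
  rwa [e] at h

/-- **Chebotarev.** If no prime in a set of lower density at least `δ` has a Frobenius element whose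
inverse lies in `C`, then `C` has at most the proportion `1 - δ` modulo `U`. -/
theorem cheb_count (Good : HeightOneSpectrum (𝓞 K) → Prop) {δ : ℝ}
    (hG : ∀ᶠ N in atTop, δ ≤ dens Good N) (U : Subgroup (GK K)) [U.Normal] (hU : IsOpen (U : Set (GK K)))
    (H : Set (GK K)) (hH : ∀ σ ∈ H, ∀ τ : GK K, τ * σ * τ⁻¹ ∈ H)
    (hX : ∀ v, Good v → ∀ σ, IsFrob v σ → σ⁻¹ ∈ H) :
    δ * (Nat.card (GK K ⧸ U) : ℝ) ≤ (((QuotientGroup.mk : GK K → GK K ⧸ U) '' H).ncard : ℝ) := by
  classical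
  have hfin : Finite (GK K ⧸ U) := Subgroup.quotient_finite_of_isOpen _ hU
  set m : GK K → GK K ⧸ U := QuotientGroup.mk with hm
  set C : Set (GK K) := {σ | m σ⁻¹ ∉ m '' H} with hC
  have key := chebK K U hU C ?_ ?_
  · have hle : ∀ᶠ N in atTop, dens (fun v : HeightOneSpectrum (𝓞 K) => ∃ σ ∈ C, IsFrob v σ) N + δ ≤
        dens (fun _ : HeightOneSpectrum (𝓞 K) => True) N := by
      filter_upwards [hG] with N hN
      have h1 := dens_disj (P := fun v : HeightOneSpectrum (𝓞 K) => ∃ σ ∈ C, IsFrob v σ) (Q := Good) ?_ N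
      · linarith
      · rintro v ⟨σ, hσ, hv⟩ hg
        exact hσ ⟨σ⁻¹, hX v hg σ hv, rfl⟩
    have h2 := le_of_tendsto_of_tendsto (key.add_const δ) dens_all hle
    have hinv : (m '' C).ncard = (m '' H)ᶜ.ncard := by
      have e : m '' C = (fun q : GK K ⧸ U => q⁻¹) '' (m '' H)ᶜ := by
        ext q
        constructor
        · rintro ⟨σ, hσ, rfl⟩
          exact ⟨m σ⁻¹, hσ, by rw [hm]; simp⟩
        · rintro ⟨q', hq', rfl⟩
          obtain ⟨τ, rfl⟩ := QuotientGroup.mk_surjective q'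
          refine ⟨τ⁻¹, ?_, rfl⟩
          show m (τ⁻¹)⁻¹ ∉ m '' H
          rw [inv_inv]
          exact hq'
      rw [e, Set.ncard_image_of_injective _ inv_injective]
    rw [hinv] at h2
    have h3 : (m '' H).ncard + (m '' H)ᶜ.ncard = Nat.card (GK K ⧸ U) :=
      Set.ncard_add_ncard_compl _
    have hpos : (0 : ℝ) < (Nat.card (GK K ⧸ U) : ℝ) := by exact_mod_cast Nat.card_pos
    have h4 : ((m '' H).ncard : ℝ) + ((m '' H)ᶜ.ncard : ℝ) = (Nat.card (GK K ⧸ U) : ℝ) := by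
      exact_mod_cast h3
    have h5 : δ ≤ ((m '' H).ncard : ℝ) / (Nat.card (GK K ⧸ U) : ℝ) := by
      have h6 : ((m '' H)ᶜ.ncard : ℝ) / (Nat.card (GK K ⧸ U) : ℝ) =
          1 - ((m '' H).ncard : ℝ) / (Nat.card (GK K ⧸ U) : ℝ) := by
        rw [eq_sub_iff_add_eq, ← add_div, add_comm, h4, div_self hpos.ne']
      rw [h6] at h2
      linarith
    rwa [le_div_iff₀ hpos] at h5
  · rintro σ hσ τ ⟨h, hh, hhσ⟩
    apply hσ
    refine ⟨τ⁻¹ * h * τ⁻¹⁻¹, hH h hh τ⁻¹, ?_⟩
    have e1 : m (τ⁻¹ * h * τ⁻¹⁻¹) = m τ⁻¹ * m h * (m τ⁻¹)⁻¹ := rfl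
    have e2 : m (τ * σ * τ⁻¹)⁻¹ = m τ * m σ⁻¹ * (m τ)⁻¹ := by
      have : (τ * σ * τ⁻¹)⁻¹ = τ * σ⁻¹ * τ⁻¹ := by group
      rw [this]
      rfl
    have e3 : m τ⁻¹ = (m τ)⁻¹ := rfl
    rw [e1, hhσ, e2, e3]
    group
  · rintro σ hσ u hu ⟨h, hh, hhσ⟩
    apply hσ
    refine ⟨h, hh, ?_⟩
    rw [hhσ]
    have e : (σ * u)⁻¹ = u⁻¹ * σ⁻¹ := by group
    have e2 : m (u⁻¹ * σ⁻¹) = m u⁻¹ * m σ⁻¹ := rfl
    have e3 : m u⁻¹ = 1 := (QuotientGroup.eq_one_iff _).2 (U.inv_mem hu)
    rw [e, e2, e3, one_mul]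

variable {k : Type*} [Field k] {n : ℕ}

theorem trace_conj (ρ : GK K →* Matrix.GeneralLinearGroup (Fin n) k) (σ τ : GK K) :
    (ρ (τ * σ * τ⁻¹) : Matrix (Fin n) (Fin n) k).trace = (ρ σ : Matrix (Fin n) (Fin n) k).trace := by
  rw [map_mul, map_mul, Units.val_mul, Units.val_mul, Matrix.trace_mul_comm, ← mul_assoc, ← Units.val_mul,
    ← map_mul, inv_mul_cancel, map_one, Units.val_one, one_mul]

/-- **Few traces.** -/
theorem main1 {ρ : GK K →* Matrix.GeneralLinearGroup (Fin n) k} (hρ : Semisimple ρ)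
    (hn : ((n.factorial : ℕ) : k) ≠ 0)
    (hcl : ∀ c : k, IsClosed {g | (ρ g : Matrix (Fin n) (Fin n) k).trace = c})
    (X : Finset k) {δ : ℝ} (hδ : (1 - δ) * n ^ 2 < 1) (Good : HeightOneSpectrum (𝓞 K) → Prop)
    (hG : ∀ᶠ N in atTop, δ ≤ dens Good N)
    (hX : ∀ v, Good v → ∀ σ, IsFrob v σ → (ρ σ⁻¹ : Matrix (Fin n) (Fin n) k).trace ∈ X) :
    (Set.range ρ).Finite ∧
      (((Set.range ρ).ncard : ℝ) * (1 - (1 - δ) * n ^ 2) ≤ ((X.card : ℝ) + 1) ^ (n ^ 2)) := by
  classical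
  letI : MeasurableSpace (GK K) := borel _
  haveI : BorelSpace (GK K) := ⟨rfl⟩
  set μ : Measure (GK K) := Measure.haarMeasure (⊤ : TopologicalSpace.PositiveCompacts (GK K)) with hμ
  haveI : IsProbabilityMeasure μ := ⟨by
    have := Measure.haarMeasure_self (K₀ := (⊤ : TopologicalSpace.PositiveCompacts (GK K)))
    rw [hμ]
    rwa [TopologicalSpace.PositiveCompacts.coe_top] at this⟩
  have hδ1 : δ ≤ 1 := by
    refine le_of_tendsto_of_tendsto tendsto_const_nhds (dens_all (K := K)) (hG.mono fun N hN => hN.trans ?_)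
    exact dens_mono (P := Good) (Q := fun _ : HeightOneSpectrum (𝓞 K) => True) (fun _ _ => trivial) N
  set H : Set (GK K) := {g | (ρ g : Matrix (Fin n) (Fin n) k).trace ∈ X} with hH
  have hHcl : IsClosed H := by
    have e : H = ⋃ c ∈ X, {g | (ρ g : Matrix (Fin n) (Fin n) k).trace = c} := by
      ext g
      simp [hH]
    rw [e]
    exact X.finite_toSet.isClosed_biUnion fun c _ => hcl c
  have hHμ : ENNReal.ofReal δ ≤ μ H := by
    refine measure_closed μ H hHcl δ fun U hUn hU => ?_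
    haveI := hUn
    refine cheb_count Good hG U hU H (fun σ hσ τ => ?_) fun v hv σ hσ => hX v hv σ hσ
    show (ρ (τ * σ * τ⁻¹) : Matrix (Fin n) (Fin n) k).trace ∈ X
    rw [trace_conj]
    exact hσ
  obtain ⟨r, g, hr, hg⟩ := exists_basis hρ hn
  -- the kernel is closed
  set N : Subgroup (GK K) := ρ.ker with hN
  have hNcl : IsClosed (N : Set (GK K)) := by
    have e : (N : Set (GK K)) = ⋂ i, (fun x => g i * x) ⁻¹'
        {x | (ρ x : Matrix (Fin n) (Fin n) k).trace = (ρ (g i) : Matrix (Fin n) (Fin n) k).trace} := by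
      ext x
      simp only [Set.mem_iInter, Set.mem_preimage, Set.mem_ofPred_eq, SetLike.mem_coe, hN,
        MonoidHom.mem_ker]
      constructor
      · intro hx i
        rw [map_mul, hx, mul_one]
      · intro hx
        have h1 := hg x 1 fun i => by rw [hx i, mul_one]
        rwa [map_one] at h1
    rw [e]
    exact isClosed_iInter fun i => (hcl _).preimage (continuous_const_mul _)
  -- the set on which all traces are in `X`
  set Z : Set (GK K) := ⋂ i, (fun x => g i * x) ⁻¹' H with hZ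
  have hZc : μ Zᶜ ≤ r * ENNReal.ofReal (1 - δ) := by
    have e : Zᶜ = ⋃ i, ((fun x => g i * x) ⁻¹' H)ᶜ := by rw [hZ, Set.compl_iInter]
    rw [e]
    refine (measure_iUnion_fintype_le _ _).trans ?_
    have h1 : ∀ i, μ ((fun x => g i * x) ⁻¹' H)ᶜ ≤ ENNReal.ofReal (1 - δ) := by
      intro i
      rw [← Set.preimage_compl, measure_preimage_mul, prob_compl_eq_one_sub hHcl.measurableSet,
        ENNReal.ofReal_sub _ (by
          by_contra h
          push Not at h
          have hn0 : (0 : ℝ) ≤ (n : ℝ) ^ 2 := by positivity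
          have hi : 1 ≤ r := Nat.one_le_iff_ne_zero.2 (fun h0 => by subst h0; exact i.elim0)
          have : (1 : ℝ) ≤ (n : ℝ) ^ 2 := by exact_mod_cast hi.trans hr
          nlinarith), ENNReal.ofReal_one]
      exact tsub_le_tsub_left hHμ 1
    refine (Finset.sum_le_sum fun i _ => h1 i).trans ?_
    rw [Finset.sum_const, Finset.card_univ, Fintype.card_fin, nsmul_eq_mul]
  have hZN : μ Z ≤ ((X.card + 1 : ℕ) : ENNReal) ^ r * μ N := by
    have hsub : Z ⊆ ⋃ y : Fin r → X, {x | ∀ i, (ρ (g i * x) : Matrix (Fin n) (Fin n) k).trace = y i} := by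
      intro x hx
      rw [hZ, Set.mem_iInter] at hx
      exact Set.mem_iUnion.2 ⟨fun i => ⟨_, hx i⟩, fun i => rfl⟩
    refine (measure_mono hsub).trans ((measure_iUnion_fintype_le _ _).trans ?_)
    have h1 : ∀ y : Fin r → X,
        μ {x | ∀ i, (ρ (g i * x) : Matrix (Fin n) (Fin n) k).trace = y i} ≤ μ N := by
      intro y
      rcases Set.eq_empty_or_nonempty
        {x | ∀ i, (ρ (g i * x) : Matrix (Fin n) (Fin n) k).trace = y i} with h | ⟨x0, hx0⟩
      · rw [h, measure_empty]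
        exact zero_le
      · rw [← measure_preimage_mul μ x0⁻¹ (N : Set (GK K))]
        refine measure_mono fun x hx => ?_
        have h2 := hg x x0 fun i => (hx i).trans (hx0 i).symm
        show x0⁻¹ * x ∈ N
        rw [hN, MonoidHom.mem_ker, map_mul, h2, ← map_mul, inv_mul_cancel, map_one]
    refine (Finset.sum_le_sum fun y _ => h1 y).trans ?_
    rw [Finset.sum_const, Finset.card_univ, nsmul_eq_mul, Fintype.card_fun, Fintype.card_coe,
      Fintype.card_fin]
    gcongr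
    push_cast
    gcongr
    exact le_self_add
  -- conclusion
  have hZ1 : (1 : ENNReal) ≤ r * ENNReal.ofReal (1 - δ) + ((X.card + 1 : ℕ) : ENNReal) ^ r * μ N := by
    have h1 : (1 : ENNReal) ≤ μ Z + μ Zᶜ := by
      rw [← measure_univ (μ := μ), ← Set.union_compl_self Z]
      exact measure_union_le _ _
    calc (1 : ENNReal) ≤ μ Z + μ Zᶜ := h1
      _ ≤ ((X.card + 1 : ℕ) : ENNReal) ^ r * μ N + r * ENNReal.ofReal (1 - δ) := add_le_add hZN hZc
      _ = _ := add_comm _ _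
  set t : ℝ := (μ N).toReal with ht
  have hZ2 : (1 : ℝ) ≤ r * (1 - δ) + ((X.card : ℝ) + 1) ^ r * t := by
    have h1 := (ENNReal.toReal_le_toReal ENNReal.one_ne_top (by
      refine ENNReal.add_ne_top.2 ⟨ENNReal.mul_ne_top (ENNReal.natCast_ne_top _) ENNReal.ofReal_ne_top,
        ENNReal.mul_ne_top (ENNReal.pow_ne_top (ENNReal.natCast_ne_top _)) (measure_ne_top _ _)⟩)).2 hZ1
    rw [ENNReal.toReal_add (ENNReal.mul_ne_top (ENNReal.natCast_ne_top _) ENNReal.ofReal_ne_top)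
      (ENNReal.mul_ne_top (ENNReal.pow_ne_top (ENNReal.natCast_ne_top _)) (measure_ne_top _ _)),
      ENNReal.toReal_mul, ENNReal.toReal_mul, ENNReal.toReal_pow, ENNReal.toReal_natCast,
      ENNReal.toReal_natCast, ENNReal.toReal_ofReal (by linarith), ENNReal.toReal_one] at h1
    push_cast at h1
    exact h1
  have hrn : (r : ℝ) ≤ (n : ℝ) ^ 2 := by exact_mod_cast hr
  have h1δ : 0 ≤ 1 - δ := by linarith
  have hpow : ((X.card : ℝ) + 1) ^ r ≤ ((X.card : ℝ) + 1) ^ (n ^ 2) :=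
    pow_le_pow_right₀ (by linarith [Nat.cast_nonneg (α := ℝ) X.card]) hr
  have ht0 : 0 ≤ t := ENNReal.toReal_nonneg
  have hA : 1 - (1 - δ) * n ^ 2 ≤ ((X.card : ℝ) + 1) ^ (n ^ 2) * t := by
    have h1 : (r : ℝ) * (1 - δ) ≤ (1 - δ) * n ^ 2 := by nlinarith
    have h2 : ((X.card : ℝ) + 1) ^ r * t ≤ ((X.card : ℝ) + 1) ^ (n ^ 2) * t :=
      mul_le_mul_of_nonneg_right hpow ht0
    linarith
  have hkey : ∀ T : Finset (GK K ⧸ N), (T.card : ℝ) * (1 - (1 - δ) * n ^ 2) ≤ ((X.card : ℝ) + 1) ^ (n ^ 2) := by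
    intro T
    have h1 := index_mul_le μ N hNcl T
    have h2 := (ENNReal.toReal_le_toReal (ENNReal.mul_ne_top (ENNReal.natCast_ne_top _)
      (measure_ne_top _ _)) ENNReal.one_ne_top).2 h1
    rw [ENNReal.toReal_mul, ENNReal.toReal_natCast, ENNReal.toReal_one] at h2
    have h3 : (T.card : ℝ) * (1 - (1 - δ) * n ^ 2) ≤ (T.card : ℝ) * (((X.card : ℝ) + 1) ^ (n ^ 2) * t) :=
      mul_le_mul_of_nonneg_left hA (Nat.cast_nonneg _)
    have h4 : (T.card : ℝ) * (((X.card : ℝ) + 1) ^ (n ^ 2) * t) = ((X.card : ℝ) + 1) ^ (n ^ 2) * (T.card * t) := by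
      ring
    have h5 : ((X.card : ℝ) + 1) ^ (n ^ 2) * (T.card * t) ≤ ((X.card : ℝ) + 1) ^ (n ^ 2) * 1 :=
      mul_le_mul_of_nonneg_left h2 (by positivity)
    linarith
  have hfinQ : Finite (GK K ⧸ N) := by
    by_contra hinf
    rw [not_finite_iff_infinite] at hinf
    obtain ⟨m, hm⟩ := exists_nat_gt (((X.card : ℝ) + 1) ^ (n ^ 2) / (1 - (1 - δ) * n ^ 2))
    obtain ⟨T, hT⟩ := Infinite.exists_subset_card_eq (GK K ⧸ N) m
    have h1 := hkey T
    rw [hT] at h1
    rw [div_lt_iff₀ (by linarith)] at hm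
    linarith
  letI : Fintype (GK K ⧸ N) := Fintype.ofFinite _
  let e := QuotientGroup.quotientKerEquivRange ρ
  have hfr : Finite ρ.range := Finite.of_equiv _ e.toEquiv
  refine ⟨Set.finite_coe_iff.1 hfr, ?_⟩
  have h1 := hkey Finset.univ
  have h2 : (Set.range ρ).ncard = (Finset.univ : Finset (GK K ⧸ N)).card := by
    rw [Finset.card_univ, ← Nat.card_eq_fintype_card]
    have h3 : Nat.card ρ.range = (Set.range ρ).ncard := rfl
    rw [← h3]
    exact (Nat.card_congr e.toEquiv).symm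
  rw [h2]
  exact h1

end field

end Pool.Agent.X320.DS
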