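import Pool.Agent.X320.DS.Rel

/-! A subset of positive measure defined by polynomial equations contains a coset of an open subgroup. -/

set_option autoImplicit false
set_option linter.all false

namespace Pool.Agent.X320.DS

open MeasureTheory Topology Filter
open scoped Pointwise

section

variable {G : Type*} [Group G] [TopologicalSpace G] [IsTopologicalGroup G] [CompactSpace G]
  [MeasurableSpace G] [BorelSpace G]

theorem exists_coset (μ : Measure G) [IsProbabilityMeasure μ] [μ.IsMulLeftInvariant]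
    {F : Type*} [Field F] (A : Subalgebra F (G → F)) [IsNoetherianRing A]
    (hcl : ∀ f ∈ A, IsClosed {x | f x = 0}) (htr : ∀ g : G, ∀ f ∈ A, (fun x => f (g * x)) ∈ A)
    (S : Set (G → F)) (hS : ∀ f ∈ S, f ∈ A) (hμ : μ {x | ∀ f ∈ S, f x = 0} ≠ 0) :
    ∃ H : Subgroup G, IsOpen (H : Set G) ∧ ∃ x, ∀ h ∈ H, ∀ f ∈ S, f (h * x) = 0 := by
  classical
  -- zero sets
  let Z : Ideal A → Set G := fun I => {x | ∀ f ∈ I, f.1 x = 0}
  let I0 : Ideal A := Ideal.span {f | f.1 ∈ S}
  have hI0 : Z I0 = {x | ∀ f ∈ S, f x = 0} := by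
    ext x
    constructor
    · intro hx f hf
      exact hx ⟨f, hS f hf⟩ (Ideal.subset_span hf)
    · intro hx f hf
      refine Submodule.span_induction (p := fun f _ => f.1 x = 0) ?_ ?_ ?_ ?_ hf
      · intro f hf
        exact hx _ hf
      · rfl
      · intro a b _ _ ha hb
        show a.1 x + b.1 x = 0
        rw [ha, hb, add_zero]
      · intro a b _ hb
        show a.1 x * b.1 x = 0
        rw [hb, mul_zero]
  have hwf : WellFounded ((· > ·) : Ideal A → Ideal A → Prop) := wellFounded_gt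
  obtain ⟨I, ⟨hI1, hI2⟩, hmax⟩ := hwf.has_min {I | I0 ≤ I ∧ μ (Z I) ≠ 0} ⟨I0, le_rfl, by rw [hI0]; exact hμ⟩
  have hZcl : ∀ J, IsClosed (Z J) := by
    intro J
    have e : Z J = ⋂ f : J, {x | f.1.1 x = 0} := by
      ext x
      simp [Z]
    rw [e]
    exact isClosed_iInter fun f => hcl _ f.1.2
  -- translation of ideals
  let L : G → (A →+* A) := fun g =>
    { toFun := fun f => ⟨fun x => f.1 (g * x), htr g f.1 f.2⟩
      map_one' := rfl
      map_mul' := fun _ _ => rfl
      map_zero' := rfl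
      map_add' := fun _ _ => rfl }
  have hL : ∀ g (f : A) x, (L g f).1 x = f.1 (g * x) := fun _ _ _ => rfl
  have htrans : ∀ g, Z (I.comap (L g)) = {x | g⁻¹ * x ∈ Z I} := by
    intro g
    ext x
    constructor
    · intro hx f hf
      have h1 : L g⁻¹ f ∈ I.comap (L g) := by
        rw [Ideal.mem_comap]
        have e : L g (L g⁻¹ f) = f := by
          apply Subtype.ext
          funext y
          rw [hL, hL, inv_mul_cancel_left]
        rwa [e]
      have h2 := hx _ h1
      rwa [hL] at h2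
    · intro hx f hf
      have h1 := hx (L g f) hf
      rwa [hL, mul_inv_cancel_left] at h1
  have hinter : ∀ I J, Z (I ⊔ J) = Z I ∩ Z J := by
    intro I J
    ext x
    constructor
    · intro hx
      exact ⟨fun f hf => hx f (Ideal.mem_sup_left hf), fun f hf => hx f (Ideal.mem_sup_right hf)⟩
    · rintro ⟨h1, h2⟩ f hf
      obtain ⟨a, ha, b, hb, rfl⟩ := Submodule.mem_sup.1 hf
      show a.1 x + b.1 x = 0
      rw [h1 a ha, h2 b hb, add_zero]
  -- translates
  have hsub : ∀ g, μ (Z I ∩ {x | g⁻¹ * x ∈ Z I}) ≠ 0 → ∀ x ∈ Z I, g⁻¹ * x ∈ Z I := by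
    intro g hg
    rw [← htrans, ← hinter] at hg
    have h1 := hmax (I ⊔ I.comap (L g)) ⟨hI1.trans le_sup_left, hg⟩
    have h2 : I.comap (L g) ≤ I := by
      by_contra h
      exact h1 (lt_of_le_of_ne le_sup_left fun e => h (le_sup_right.trans e.ge))
    intro x hx
    have h3 : x ∈ Z (I.comap (L g)) := fun f hf => hx f (h2 hf)
    rw [htrans] at h3
    exact h3
  have hstab : ∀ g, μ (Z I ∩ {x | g⁻¹ * x ∈ Z I}) ≠ 0 → ∀ x, g * x ∈ Z I ↔ x ∈ Z I := by
    intro g hg x
    constructor
    · intro hx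
      have h1 := hsub g hg _ hx
      rwa [inv_mul_cancel_left] at h1
    · intro hx
      have h2 : μ (Z I ∩ {x | g⁻¹⁻¹ * x ∈ Z I}) ≠ 0 := by
        rw [← measure_preimage_mul μ g⁻¹] at hg ⊢
        have e : (fun x => g⁻¹ * x) ⁻¹' (Z I ∩ {x | g⁻¹⁻¹ * x ∈ Z I}) = Z I ∩ {x | g⁻¹ * x ∈ Z I} := by
          ext y
          simp only [Set.mem_preimage, Set.mem_inter_iff, Set.mem_ofPred_eq, inv_inv, mul_inv_cancel_left]
          tauto
        rw [e]
        rw [measure_preimage_mul] at hg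
        exact hg
      have h3 := hsub g⁻¹ h2 x hx
      rwa [inv_inv] at h3
  let H : Subgroup G :=
    { carrier := {g | ∀ x, g * x ∈ Z I ↔ x ∈ Z I}
      one_mem' := fun x => by rw [one_mul]
      mul_mem' := fun {a b} ha hb x => by rw [mul_assoc, ha, hb]
      inv_mem' := fun {a} ha x => by
        show a⁻¹ * x ∈ Z I ↔ x ∈ Z I
        rw [← ha (a⁻¹ * x), mul_inv_cancel_left] }
  have hHcl : IsClosed (H : Set G) := by
    have e : (H : Set G) = (⋂ x : Z I, (fun g => g * x.1) ⁻¹' Z I) ∩ (⋂ x : Z I, (fun g => g⁻¹ * x.1) ⁻¹' Z I) := by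
      ext g
      simp only [Set.mem_inter_iff, Set.mem_iInter, Set.mem_preimage]
      constructor
      · intro hg
        exact ⟨fun x => (hg x.1).2 x.2, fun x => (H.inv_mem hg x.1).2 x.2⟩
      · rintro ⟨h1, h2⟩ x
        constructor
        · intro hx
          have h3 := h2 ⟨_, hx⟩
          simpa using h3
        · intro hx
          exact h1 ⟨x, hx⟩
    rw [e]
    exact (isClosed_iInter fun x => (hZcl I).preimage (by fun_prop)).inter
      (isClosed_iInter fun x => (hZcl I).preimage (by fun_prop))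
  have hcard : ∀ T : Finset (G ⧸ H), (T.card : ENNReal) * μ (Z I) ≤ 1 := by
    intro T
    have h1 := measure_biUnion_finset₀ (μ := μ) (s := T) (f := fun q => {x | (q.out)⁻¹ * x ∈ Z I}) ?_ ?_
    · have h2 : ∀ q : G ⧸ H, μ {x | (q.out)⁻¹ * x ∈ Z I} = μ (Z I) := fun q =>
        measure_preimage_mul μ (q.out)⁻¹ (Z I)
      rw [Finset.sum_congr rfl fun q _ => h2 q, Finset.sum_const, nsmul_eq_mul] at h1
      rw [← h1]
      exact prob_le_one
    · intro q _ q' _ hqq
      show μ ({x | (q.out)⁻¹ * x ∈ Z I} ∩ {x | (q'.out)⁻¹ * x ∈ Z I}) = 0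
      by_contra h
      apply hqq
      rw [← measure_preimage_mul μ q.out] at h
      have e : (fun x => q.out * x) ⁻¹' ({x | (q.out)⁻¹ * x ∈ Z I} ∩ {x | (q'.out)⁻¹ * x ∈ Z I}) =
          Z I ∩ {x | (q.out⁻¹ * q'.out)⁻¹ * x ∈ Z I} := by
        ext y
        simp only [Set.mem_preimage, Set.mem_inter_iff, Set.mem_ofPred_eq, inv_mul_cancel_left, mul_inv_rev,
          inv_inv, mul_assoc]
      rw [e] at h
      have h2 := hstab _ h
      have h3 : q.out⁻¹ * q'.out ∈ H := h2
      rw [← QuotientGroup.eq, QuotientGroup.out_eq', QuotientGroup.out_eq'] at h3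
      exact h3
    · intro q _
      exact ((hZcl I).preimage (continuous_const_mul _)).measurableSet.nullMeasurableSet
  have hfinidx : Finite (G ⧸ H) := by
    by_contra hinf
    rw [not_finite_iff_infinite] at hinf
    obtain ⟨B, hB⟩ := ENNReal.exists_nat_mul_gt (a := μ (Z I)) (b := 1) hI2 ENNReal.one_ne_top
    obtain ⟨T, hT⟩ := Infinite.exists_subset_card_eq (G ⧸ H) B
    have h1 := hcard T
    rw [hT] at h1
    exact absurd h1 (not_le.2 hB)
  haveI : H.FiniteIndex := Subgroup.finiteIndex_of_finite_quotient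
  have hHo : IsOpen (H : Set G) := H.isOpen_of_isClosed_of_finiteIndex hHcl
  obtain ⟨x, hx⟩ : (Z I).Nonempty := nonempty_of_measure_ne_zero hI2
  refine ⟨H, hHo, x, fun h hh f hf => ?_⟩
  have h1 : h * x ∈ Z I := (hh x).2 hx
  exact h1 ⟨f, hS f hf⟩ (hI1 (Ideal.subset_span hf))

end

end Pool.Agent.X320.DS
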