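import Mathlib

/-! Irreducible representations in a sum of images. -/

set_option autoImplicit false
set_option linter.all false

namespace Pool.Agent.X320.DS

variable {F : Type*} [Field F] {G : Type*} {V E : Type*} [AddCommGroup V] [Module F V] [AddCommGroup E]
  [Module F E]

/-- A space `V` without nontrivial stable subspaces, contained in a finite sum of images of `U c`, is a
subquotient of one of the `U c`. -/
theorem subquot {C : Type*} {U : C → Type*} [∀ c, AddCommGroup (U c)] [∀ c, Module F (U c)]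
    (aV : G → V →ₗ[F] V) (aE : G → E →ₗ[F] E) (aU : ∀ c, G → U c →ₗ[F] U c)
    (hirr : ∀ W : Submodule F V, (∀ g, ∀ w ∈ W, aV g w ∈ W) → W = ⊥ ∨ W = ⊤) [Nontrivial V]
    (i : V →ₗ[F] E) (hi : ∀ g v, i (aV g v) = aE g (i v)) (hinj : Function.Injective i)
    (Ψ : ∀ c, U c →ₗ[F] E) (hΨ : ∀ c g u, Ψ c (aU c g u) = aE g (Ψ c u)) (s : Finset C)
    (hle : LinearMap.range i ≤ ⨆ c ∈ s, LinearMap.range (Ψ c)) :
    ∃ c ∈ s, ∃ (S : Submodule F (U c)) (π : S →ₗ[F] V), Function.Surjective π ∧
      ∀ g (u : S), ∃ h : aU c g u ∈ S, π ⟨aU c g u, h⟩ = aV g (π u) := by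
  classical
  induction s using Finset.induction_on with
  | empty =>
    exfalso
    obtain ⟨v, hv⟩ := exists_ne (0 : V)
    have h1 : i v ∈ (⨆ c ∈ (∅ : Finset C), LinearMap.range (Ψ c)) := hle ⟨v, rfl⟩
    simp only [Finset.notMem_empty, iSup_false, iSup_bot, Submodule.mem_bot] at h1
    exact hv (hinj (h1.trans (map_zero i).symm))
  | insert c s hcs ih =>
    set E1 : Submodule F E := ⨆ c ∈ s, LinearMap.range (Ψ c) with hE1
    have hE1s : ∀ g, ∀ e ∈ E1, aE g e ∈ E1 := by
      intro g e he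
      have h1 : E1 ≤ E1.comap (aE g) := by
        conv_lhs => rw [hE1]
        refine iSup₂_le fun c' hc' => ?_
        rintro _ ⟨u, rfl⟩
        rw [Submodule.mem_comap, ← hΨ]
        exact Submodule.mem_iSup_of_mem c' (Submodule.mem_iSup_of_mem hc' ⟨_, rfl⟩)
      exact h1 he
    rcases hirr (E1.comap i) (fun g w hw => by
      rw [Submodule.mem_comap] at hw ⊢
      rw [hi]
      exact hE1s g _ hw) with hW | hW
    · -- `V` meets `E1` in zero
      have hdisj : ∀ v, i v ∈ E1 → v = 0 := fun v hv => by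
        have : v ∈ E1.comap i := hv
        rw [hW] at this
        exact this
      have hsup : LinearMap.range i ≤ LinearMap.range (Ψ c) ⊔ E1 := by
        refine hle.trans ?_
        rw [Finset.iSup_insert]
      have hex : ∀ u : (Submodule.comap (Ψ c) (LinearMap.range i ⊔ E1) : Submodule F (U c)),
          ∃ v, Ψ c u.1 - i v ∈ E1 := by
        rintro ⟨u, hu⟩
        obtain ⟨_, ⟨v, rfl⟩, e, he, h⟩ := Submodule.mem_sup.1 hu
        refine ⟨v, ?_⟩
        rw [← h, add_sub_cancel_left]
        exact he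
      choose f hf using hex
      have huniq : ∀ u v, Ψ c u.1 - i v ∈ E1 → f u = v := by
        intro u v hv
        have h1 : i (f u - v) ∈ E1 := by
          have h2 := E1.sub_mem hv (hf u)
          rw [map_sub]
          have e : Ψ c u.1 - i v - (Ψ c u.1 - i (f u)) = i (f u) - i v := by abel
          rwa [e] at h2
        exact sub_eq_zero.1 (hdisj _ h1)
      refine ⟨c, Finset.mem_insert_self _ _, Submodule.comap (Ψ c) (LinearMap.range i ⊔ E1),
        { toFun := f, map_add' := ?_, map_smul' := ?_ }, ?_, ?_⟩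
      · intro u u'
        refine huniq _ _ ?_
        have h1 := E1.add_mem (hf u) (hf u')
        have e : Ψ c u.1 - i (f u) + (Ψ c u'.1 - i (f u')) = Ψ c (u + u').1 - i (f u + f u') := by
          rw [Submodule.coe_add, map_add, map_add]
          abel
        rwa [e] at h1
      · intro a u
        refine huniq _ _ ?_
        have h1 := E1.smul_mem a (hf u)
        rw [smul_sub] at h1
        rw [Submodule.coe_smul, map_smul, RingHom.id_apply, map_smul]
        exact h1
      · intro v
        obtain ⟨_, ⟨u, rfl⟩, e, he, h⟩ := Submodule.mem_sup.1 (hsup ⟨v, rfl⟩)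
        have hu : Ψ c u ∈ LinearMap.range i ⊔ E1 := by
          have e' : Ψ c u = i v + -e := by rw [← h]; abel
          rw [e']
          exact Submodule.add_mem_sup ⟨v, rfl⟩ (E1.neg_mem he)
        refine ⟨⟨u, hu⟩, huniq _ _ ?_⟩
        have e' : Ψ c u - i v = -e := by rw [← h]; abel
        show Ψ c u - i v ∈ E1
        rw [e']
        exact E1.neg_mem he
      · intro g u
        have hmem : Ψ c (aU c g u) - i (aV g (f u)) ∈ E1 := by
          rw [hΨ, hi, ← map_sub]
          exact hE1s g _ (hf u)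
        have h : aU c g u ∈ Submodule.comap (Ψ c) (LinearMap.range i ⊔ E1) := by
          rw [Submodule.mem_comap]
          have e' : Ψ c (aU c g u) = i (aV g (f u)) + (Ψ c (aU c g u) - i (aV g (f u))) := by abel
          rw [e']
          exact Submodule.add_mem_sup ⟨_, rfl⟩ hmem
        exact ⟨h, huniq ⟨_, h⟩ _ hmem⟩
    · obtain ⟨c', hc', h⟩ := ih (by
        rintro _ ⟨v, rfl⟩
        have : v ∈ E1.comap i := by rw [hW]; trivial
        exact this)
      exact ⟨c', Finset.mem_insert_of_mem hc', h⟩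

/-- The same for an arbitrary sum. -/
theorem subquot' {C : Type*} {U : C → Type*} [∀ c, AddCommGroup (U c)] [∀ c, Module F (U c)]
    (aV : G → V →ₗ[F] V) (aE : G → E →ₗ[F] E) (aU : ∀ c, G → U c →ₗ[F] U c)
    (hirr : ∀ W : Submodule F V, (∀ g, ∀ w ∈ W, aV g w ∈ W) → W = ⊥ ∨ W = ⊤)
    (i : V →ₗ[F] E) (hi : ∀ g v, i (aV g v) = aE g (i v)) 
    (Ψ : ∀ c, U c →ₗ[F] E) (hΨ : ∀ c g u, Ψ c (aU c g u) = aE g (Ψ c u)) (v0 : V) (hv0 : i v0 ≠ 0)
    (hmem : i v0 ∈ ⨆ c, LinearMap.range (Ψ c)) :
    ∃ c, ∃ (S : Submodule F (U c)) (π : S →ₗ[F] V), Function.Surjective π ∧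
      ∀ g (u : S), ∃ h : aU c g u ∈ S, π ⟨aU c g u, h⟩ = aV g (π u) := by
  classical
  have hv : v0 ≠ 0 := fun h => hv0 (by rw [h, map_zero])
  haveI : Nontrivial V := ⟨v0, 0, hv⟩
  have hinj : Function.Injective i := by
    rw [← LinearMap.ker_eq_bot]
    rcases hirr (LinearMap.ker i) (fun g w hw => by
      rw [LinearMap.mem_ker] at hw ⊢
      rw [hi, hw, map_zero]) with h | h
    · exact h
    · exfalso
      have : v0 ∈ LinearMap.ker i := by rw [h]; trivial
      exact hv0 this
  obtain ⟨s, hs⟩ : ∃ s : Finset C, i v0 ∈ ⨆ c ∈ s, LinearMap.range (Ψ c) := by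
    rwa [Submodule.mem_iSup_iff_exists_finset] at hmem
  set E1 : Submodule F E := ⨆ c ∈ s, LinearMap.range (Ψ c) with hE1
  have hE1s : ∀ g, ∀ e ∈ E1, aE g e ∈ E1 := by
    intro g e he
    have h1 : E1 ≤ E1.comap (aE g) := by
      conv_lhs => rw [hE1]
      refine iSup₂_le fun c' hc' => ?_
      rintro _ ⟨u, rfl⟩
      rw [Submodule.mem_comap, ← hΨ]
      exact Submodule.mem_iSup_of_mem c' (Submodule.mem_iSup_of_mem hc' ⟨_, rfl⟩)
    exact h1 he
  have hle : LinearMap.range i ≤ E1 := by
    rcases hirr (E1.comap i) (fun g w hw => by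
      rw [Submodule.mem_comap] at hw ⊢
      rw [hi]
      exact hE1s g _ hw) with hW | hW
    · exfalso
      have : v0 ∈ E1.comap i := hs
      rw [hW] at this
      exact hv this
    · rintro _ ⟨v, rfl⟩
      have : v ∈ E1.comap i := by rw [hW]; trivial
      exact this
  obtain ⟨c, _, h⟩ := subquot aV aE aU hirr i hi hinj Ψ hΨ s hle
  exact ⟨c, h⟩

end Pool.Agent.X320.DS
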